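import Mathlib
import Pool.Graph.R_seed8.Chud.Bez1
import Pool.Graph.R_seed8.Chud.PD1
import Pool.Graph.R_seed8.Chud.PD2

set_option autoImplicit false

/-!
# Local conditions at a point and at an infinitely near point
-/

namespace Pool.Agent.Helper52.NP

open MvPolynomial Pool.Agent.Chud

/-- polynomials in three variables -/
abbrev P3 := MvPolynomial (Fin 3) ℂ
/-- polynomials in two variables -/
abbrev P2 := MvPolynomial (Fin 2) ℂ

/-- The conditions `(k, l)`: the coefficient of `y ^ b z ^ c` vanishes when `b + c < k` or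
`b + 2 c < k + l`. -/
def Van (k l : ℕ) (g : P2) : Prop :=
  ∀ e : Fin 2 →₀ ℕ, (e 0 + e 1 < k ∨ e 0 + 2 * e 1 < k + l) → coeff e g = 0

lemma Van.mul {k l k' l' : ℕ} {g h : P2} (hg : Van k l g) (hh : Van k' l' h) :
    Van (k + k') (l + l') (g * h) := by
  classical
  intro e he
  rw [coeff_mul]
  apply Finset.sum_eq_zero
  rintro ⟨x, y⟩ hxy
  rw [Finset.HasAntidiagonal.mem_antidiagonal] at hxy
  have h0 : x 0 + y 0 = e 0 := by rw [← hxy]; rfl
  have h1 : x 1 + y 1 = e 1 := by rw [← hxy]; rfl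
  simp only
  by_cases hx : x 0 + x 1 < k ∨ x 0 + 2 * x 1 < k + l
  · rw [hg x hx, zero_mul]
  · rw [hh y (by omega), mul_zero]

lemma Van.add {k l : ℕ} {g h : P2} (hg : Van k l g) (hh : Van k l h) : Van k l (g + h) := by
  intro e he
  rw [coeff_add, hg e he, hh e he, add_zero]

lemma Van.neg {k l : ℕ} {g : P2} (hg : Van k l g) : Van k l (-g) := by
  intro e he
  rw [coeff_neg, hg e he, neg_zero]

lemma Van.sub {k l : ℕ} {g h : P2} (hg : Van k l g) (hh : Van k l h) : Van k l (g - h) := by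
  rw [sub_eq_add_neg]
  exact hg.add hh.neg

lemma Van.zero (g : P2) : Van 0 0 g := by
  intro e he
  omega

lemma Van.mono {k l k' l' : ℕ} {g : P2} (hg : Van k l g) (h1 : k' ≤ k) (h2 : k' + l' ≤ k + l) :
    Van k' l' g := by
  intro e he
  exact hg e (by omega)

lemma Van.mul_right {k l : ℕ} {g : P2} (hg : Van k l g) (h : P2) : Van k l (g * h) := by
  have := hg.mul (Van.zero h)
  simpa using this

lemma Van.mul_left {k l : ℕ} {g : P2} (hg : Van k l g) (h : P2) : Van k l (h * g) := by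
  rw [mul_comm]; exact hg.mul_right h

lemma van_zero_poly (k l : ℕ) : Van k l 0 := fun e _ => by simp

lemma van_of_mem {k l t : ℕ} (ht : k + l ≤ t) {g : P2} (hg : g ∈ idealOfVars (Fin 2) ℂ ^ t) :
    Van k l g := by
  intro e he
  rw [mem_pow_idealOfVars_iff'] at hg
  apply hg
  rw [Finsupp.degree_eq_sum, Fin.sum_univ_two]
  omega

lemma van_pow_iff {k : ℕ} {g : P2} : Van k 0 g ↔ g ∈ idealOfVars (Fin 2) ℂ ^ k := by
  rw [mem_pow_idealOfVars_iff']
  constructor
  · intro h e he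
    rw [Finsupp.degree_eq_sum, Fin.sum_univ_two] at he
    exact h e (Or.inl he)
  · intro h e he
    apply h
    rw [Finsupp.degree_eq_sum, Fin.sum_univ_two]
    omega

/-- indices of the conditions `(k, l)` -/
abbrev Cd (k l : ℕ) := Σ c : Fin k, Fin ((k - c.val) + (l - c.val))

lemma two_mul_sum (l : ℕ) : ∀ k, l ≤ k → 2 * ∑ c ∈ Finset.range k, (l - c) = l * (l + 1) := by
  have base : ∀ l : ℕ, 2 * ∑ c ∈ Finset.range l, (l - c) = l * (l + 1) := by
    intro l
    induction l with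
    | zero => simp
    | succ l ih =>
      rw [Finset.sum_range_succ']
      simp only [Nat.add_sub_add_right, Nat.sub_zero]
      rw [mul_add, ih]
      ring
  intro k hk
  induction k, hk using Nat.le_induction with
  | base => exact base l
  | succ k hk ih =>
    rw [Finset.sum_range_succ, Nat.sub_eq_zero_of_le hk, add_zero, ih]

lemma card_Cd {k l : ℕ} (hl : l ≤ k) : 2 * Fintype.card (Cd k l) = k * (k + 1) + l * (l + 1) := by
  rw [Fintype.card_sigma]
  simp only [Fintype.card_fin]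
  rw [Fin.sum_univ_eq_sum_range (fun c => (k - c) + (l - c)) k, Finset.sum_add_distrib, mul_add,
    two_mul_sum k k le_rfl, two_mul_sum l k hl]

/-- the coefficients in the conditions `(k, l)` -/
noncomputable def lo (k l : ℕ) : P2 →ₗ[ℂ] (Cd k l → ℂ) :=
  LinearMap.pi (fun x => MvPolynomial.lcoeff ℂ (ex x.2.val x.1.val))

lemma lo_apply (k l : ℕ) (h : P2) (x : Cd k l) : lo k l h x = coeff (ex x.2.val x.1.val) h := rfl

lemma lo_eq_zero_iff {k l : ℕ} (hl : l ≤ k) (h : P2) : lo k l h = 0 ↔ Van k l h := by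
  constructor
  · intro h0 e he
    have he1 : e 1 < k := by omega
    have he0 : e 0 < (k - e 1) + (l - e 1) := by omega
    have h1 := congrFun h0 ⟨⟨e 1, he1⟩, ⟨e 0, he0⟩⟩
    rw [lo_apply] at h1
    simp only [Pi.zero_apply] at h1
    rw [ex_eta e]
    exact h1
  · intro h0
    ext x
    rw [lo_apply]
    apply h0
    rw [ex_zero, ex_one]
    have h1 := x.2.2
    have h2 := x.1.2
    omega

/-- the polynomial with given coefficients -/
noncomputable def unlo (k l : ℕ) (c : Cd k l → ℂ) : P2 :=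
  ∑ x : Cd k l, C (c x) * (X 0 ^ x.2.val * X 1 ^ x.1.val)

lemma lo_unlo (k l : ℕ) (c : Cd k l → ℂ) : lo k l (unlo k l c) = c := by
  ext x
  rw [lo_apply, unlo, coeff_sum]
  rw [Finset.sum_eq_single x]
  · rw [monomial_ex, coeff_C_mul, coeff_monomial, if_pos rfl, mul_one]
  · intro y _ hy
    rw [monomial_ex, coeff_C_mul, coeff_monomial, if_neg, mul_zero]
    intro he
    apply hy
    obtain ⟨h1, h2⟩ := ex_inj he
    obtain ⟨⟨a, ha⟩, ⟨b, hb⟩⟩ := x
    obtain ⟨⟨a', ha'⟩, ⟨b', hb'⟩⟩ := y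
    simp only at h1 h2 hb hb'
    subst h1
    subst h2
    rfl
  · intro hx
    exact absurd (Finset.mem_univ _) hx

/-! ### frames -/

/-- A frame: a point, a tangent direction, and a third vector. -/
structure Frame where
  o : Fin 3 → ℂ
  u : Fin 3 → ℂ
  w : Fin 3 → ℂ
  det : (Matrix.of ![o, u, w]).det ≠ 0

namespace Frame

variable (M : Frame)

/-- the substitution `F ↦ F (o + y u + z w)` -/
noncomputable def φ : P3 →ₐ[ℂ] P2 :=
  aeval (fun i => C (M.o i) + C (M.u i) * X 0 + C (M.w i) * X 1)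

lemma φ_X (i : Fin 3) : M.φ (X i) = C (M.o i) + C (M.u i) * X 0 + C (M.w i) * X 1 := by
  simp [φ]

lemma φ_C (c : ℂ) : M.φ (C c) = C c := M.φ.commutes c

lemma coeff_zero_φ (F : P3) : coeff 0 (M.φ F) = eval M.o F := by
  have h : ((constantCoeff : P2 →+* ℂ).comp (M.φ : P3 →+* P2)) = (eval M.o) := by
    apply MvPolynomial.ringHom_ext
    · intro r
      simp
    · intro i
      simp [φ_X]
  have h2 := congrArg (fun f => f F) h
  simpa [constantCoeff_eq] using h2

/-- the linear form with coefficients `c` -/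
noncomputable def lf (c : Fin 3 → ℂ) : P3 := ∑ i, C (c i) * X i

lemma lf_homog (c : Fin 3 → ℂ) : (lf c).IsHomogeneous 1 := by
  refine IsHomogeneous.sum _ _ _ fun i _ => ?_
  have := (isHomogeneous_C (Fin 3) (c i)).mul (isHomogeneous_X ℂ i)
  rwa [zero_add] at this

lemma φ_lf (c : Fin 3 → ℂ) : M.φ (lf c) =
    C (∑ i, c i * M.o i) + C (∑ i, c i * M.u i) * X 0 + C (∑ i, c i * M.w i) * X 1 := by
  unfold lf
  simp only [Fin.sum_univ_three, map_add, map_mul, φ_X, φ_C]
  ring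

lemma eval_lf (c v : Fin 3 → ℂ) : eval v (lf c) = ∑ i, c i * v i := by
  simp [lf]

/-- the dual linear forms -/
lemma exists_dual : ∃ a b c : Fin 3 → ℂ, M.φ (lf a) = 1 ∧ M.φ (lf b) = X 0 ∧ M.φ (lf c) = X 1 := by
  set A : Matrix (Fin 3) (Fin 3) ℂ := Matrix.of ![M.o, M.u, M.w] with hA
  have hu : IsUnit A.det := isUnit_iff_ne_zero.2 M.det
  have h := Matrix.mul_nonsing_inv A hu
  have key : ∀ j : Fin 3, ∀ i : Fin 3, ∑ r, A⁻¹ r j * A i r = (1 : Matrix (Fin 3) (Fin 3) ℂ) i j := by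
    intro j i
    rw [← h, Matrix.mul_apply]
    exact Finset.sum_congr rfl fun r _ => mul_comm _ _
  have o : ∀ j, ∑ r, A⁻¹ r j * M.o r = (1 : Matrix (Fin 3) (Fin 3) ℂ) 0 j := fun j => key j 0
  have u : ∀ j, ∑ r, A⁻¹ r j * M.u r = (1 : Matrix (Fin 3) (Fin 3) ℂ) 1 j := fun j => key j 1
  have w : ∀ j, ∑ r, A⁻¹ r j * M.w r = (1 : Matrix (Fin 3) (Fin 3) ℂ) 2 j := fun j => key j 2
  refine ⟨fun r => A⁻¹ r 0, fun r => A⁻¹ r 1, fun r => A⁻¹ r 2, ?_, ?_, ?_⟩
  · rw [φ_lf, o 0, u 0, w 0]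
    simp
  · rw [φ_lf, o 1, u 1, w 1]
    simp
  · rw [φ_lf, o 2, u 2, w 2]
    simp

/-- lift of a polynomial to a form of degree `n ≥ k + l` -/
lemma lift {k l n : ℕ} (hn : k + l ≤ n) (a : Cd k l → ℂ) :
    ∃ A : P3, A.IsHomogeneous n ∧ M.φ A = unlo k l a := by
  obtain ⟨a0, a1, a2, h0, h1, h2⟩ := M.exists_dual
  refine ⟨∑ x : Cd k l, C (a x) * (lf a0 ^ (n - (x.1.val + x.2.val)) *
    (lf a1 ^ x.2.val * lf a2 ^ x.1.val)), ?_, ?_⟩
  · apply IsHomogeneous.sum
    intro x _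
    have hx1 := x.1.2
    have hx2 := x.2.2
    have e1 := (lf_homog a0).pow (n - (x.1.val + x.2.val))
    have e2 := (lf_homog a1).pow (x.2.val)
    have e3 := (lf_homog a2).pow (x.1.val)
    have e4 := (isHomogeneous_C (Fin 3) (a x)).mul (e1.mul (e2.mul e3))
    convert e4 using 1
    omega
  · rw [map_sum, unlo]
    apply Finset.sum_congr rfl
    intro x _
    simp only [map_mul, map_pow, h0, h1, h2, one_pow, one_mul, φ_C]

end Frame

end Pool.Agent.Helper52.NP
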