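import Mathlib
import Pool.Agent.Helper52.NP.Loc

set_option autoImplicit false

/-!
# The inequality of Bezout with multiplicities at points and at infinitely near points
-/

namespace Pool.Agent.Helper52.NP

open MvPolynomial Pool.Agent.Chud Pool.Agent.Helper52.NP.Frame

/-- The two vectors are not proportional. -/
def Far (v w : Fin 3 → ℂ) : Prop := ∃ i j, v i * w j ≠ v j * w i

lemma Far.symm {v w : Fin 3 → ℂ} (h : Far v w) : Far w v := by
  obtain ⟨i, j, hij⟩ := h
  exact ⟨j, i, fun h => hij (by linear_combination h)⟩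

lemma Far.sep {v w : Fin 3 → ℂ} (h : Far v w) :
    ∃ c : Fin 3 → ℂ, ∑ i, c i * v i = 0 ∧ ∑ i, c i * w i ≠ 0 := by
  obtain ⟨i, j, hij⟩ := h
  set c : Fin 3 → ℂ := Pi.single j (v i) - Pi.single i (v j) with hc
  have hsum : ∀ x : Fin 3 → ℂ, ∑ m, c m * x m = v i * x j - v j * x i := by
    intro x
    simp [hc, sub_mul, Finset.sum_sub_distrib, Pi.single_apply]
  refine ⟨c, ?_, ?_⟩
  · rw [hsum]; ring
  · rw [hsum]
    exact fun h => hij (sub_eq_zero.1 h)

variable {ι : Type} [Fintype ι] [DecidableEq ι]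

/-- The points of the frames are pairwise distinct. -/
def Sepd (M : ι → Frame) : Prop := ∀ i j, i ≠ j → Far (M i).o (M j).o

/-- separation of the points with multiplicities -/
lemma exists_local_lift (M : ι → Frame) (hM : Sepd M) (k l : ι → ℕ)
    {n : ℕ} (hn : ∑ i, (k i + l i) ≤ n) (p : ι) (c : Cd (k p) (l p) → ℂ) (hl : l p ≤ k p) :
    ∃ A : P3, A.IsHomogeneous n ∧ lo (k p) (l p) ((M p).φ A) = c ∧
      ∀ q, q ≠ p → Van (k q) (l q) ((M q).φ A) := by
  classical
  have hl' : ∀ q : ι, ∃ h : Fin 3 → ℂ, q ≠ p →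
      (∑ i, h i * (M q).o i = 0 ∧ ∑ i, h i * (M p).o i ≠ 0) := by
    intro q
    by_cases hq : q = p
    · exact ⟨0, fun h => absurd hq h⟩
    · obtain ⟨h, h1⟩ := (hM q p hq).sep
      exact ⟨h, fun _ => h1⟩
  choose h hh using hl'
  set t : ι → ℕ := fun q => k q + l q with ht
  set E : P3 := ∏ q ∈ Finset.univ.erase p, lf (h q) ^ (t q) with hE
  have hEh : E.IsHomogeneous (∑ q ∈ Finset.univ.erase p, t q) := by
    rw [hE]
    have := IsHomogeneous.prod (Finset.univ.erase p) (fun q => lf (h q) ^ (t q)) (fun q => 1 * t q)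
      (fun q _ => (lf_homog (h q)).pow (t q))
    simpa using this
  have hE0 : eval (M p).o E ≠ 0 := by
    rw [hE, map_prod]
    apply Finset.prod_ne_zero_iff.2
    intro q hq
    rw [map_pow]
    apply pow_ne_zero
    rw [eval_lf]
    exact (hh q (Finset.ne_of_mem_erase hq)).2
  have hEm : ∀ q, q ≠ p → Van (k q) (l q) ((M q).φ E) := by
    intro q hqp
    rw [hE, ← Finset.mul_prod_erase _ _ (Finset.mem_erase.2 ⟨hqp, Finset.mem_univ q⟩), map_mul]
    apply Van.mul_right
    rw [map_pow]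
    apply van_of_mem (t := t q) le_rfl
    apply Ideal.pow_mem_pow
    rw [mem_idealOfVars_iff, coeff_zero_φ, eval_lf]
    exact (hh q hqp).1
  have hu : coeff 0 ((M p).φ E) ≠ 0 := by
    rw [coeff_zero_φ]; exact hE0
  obtain ⟨w, hw⟩ := exists_inv_mod (t p) ((M p).φ E) hu
  have hsum : ∑ q ∈ Finset.univ.erase p, t q + t p = ∑ q, t q :=
    Finset.sum_erase_add _ _ (Finset.mem_univ p)
  have hn' : ∑ q, t q ≤ n := hn
  have htp : t p = k p + l p := rfl
  obtain ⟨A1, hA1, hA1'⟩ := (M p).lift (k := k p) (l := l p)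
    (n := n - ∑ q ∈ Finset.univ.erase p, t q) (by omega)
    (lo (k p) (l p) (w * unlo (k p) (l p) c))
  refine ⟨A1 * E, ?_, ?_, ?_⟩
  · have := hA1.mul hEh
    convert this using 1
    omega
  · rw [map_mul]
    have h1 : Van (k p) (l p) ((M p).φ A1 - w * unlo (k p) (l p) c) := by
      rw [← lo_eq_zero_iff hl, map_sub, hA1', lo_unlo, sub_self]
    have h2 : Van (k p) (l p) ((M p).φ A1 * (M p).φ E - unlo (k p) (l p) c) := by
      have e : (M p).φ A1 * (M p).φ E - unlo (k p) (l p) c =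
          ((M p).φ A1 - w * unlo (k p) (l p) c) * (M p).φ E +
          unlo (k p) (l p) c * (w * (M p).φ E - 1) := by ring
      rw [e]
      exact (h1.mul_right _).add ((van_of_mem le_rfl hw).mul_left _)
    rw [← lo_eq_zero_iff hl, map_sub, lo_unlo, sub_eq_zero] at h2
    exact h2
  · intro q hqp
    rw [map_mul]
    exact (hEm q hqp).mul_left _

/-- all local coefficients -/
noncomputable def Phi (M : ι → Frame) (k l : ι → ℕ) :
    P3 →ₗ[ℂ] ((Σ p : ι, Cd (k p) (l p)) → ℂ) :=
  LinearMap.pi (fun x => (LinearMap.proj x.2).comp ((lo (k x.1) (l x.1)).comp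
    (M x.1).φ.toLinearMap))

lemma Phi_apply (M : ι → Frame) (k l : ι → ℕ) (A : P3) (x : Σ p : ι, Cd (k p) (l p)) :
    Phi M k l A x = lo (k x.1) (l x.1) ((M x.1).φ A) x.2 := rfl

lemma Phi_eq_zero_iff (M : ι → Frame) (k l : ι → ℕ) (hl : ∀ i, l i ≤ k i) (A : P3) :
    Phi M k l A = 0 ↔ ∀ p, Van (k p) (l p) ((M p).φ A) := by
  constructor
  · intro h p
    rw [← lo_eq_zero_iff (hl p)]
    ext x
    have := congrFun h ⟨p, x⟩
    rw [Phi_apply] at this
    exact this
  · intro h
    ext ⟨p, x⟩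
    rw [Phi_apply]
    have := (lo_eq_zero_iff (hl p) _).2 (h p)
    simp only [this]
    rfl

lemma Phi_surj (M : ι → Frame) (hM : Sepd M) (k l : ι → ℕ) (hl : ∀ i, l i ≤ k i) {n : ℕ}
    (hn : ∑ i, (k i + l i) ≤ n) (c : (Σ p : ι, Cd (k p) (l p)) → ℂ) :
    ∃ A : P3, A.IsHomogeneous n ∧ Phi M k l A = c := by
  have h1 : ∀ p : ι, ∃ A : P3, A.IsHomogeneous n ∧
      lo (k p) (l p) ((M p).φ A) = (fun x => c ⟨p, x⟩) ∧
      ∀ q, q ≠ p → Van (k q) (l q) ((M q).φ A) := fun p =>
    exists_local_lift M hM k l hn p (fun x => c ⟨p, x⟩) (hl p)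
  choose A hA1 hA2 hA3 using h1
  refine ⟨∑ p, A p, IsHomogeneous.sum _ _ _ (fun p _ => hA1 p), ?_⟩
  ext ⟨p, x⟩
  rw [Phi_apply]
  simp only [map_sum]
  rw [Finset.sum_eq_single p]
  · rw [hA2]
  · intro q _ hqp
    exact (lo_eq_zero_iff (hl p) _).2 (hA3 q p hqp.symm)
  · intro h
    exact absurd (Finset.mem_univ _) h

lemma finrank_target (k l : ι → ℕ) (hl : ∀ i, l i ≤ k i) :
    2 * Module.finrank ℂ ((Σ p : ι, Cd (k p) (l p)) → ℂ) =
      ∑ p, (k p * (k p + 1) + l p * (l p + 1)) := by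
  rw [Module.finrank_fintype_fun_eq_card, Fintype.card_sigma, Finset.mul_sum]
  exact Finset.sum_congr rfl fun p _ => card_Cd (hl p)

instance finite_forms (n : ℕ) : Module.Finite ℂ (homogeneousSubmodule (Fin 3) ℂ n) := by
  apply Module.Finite.of_fg
  exact homogeneousSubmodule_fg _ _ n

lemma finrank_ker_comp_le {V V₂ V₃ : Type*} [AddCommGroup V] [Module ℂ V] [AddCommGroup V₂]
    [Module ℂ V₂] [AddCommGroup V₃] [Module ℂ V₃] [FiniteDimensional ℂ V] [FiniteDimensional ℂ V₂]
    (f : V →ₗ[ℂ] V₂) (g : V₂ →ₗ[ℂ] V₃) :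
    Module.finrank ℂ (LinearMap.ker (g.comp f)) ≤
      Module.finrank ℂ (LinearMap.ker f) + Module.finrank ℂ (LinearMap.ker g) := by
  let Q : LinearMap.ker (g.comp f) →ₗ[ℂ] LinearMap.ker g :=
    LinearMap.codRestrict _ (f.comp (LinearMap.ker (g.comp f)).subtype) (fun x => x.2)
  have e1 := LinearMap.finrank_range_add_finrank_ker Q
  have e2 : Module.finrank ℂ (LinearMap.range Q) ≤ Module.finrank ℂ (LinearMap.ker g) :=
    Submodule.finrank_le _
  have e3 : Module.finrank ℂ (LinearMap.ker Q) ≤ Module.finrank ℂ (LinearMap.ker f) := by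
    let J : LinearMap.ker Q →ₗ[ℂ] LinearMap.ker f :=
      LinearMap.codRestrict _ ((LinearMap.ker (g.comp f)).subtype.comp (LinearMap.ker Q).subtype) (by
        intro x
        have := x.2
        rw [LinearMap.mem_ker] at this ⊢
        exact congrArg Subtype.val this)
    apply LinearMap.finrank_le_finrank_of_injective (f := J)
    intro x y hxy
    apply Subtype.ext
    apply Subtype.ext
    have h1 : (J x).1 = (J y).1 := by rw [hxy]
    exact h1
  omega

/-- Bezout's inequality with multiplicities at points and at infinitely near points -/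
theorem bezout (M : ι → Frame) (hM : Sepd M) {F G : P3} {a b : ℕ} (hF : F.IsHomogeneous a)
    (hG : G.IsHomogeneous b) (hG0 : G ≠ 0) (hrel : IsRelPrime F G)
    (k l k' l' : ι → ℕ) (hl : ∀ i, l i ≤ k i) (hl' : ∀ i, l' i ≤ k' i)
    (hr : ∀ p, Van (k p) (l p) ((M p).φ F)) (hs : ∀ p, Van (k' p) (l' p) ((M p).φ G)) :
    ∑ p, (k p * k' p + l p * l' p) ≤ a * b := by
  set kk : ι → ℕ := fun p => k p + k' p with hkk
  set ll : ι → ℕ := fun p => l p + l' p with hll
  have hlk : ∀ i, ll i ≤ kk i := fun i => Nat.add_le_add (hl i) (hl' i)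
  set N : ℕ := ∑ p, (kk p + ll p) with hN
  let R : ℕ → Submodule ℂ P3 := fun n => homogeneousSubmodule (Fin 3) ℂ n
  -- the space of pairs
  let V := (R (N + b)) × (R (N + a))
  -- multiplication map
  let Mu : V →ₗ[ℂ] P3 :=
    LinearMap.coprod ((LinearMap.mulRight ℂ F).comp (R (N + b)).subtype)
      ((LinearMap.mulRight ℂ G).comp (R (N + a)).subtype)
  have hMu : ∀ x : V, Mu x = x.1.1 * F + x.2.1 * G := fun x => rfl
  let Rn := R (N + a + b)
  let M' : V →ₗ[ℂ] Rn := LinearMap.codRestrict Rn Mu (by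
    intro x
    rw [hMu]
    apply Submodule.add_mem
    · have h1 : (x.1.1).IsHomogeneous (N + b) := x.1.2
      have h2 := h1.mul hF
      show (x.1.1 * F).IsHomogeneous (N + a + b)
      convert h2 using 1
      omega
    · have h1 : (x.2.1).IsHomogeneous (N + a) := x.2.2
      have h2 := h1.mul hG
      show (x.2.1 * G).IsHomogeneous (N + a + b)
      convert h2 using 1)
  have hM' : ∀ x : V, (M' x : P3) = x.1.1 * F + x.2.1 * G := fun x => hMu x
  -- the local map
  let Φ : Rn →ₗ[ℂ] ((Σ p : ι, Cd (kk p) (ll p)) → ℂ) := (Phi M kk ll).comp Rn.subtype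
  have hΦs : Function.Surjective Φ := by
    intro c
    obtain ⟨A, hA, hA'⟩ := Phi_surj M hM kk ll hlk (n := N + a + b) (by omega) c
    exact ⟨⟨A, hA⟩, hA'⟩
  let Λ : V →ₗ[ℂ] (((Σ p : ι, Cd (k' p) (l' p)) → ℂ) × ((Σ p : ι, Cd (k p) (l p)) → ℂ)) :=
    LinearMap.prodMap ((Phi M k' l').comp (R (N + b)).subtype)
      ((Phi M k l).comp (R (N + a)).subtype)
  let Ψ : V →ₗ[ℂ] ((Σ p : ι, Cd (kk p) (ll p)) → ℂ) := Φ.comp M'
  -- ker Λ ≤ ker Ψ
  have hker : LinearMap.ker Λ ≤ LinearMap.ker Ψ := by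
    intro x hx
    rw [LinearMap.mem_ker] at hx ⊢
    have h1 : Phi M k' l' x.1.1 = 0 := congrArg Prod.fst hx
    have h2 : Phi M k l x.2.1 = 0 := congrArg Prod.snd hx
    rw [Phi_eq_zero_iff M _ _ hl'] at h1
    rw [Phi_eq_zero_iff M _ _ hl] at h2
    have h3 : Phi M kk ll (x.1.1 * F + x.2.1 * G) = 0 := by
      rw [Phi_eq_zero_iff M _ _ hlk]
      intro p
      rw [map_add, map_mul, map_mul]
      apply Van.add
      · have e3 := (hr p).mul (h1 p)
        rw [mul_comm]
        exact e3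
      · exact (h2 p).mul (hs p)
    show Φ (M' x) = 0
    have h4 : Φ (M' x) = Phi M kk ll (M' x : P3) := rfl
    rw [h4, hM']
    exact h3
  -- kernel of M'
  let K : R N →ₗ[ℂ] V := LinearMap.prod
    (LinearMap.codRestrict (R (N + b)) ((LinearMap.mulRight ℂ G).comp (R N).subtype) (by
      intro x
      have h1 : (x.1).IsHomogeneous N := x.2
      exact h1.mul hG))
    (LinearMap.codRestrict (R (N + a)) (-((LinearMap.mulRight ℂ F).comp (R N).subtype)) (by
      intro x
      have h1 : (x.1).IsHomogeneous N := x.2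
      exact (h1.mul hF).neg))
  have hkerM : LinearMap.ker M' ≤ LinearMap.range K := by
    intro x hx
    rw [LinearMap.mem_ker] at hx
    have h1 : x.1.1 * F + x.2.1 * G = 0 := by
      rw [← hM', hx]; rfl
    have h2 : G ∣ x.1.1 * F := by
      have : x.1.1 * F = -x.2.1 * G := by linear_combination h1
      rw [this]; exact Dvd.intro_left _ rfl
    have h3 : G ∣ x.1.1 := (hrel.symm).dvd_of_dvd_mul_right h2
    obtain ⟨H, hH⟩ := h3
    have h4 : x.2.1 = - (H * F) := by
      have e1 : G * (H * F + x.2.1) = 0 := by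
        rw [hH] at h1
        linear_combination h1
      rcases mul_eq_zero.1 e1 with h | h
      · exact absurd h hG0
      · linear_combination h
    -- H is homogeneous of degree N
    have h5 : H.IsHomogeneous N := by
      by_cases hH0 : H = 0
      · rw [hH0]; exact isHomogeneous_zero _ _ _
      · have hx1 : (x.1.1).IsHomogeneous (N + b) := x.1.2
        have hx0 : x.1.1 ≠ 0 := by
          rw [hH]; exact mul_ne_zero hG0 hH0
        have hHd := homog_of_dvd hx1 hx0 (Dvd.intro_left G hH.symm)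
        have h6 := hG.mul hHd
        rw [← hH] at h6
        have h7 := h6.inj_right hx1 hx0
        have h8 : H.totalDegree = N := by omega
        rwa [h8] at hHd
    refine ⟨⟨H, h5⟩, ?_⟩
    apply Prod.ext
    · apply Subtype.ext
      show H * G = x.1.1
      rw [hH, mul_comm]
    · apply Subtype.ext
      show -(H * F) = x.2.1
      rw [h4]
  -- dimension count
  have d1 : Module.finrank ℂ (LinearMap.ker M') ≤ (N + 2).choose 2 := by
    calc Module.finrank ℂ (LinearMap.ker M') ≤ Module.finrank ℂ (LinearMap.range K) :=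
          Submodule.finrank_mono hkerM
      _ ≤ Module.finrank ℂ (R N) := LinearMap.finrank_range_le K
      _ = _ := finrank_forms N
  have d2 : Module.finrank ℂ (LinearMap.range Ψ) ≤
      Module.finrank ℂ ((Σ p : ι, Cd (k' p) (l' p)) → ℂ) +
        Module.finrank ℂ ((Σ p : ι, Cd (k p) (l p)) → ℂ) := by
    have e1 := LinearMap.finrank_range_add_finrank_ker Ψ
    have e2 := LinearMap.finrank_range_add_finrank_ker Λ
    have e3 := Submodule.finrank_mono hker
    have e4 : Module.finrank ℂ (LinearMap.range Λ) ≤ _ := Submodule.finrank_le (LinearMap.range Λ)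
    rw [Module.finrank_prod] at e4
    omega
  have d3 : Module.finrank ℂ (LinearMap.ker Ψ) ≤
      Module.finrank ℂ (LinearMap.ker M') + Module.finrank ℂ (LinearMap.ker Φ) :=
    finrank_ker_comp_le M' Φ
  have d4 : Module.finrank ℂ (LinearMap.ker Φ) +
      Module.finrank ℂ ((Σ p : ι, Cd (kk p) (ll p)) → ℂ) = (N + a + b + 2).choose 2 := by
    have e1 := LinearMap.finrank_range_add_finrank_ker Φ
    rw [LinearMap.range_eq_top.2 hΦs, finrank_top] at e1
    have e2 : Module.finrank ℂ Rn = (N + a + b + 2).choose 2 := finrank_forms _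
    omega
  have d5 : Module.finrank ℂ (LinearMap.range Ψ) + Module.finrank ℂ (LinearMap.ker Ψ) =
      (N + b + 2).choose 2 + (N + a + 2).choose 2 := by
    have e1 := LinearMap.finrank_range_add_finrank_ker Ψ
    have e2 : Module.finrank ℂ V = (N + b + 2).choose 2 + (N + a + 2).choose 2 := by
      show Module.finrank ℂ ((R (N + b)) × (R (N + a))) = _
      rw [Module.finrank_prod, finrank_forms, finrank_forms]
    omega
  have f1 := finrank_target kk ll hlk
  have f2 := finrank_target k l hl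
  have f3 := finrank_target k' l' hl'
  have ch : ∀ m : ℕ, 2 * (m + 2).choose 2 = (m + 2) * (m + 1) := by
    intro m
    rw [Nat.choose_two_right]
    have : 2 ∣ (m + 2) * (m + 2 - 1) := (Nat.even_mul_pred_self (m + 2)).two_dvd
    rw [Nat.mul_div_cancel' this]
    rfl
  have c1 := ch (N + a + b)
  have c2 := ch (N + a)
  have c3 := ch (N + b)
  have c4 := ch N
  have hsum : ∑ p, (kk p * (kk p + 1) + ll p * (ll p + 1)) =
      ∑ p, (k p * (k p + 1) + l p * (l p + 1)) + ∑ p, (k' p * (k' p + 1) + l' p * (l' p + 1)) +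
      2 * ∑ p, (k p * k' p + l p * l' p) := by
    rw [Finset.mul_sum, ← Finset.sum_add_distrib, ← Finset.sum_add_distrib]
    apply Finset.sum_congr rfl
    intro p _
    simp only [hkk, hll]
    ring
  have key : 2 * (N + b + 2).choose 2 + 2 * (N + a + 2).choose 2 +
      2 * Module.finrank ℂ ((Σ p : ι, Cd (kk p) (ll p)) → ℂ) ≤
      2 * Module.finrank ℂ ((Σ p : ι, Cd (k' p) (l' p)) → ℂ) +
        2 * Module.finrank ℂ ((Σ p : ι, Cd (k p) (l p)) → ℂ)
      + 2 * (N + 2).choose 2 + 2 * (N + a + b + 2).choose 2 := by omega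
  rw [c1, c2, c3, c4, f1, f2, f3, hsum] at key
  nlinarith

end Pool.Agent.Helper52.NP
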