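import Mathlib
import Pool.Agent.Helper52.NP.Bez

set_option autoImplicit false

/-!
# Existence of forms, derivatives, extra points and the genus inequality
-/

namespace Pool.Agent.Helper52.NP

open MvPolynomial Pool.Agent.Chud Pool.Agent.Helper52.NP.Frame

/-! ### existence of forms -/

section
variable {ι : Type} [Fintype ι] [DecidableEq ι]

lemma two_choose (m : ℕ) : 2 * (m + 2).choose 2 = (m + 2) * (m + 1) := by
  rw [Nat.choose_two_right]
  have : 2 ∣ (m + 2) * (m + 2 - 1) := (Nat.even_mul_pred_self (m + 2)).two_dvd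
  rw [Nat.mul_div_cancel' this]
  rfl

lemma exists_form (M : ι → Frame) (k l : ι → ℕ) (hl : ∀ i, l i ≤ k i) {n : ℕ}
    (hn : ∑ p, (k p * (k p + 1) + l p * (l p + 1)) < (n + 2) * (n + 1)) :
    ∃ A : P3, A ≠ 0 ∧ A.IsHomogeneous n ∧ ∀ p, Van (k p) (l p) ((M p).φ A) := by
  have h1 := finrank_target k l hl
  have h2 := two_choose n
  have h3 : Module.finrank ℂ ((Σ p : ι, Cd (k p) (l p)) → ℂ) <
      Module.finrank ℂ (homogeneousSubmodule (Fin 3) ℂ n) := by
    rw [Pool.Agent.Chud.finrank_forms]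
    omega
  have h4 := LinearMap.ker_ne_bot_of_finrank_lt (f := (Phi M k l).comp
    (homogeneousSubmodule (Fin 3) ℂ n).subtype) h3
  obtain ⟨x, hx, hx0⟩ := Submodule.exists_mem_ne_zero_of_ne_bot h4
  refine ⟨x.1, ?_, x.2, ?_⟩
  · intro h
    exact hx0 (Subtype.ext h)
  · rw [LinearMap.mem_ker] at hx
    exact (Phi_eq_zero_iff M k l hl x.1).1 hx

end

/-! ### derivatives -/

lemma Van.pderiv0 {k l : ℕ} {g : P2} (hg : Van k l g) : Van (k - 1) (l - 1) (pderiv 0 g) := by
  intro e he
  rw [coeff_pderiv, hg, zero_mul]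
  have h0 : (e + (Finsupp.single 0 1 : Fin 2 →₀ ℕ)) 0 = e 0 + 1 := by simp
  have h1 : (e + (Finsupp.single 0 1 : Fin 2 →₀ ℕ)) 1 = e 1 := by simp
  rw [h0, h1]
  omega

lemma Van.pderiv1 {k l : ℕ} {g : P2} (hg : Van k l g) (hlk : l ≤ k) :
    Van (k - 1) (l - 1) (pderiv 1 g) := by
  intro e he
  rw [coeff_pderiv, hg, zero_mul]
  have h0 : (e + (Finsupp.single 1 1 : Fin 2 →₀ ℕ)) 0 = e 0 := by simp
  have h1 : (e + (Finsupp.single 1 1 : Fin 2 →₀ ℕ)) 1 = e 1 + 1 := by simp
  rw [h0, h1]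
  omega

namespace Frame

variable (M : Frame)

lemma pderiv0_φ (F : P3) : pderiv 0 (M.φ F) = ∑ i, C (M.u i) * M.φ (pderiv i F) := by
  induction F using MvPolynomial.induction_on with
  | C a => simp
  | add p q hp hq => simp only [map_add, hp, hq, mul_add, Finset.sum_add_distrib]
  | mul_X p i hp =>
    rw [map_mul, pderiv_mul, hp]
    have h2 : pderiv 0 (M.φ (X i)) = C (M.u i) := by
      rw [φ_X]
      simp [pderiv_X_of_ne (show (1 : Fin 2) ≠ 0 by decide)]
    rw [h2]
    simp only [pderiv_mul, map_add, map_mul, mul_add, Finset.sum_add_distrib, Finset.sum_mul]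
    congr 1
    · exact Finset.sum_congr rfl fun j _ => by ring
    · rw [Finset.sum_eq_single i]
      · rw [pderiv_X_self, map_one]; ring
      · intro j _ hj
        rw [pderiv_X_of_ne hj.symm, map_zero]; ring
      · intro h; exact absurd (Finset.mem_univ _) h

lemma pderiv1_φ (F : P3) : pderiv 1 (M.φ F) = ∑ i, C (M.w i) * M.φ (pderiv i F) := by
  induction F using MvPolynomial.induction_on with
  | C a => simp
  | add p q hp hq => simp only [map_add, hp, hq, mul_add, Finset.sum_add_distrib]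
  | mul_X p i hp =>
    rw [map_mul, pderiv_mul, hp]
    have h2 : pderiv 1 (M.φ (X i)) = C (M.w i) := by
      rw [φ_X]
      simp [pderiv_X_of_ne (show (0 : Fin 2) ≠ 1 by decide)]
    rw [h2]
    simp only [pderiv_mul, map_add, map_mul, mul_add, Finset.sum_add_distrib, Finset.sum_mul]
    congr 1
    · exact Finset.sum_congr rfl fun j _ => by ring
    · rw [Finset.sum_eq_single i]
      · rw [pderiv_X_self, map_one]; ring
      · intro j _ hj
        rw [pderiv_X_of_ne hj.symm, map_zero]; ring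
      · intro h; exact absurd (Finset.mem_univ _) h

lemma euler_φ {F : P3} {d : ℕ} (hF : F.IsHomogeneous d) :
    ∑ i, C (M.o i) * M.φ (pderiv i F) =
      C (d : ℂ) * M.φ F - X 0 * pderiv 0 (M.φ F) - X 1 * pderiv 1 (M.φ F) := by
  have h := congrArg M.φ hF.sum_X_mul_pderiv
  rw [map_sum, nsmul_eq_mul, map_mul, map_natCast] at h
  rw [pderiv0_φ, pderiv1_φ]
  simp only [map_mul, φ_X, Fin.sum_univ_three] at h ⊢
  rw [show (C (d : ℂ) : P2) = (d : P2) from map_natCast C d, ← h]
  ring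

lemma van_pderiv {F : P3} {d : ℕ} (hF : F.IsHomogeneous d) {k l : ℕ} (hlk : l ≤ k)
    (h : Van k l (M.φ F)) (i : Fin 3) : Van (k - 1) (l - 1) (M.φ (pderiv i F)) := by
  have h0 : Van (k - 1) (l - 1) (∑ i, C (M.u i) * M.φ (pderiv i F)) := by
    rw [← pderiv0_φ]; exact h.pderiv0
  have h1 : Van (k - 1) (l - 1) (∑ i, C (M.w i) * M.φ (pderiv i F)) := by
    rw [← pderiv1_φ]; exact h.pderiv1 hlk
  have h2 : Van (k - 1) (l - 1) (∑ i, C (M.o i) * M.φ (pderiv i F)) := by
    rw [M.euler_φ hF]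
    refine ((Van.mul_left (h.mono ?_ ?_) _).sub (h.pderiv0.mul_left _)).sub
      ((h.pderiv1 hlk).mul_left _) <;> omega
  set A : Matrix (Fin 3) (Fin 3) ℂ := Matrix.of ![M.o, M.u, M.w] with hA
  have hu : IsUnit A.det := isUnit_iff_ne_zero.2 M.det
  have hinv := Matrix.nonsing_inv_mul A hu
  have key : ∀ j : Fin 3, A⁻¹ i 0 * M.o j + A⁻¹ i 1 * M.u j + A⁻¹ i 2 * M.w j =
      (1 : Matrix (Fin 3) (Fin 3) ℂ) i j := by
    intro j
    rw [← hinv, Matrix.mul_apply, Fin.sum_univ_three]
    rfl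
  have e : M.φ (pderiv i F) = C (A⁻¹ i 0) * (∑ i, C (M.o i) * M.φ (pderiv i F)) +
      C (A⁻¹ i 1) * (∑ i, C (M.u i) * M.φ (pderiv i F)) +
      C (A⁻¹ i 2) * (∑ i, C (M.w i) * M.φ (pderiv i F)) := by
    rw [Finset.mul_sum, Finset.mul_sum, Finset.mul_sum, ← Finset.sum_add_distrib,
      ← Finset.sum_add_distrib]
    have : ∀ j : Fin 3, C (A⁻¹ i 0) * (C (M.o j) * M.φ (pderiv j F)) +
        C (A⁻¹ i 1) * (C (M.u j) * M.φ (pderiv j F)) + C (A⁻¹ i 2) * (C (M.w j) * M.φ (pderiv j F)) =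
        C ((1 : Matrix (Fin 3) (Fin 3) ℂ) i j) * M.φ (pderiv j F) := by
      intro j
      rw [← key j, map_add, map_add, map_mul, map_mul, map_mul]
      ring
    rw [Finset.sum_congr rfl fun j _ => this j, Finset.sum_eq_single i]
    · simp
    · intro j _ hj
      rw [Matrix.one_apply_ne hj.symm]; simp
    · intro h; exact absurd (Finset.mem_univ _) h
  rw [e]
  exact ((h2.mul_left _).add (h0.mul_left _)).add (h1.mul_left _)

end Frame

/-! ### frames at given points -/

lemma exists_frame2 {v u : Fin 3 → ℂ} (h : Far v u) : ∃ M : Frame, M.o = v ∧ M.u = u := by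
  obtain ⟨i, j, hij⟩ := h
  have hd : ∀ w : Fin 3 → ℂ, (Matrix.of ![v, u, w]).det =
      w 0 * (v 1 * u 2 - v 2 * u 1) + w 1 * (v 2 * u 0 - v 0 * u 2) +
        w 2 * (v 0 * u 1 - v 1 * u 0) := by
    intro w
    rw [Matrix.det_fin_three]
    simp
    ring
  by_cases h2 : v 0 * u 1 - v 1 * u 0 = 0
  · by_cases h1 : v 2 * u 0 - v 0 * u 2 = 0
    · by_cases h0 : v 1 * u 2 - v 2 * u 1 = 0
      · exfalso
        apply hij
        fin_cases i <;> fin_cases j <;> simp only [Fin.zero_eta, Fin.mk_one, Fin.reduceFinMk]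
        · linear_combination h2
        · linear_combination (-1 : ℂ) * h1
        · linear_combination (-1 : ℂ) * h2
        · linear_combination h0
        · linear_combination h1
        · linear_combination (-1 : ℂ) * h0
      · exact ⟨⟨v, u, ![1, 0, 0], by rw [hd]; simpa using h0⟩, rfl, rfl⟩
    · exact ⟨⟨v, u, ![0, 1, 0], by rw [hd]; simpa using h1⟩, rfl, rfl⟩
  · exact ⟨⟨v, u, ![0, 0, 1], by rw [hd]; simpa using h2⟩, rfl, rfl⟩

lemma exists_frame {v : Fin 3 → ℂ} (h : v ≠ 0) : ∃ M : Frame, M.o = v := by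
  obtain ⟨i, hi⟩ : ∃ i, v i ≠ 0 := by
    by_contra hcon
    push Not at hcon
    exact h (funext hcon)
  obtain ⟨j, hj⟩ : ∃ j : Fin 3, j ≠ i := by
    fin_cases i
    · exact ⟨1, by decide⟩
    · exact ⟨0, by decide⟩
    · exact ⟨0, by decide⟩
  obtain ⟨M, hM, -⟩ := exists_frame2 (v := v) (u := Pi.single j 1)
    ⟨i, j, by simp [hj, hi]⟩
  exact ⟨M, hM⟩

lemma van_one_iff (M : Frame) (F : P3) : Van 1 0 (M.φ F) ↔ eval M.o F = 0 := by
  rw [van_pow_iff, pow_one, mem_idealOfVars_iff, coeff_zero_φ]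

lemma Frame.o_ne (M : Frame) : M.o ≠ 0 := by
  intro h
  apply M.det
  rw [Matrix.det_fin_three]
  simp [h]

/-! ### extra points -/

theorem eval_smul {e : ℕ} {Φ : P3} (h : Φ.IsHomogeneous e) (t : ℂ)
    (y : Fin 3 → ℂ) : eval (t • y) Φ = t ^ e * eval y Φ := by
  rw [MvPolynomial.eval_eq', MvPolynomial.eval_eq', Finset.mul_sum]
  apply Finset.sum_congr rfl
  intro m hm
  have h1 : m.degree = e := by
    have h2 := h (MvPolynomial.mem_support_iff.1 hm)
    rw [← h2]
    exact congrFun (congrArg DFunLike.coe (Finsupp.degree_eq_weight_one (σ := Fin 3) (R := ℕ))) m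
  rw [Finsupp.degree_eq_sum] at h1
  rw [← h1, Fin.sum_univ_three, Fin.prod_univ_three, Fin.prod_univ_three]
  simp only [Pi.smul_apply, smul_eq_mul]
  ring

/-- the restriction to a parametrized line -/
noncomputable def onLine (A B : Fin 3 → ℂ) : P3 →ₐ[ℂ] Polynomial ℂ :=
  aeval (fun i => Polynomial.C (A i) + Polynomial.X * Polynomial.C (B i))

lemma eval_onLine (A B : Fin 3 → ℂ) (F : P3) (x : ℂ) :
    (onLine A B F).eval x = eval (A + x • B) F := by
  have : ((Polynomial.evalRingHom x).comp (onLine A B : P3 →+* Polynomial ℂ)) =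
      eval (A + x • B) := by
    apply MvPolynomial.ringHom_ext
    · intro r
      simp [onLine]
    · intro i
      simp [onLine]
      ring
  exact congrArg (fun f => f F) this

/-- A form of positive degree has a zero on every line. -/
lemma exists_zero_line {F : P3} {d : ℕ} (hF : F.IsHomogeneous d) (hd : 1 ≤ d) (A B : Fin 3 → ℂ) :
    ∃ x y : ℂ, (x ≠ 0 ∨ y ≠ 0) ∧ eval (x • A + y • B) F = 0 := by
  by_cases hroot : ∃ x, (onLine A B F).eval x = 0
  · obtain ⟨x, hx⟩ := hroot
    refine ⟨1, x, Or.inl one_ne_zero, ?_⟩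
    rw [eval_onLine] at hx
    rw [one_smul]
    exact hx
  · push Not at hroot
    have hPc : ∃ c : ℂ, onLine A B F = Polynomial.C c := by
      by_cases h1 : (onLine A B F).degree ≤ 0
      · exact ⟨_, Polynomial.eq_C_of_degree_le_zero h1⟩
      · exfalso
        rw [not_le] at h1
        obtain ⟨x, hx⟩ := IsAlgClosed.exists_root (onLine A B F) h1.ne'
        exact hroot x hx
    obtain ⟨c, hc⟩ := hPc
    have hP1 : ∀ x : ℂ, eval (A + x • B) F = c := by
      intro x
      rw [← eval_onLine, hc, Polynomial.eval_C]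
    have hQP : ∀ x : ℂ, x ≠ 0 → (onLine B A F).eval x = x ^ d * c := by
      intro x hx
      rw [eval_onLine, ← hP1 x⁻¹, ← eval_smul hF]
      congr 1
      have : B + x • A = x • (A + x⁻¹ • B) := by
        rw [smul_add, smul_smul, mul_inv_cancel₀ hx, one_smul, add_comm]
      rw [this]
    have hQ2 : onLine B A F = Polynomial.X ^ d * Polynomial.C c := by
      apply Polynomial.eq_of_infinite_eval_eq
      apply Set.Infinite.mono (s := {x : ℂ | x ≠ 0})
      · intro x hx
        show (onLine B A F).eval x = _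
        rw [hQP x hx]
        simp only [Polynomial.eval_mul, Polynomial.eval_pow, Polynomial.eval_X, Polynomial.eval_C]
      · have : ({x : ℂ | x ≠ 0}) = ({0} : Set ℂ)ᶜ := by
          ext x
          simp
        rw [this]
        exact (Set.finite_singleton (0 : ℂ)).infinite_compl
    refine ⟨0, 1, Or.inr one_ne_zero, ?_⟩
    have h5 := eval_onLine B A F 0
    rw [hQ2] at h5
    simp only [Polynomial.eval_mul, Polynomial.eval_pow, Polynomial.eval_X] at h5
    rw [zero_pow (by omega), zero_mul] at h5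
    rw [zero_smul, one_smul, zero_add]
    rw [zero_smul, add_zero] at h5
    exact h5.symm

/-- a line which avoids a finite set of points -/
lemma exists_avoid (S : Finset (Fin 3 → ℂ)) (hS : ∀ s ∈ S, s ≠ 0) :
    ∃ t : ℂ, ∀ s ∈ S, s 0 + s 1 * t + s 2 * t ^ 2 ≠ 0 := by
  classical
  set P : Polynomial ℂ := ∏ s ∈ S, (Polynomial.C (s 0) + Polynomial.C (s 1) * Polynomial.X +
    Polynomial.C (s 2) * Polynomial.X ^ 2) with hP
  have hP0 : P ≠ 0 := by
    rw [hP]
    apply Finset.prod_ne_zero_iff.2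
    intro s hs h0
    apply hS s hs
    have c0 := congrArg (fun p => Polynomial.coeff p 0) h0
    have c1 := congrArg (fun p => Polynomial.coeff p 1) h0
    have c2 := congrArg (fun p => Polynomial.coeff p 2) h0
    simp [Polynomial.coeff_X, Polynomial.coeff_C, Polynomial.coeff_X_pow] at c0 c1 c2
    funext i
    fin_cases i
    · simpa using c0
    · simpa using c1
    · simpa using c2
  obtain ⟨t, ht⟩ := Polynomial.exists_eval_ne_zero_of_natDegree_lt_card P hP0
    (lt_of_lt_of_le Cardinal.natCast_lt_aleph0 (Cardinal.aleph0_le_mk ℂ))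
  refine ⟨t, fun s hs h0 => ht ?_⟩
  rw [hP, Polynomial.eval_prod]
  apply Finset.prod_eq_zero hs
  simpa using h0

/-- A form of positive degree has a zero outside any finite set of points. -/
lemma exists_zero {F : P3} {d : ℕ} (hF : F.IsHomogeneous d) (hd : 1 ≤ d)
    (S : Finset (Fin 3 → ℂ)) (hS : ∀ s ∈ S, s ≠ 0) :
    ∃ v : Fin 3 → ℂ, v ≠ 0 ∧ eval v F = 0 ∧ ∀ s ∈ S, Far s v := by
  classical
  -- a line which avoids `S`
  obtain ⟨t, ht⟩ := exists_avoid S hS
  have hfar : ∀ v : Fin 3 → ℂ, v ≠ 0 → v 0 + v 1 * t + v 2 * t ^ 2 = 0 → ∀ s ∈ S, Far s v := by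
    intro v hv hcv s hs
    by_contra hn
    unfold Far at hn
    push Not at hn
    apply hv
    have h1 : ∀ j, v j * (s 0 + s 1 * t + s 2 * t ^ 2) = 0 := by
      intro j
      linear_combination (hn 0 j) + t * (hn 1 j) + t ^ 2 * (hn 2 j) + s j * hcv
    funext j
    exact (mul_eq_zero.1 (h1 j)).resolve_right (ht s hs)
  -- two points of the line
  obtain ⟨x, y, hxy, h0⟩ := exists_zero_line hF hd ![-t, 1, 0] ![-t ^ 2, 0, 1]
  have hne : x • ![-t, 1, 0] + y • ![-t ^ 2, 0, 1] ≠ 0 := by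
    intro h
    have h1 := congrFun h 1
    have h2 := congrFun h 2
    simp at h1 h2
    rcases hxy with h | h
    · exact h h1
    · exact h h2
  refine ⟨_, hne, h0, hfar _ hne ?_⟩
  simp

/-- arbitrarily many distinct zeros -/
lemma exists_zeros {F : P3} {d : ℕ} (hF : F.IsHomogeneous d) (hd : 1 ≤ d)
    (S : Finset (Fin 3 → ℂ)) (hS : ∀ s ∈ S, s ≠ 0) (n : ℕ) :
    ∃ q : Fin n → Fin 3 → ℂ, (∀ i, q i ≠ 0 ∧ eval (q i) F = 0 ∧ ∀ s ∈ S, Far s (q i)) ∧
      ∀ i j, i ≠ j → Far (q i) (q j) := by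
  classical
  induction n with
  | zero => exact ⟨fun i => i.elim0, fun i => i.elim0, fun i => i.elim0⟩
  | succ n ih =>
    obtain ⟨q, hq, hq'⟩ := ih
    obtain ⟨v, hv, hv0, hvS⟩ := exists_zero hF hd (S ∪ Finset.univ.image q) (by
      intro s hs
      rw [Finset.mem_union, Finset.mem_image] at hs
      rcases hs with hs | ⟨i, -, rfl⟩
      · exact hS s hs
      · exact (hq i).1)
    have hvS' : ∀ s ∈ S, Far s v := fun s hs => hvS s (Finset.mem_union_left _ hs)
    have hvq : ∀ i, Far (q i) v := fun i =>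
      hvS _ (Finset.mem_union_right _ (Finset.mem_image_of_mem _ (Finset.mem_univ i)))
    refine ⟨Fin.cons v q, ?_, ?_⟩
    · intro i
      refine Fin.cases ?_ ?_ i
      · rw [Fin.cons_zero]; exact ⟨hv, hv0, hvS'⟩
      · intro i; rw [Fin.cons_succ]; exact hq i
    · intro i j
      refine Fin.cases ?_ ?_ i
      · refine Fin.cases ?_ ?_ j
        · intro h; exact absurd rfl h
        · intro j _; rw [Fin.cons_zero, Fin.cons_succ]; exact (hvq j).symm
      · intro i
        refine Fin.cases ?_ ?_ j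
        · intro _; rw [Fin.cons_zero, Fin.cons_succ]; exact hvq i
        · intro j h
          rw [Fin.cons_succ, Fin.cons_succ]
          exact hq' i j (fun h' => h (by rw [h']))

end Pool.Agent.Helper52.NP
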