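import Mathlib
import Pool.Agent.Helper52.NP.Gen

set_option autoImplicit false

/-!
# The genus inequality for irreducible curves
-/

namespace Pool.Agent.Helper52.NP

open MvPolynomial Pool.Agent.Chud Pool.Agent.Helper52.NP.Frame

lemma deg_pos {F : P3} {d : ℕ} (hF : F.IsHomogeneous d) (hirr : Irreducible F) : 1 ≤ d := by
  by_contra h
  have h0 : d = 0 := by omega
  subst h0
  have h1 : F.totalDegree = 0 := hF.totalDegree hirr.ne_zero
  rw [totalDegree_eq_zero_iff_eq_C] at h1
  apply hirr.not_isUnit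
  rw [h1]
  apply IsUnit.map
  apply isUnit_iff_ne_zero.2
  intro h2
  apply hirr.ne_zero
  rw [h1, h2, C_0]

lemma not_dvd_of_lt {F G : P3} {d e : ℕ} (hF : F.IsHomogeneous d) (hG : G.IsHomogeneous e)
    (hG0 : G ≠ 0) (h : e < d) : ¬ F ∣ G := by
  rintro ⟨H, rfl⟩
  have hF0 : F ≠ 0 := left_ne_zero_of_mul hG0
  have hH0 : H ≠ 0 := right_ne_zero_of_mul hG0
  have h1 := totalDegree_mul_of_isDomain hF0 hH0
  rw [hG.totalDegree hG0, hF.totalDegree hF0] at h1
  omega

/-- a frame at each of the extra points -/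
lemma exists_frames {ι : Type} [Fintype ι] [DecidableEq ι] (M : ι → Frame) (hM : Sepd M) {F : P3}
    {d : ℕ} (hF : F.IsHomogeneous d) (hd : 1 ≤ d) (n : ℕ) :
    ∃ Q : Fin n → Frame, Sepd (Sum.elim M Q) ∧ ∀ i, Van 1 0 ((Q i).φ F) := by
  classical
  obtain ⟨q, hq, hq'⟩ := exists_zeros hF hd (Finset.univ.image fun i => (M i).o) (by
    intro s hs
    rw [Finset.mem_image] at hs
    obtain ⟨i, -, rfl⟩ := hs
    exact (M i).o_ne) n
  choose Q hQ using fun i => exists_frame (hq i).1
  have h1 : ∀ i j, Far (M i).o (Q j).o := by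
    intro i j
    rw [hQ j]
    exact (hq j).2.2 _ (Finset.mem_image_of_mem _ (Finset.mem_univ i))
  refine ⟨Q, ?_, ?_⟩
  · rintro (i | i) (j | j) hij
    · exact hM i j (fun h => hij (by rw [h]))
    · exact h1 i j
    · exact (h1 j i).symm
    · show Far (Q i).o (Q j).o
      rw [hQ i, hQ j]
      exact hq' i j (fun h => hij (by rw [h]))
  · intro i
    rw [van_one_iff, hQ i]
    exact (hq i).2.1

/-- The genus inequality. -/
theorem genus {ι : Type} [Fintype ι] [DecidableEq ι] (M : ι → Frame) (hM : Sepd M) {F : P3} {d : ℕ}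
    (hF : F.IsHomogeneous d) (hirr : Irreducible F) (k l : ι → ℕ) (hl : ∀ i, l i ≤ k i)
    (hV : ∀ p, Van (k p) (l p) ((M p).φ F)) :
    ∑ p, (k p * (k p - 1) + l p * (l p - 1)) + 3 * d ≤ d * d + 2 := by
  have hd := deg_pos hF hirr
  have hF0 := hirr.ne_zero
  -- a nonzero partial derivative
  obtain ⟨i, hi⟩ : ∃ i, pderiv i F ≠ 0 := by
    by_contra hcon
    push Not at hcon
    have h1 := hF.sum_X_mul_pderiv
    rw [Finset.sum_eq_zero (fun i _ => by rw [hcon i, mul_zero])] at h1
    rw [nsmul_eq_mul] at h1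
    rcases mul_eq_zero.1 h1.symm with h2 | h2
    · have : (d : P3) ≠ 0 := by
        rw [Nat.cast_ne_zero]
        omega
      exact this h2
    · exact hF0 h2
  have hGh : (pderiv i F).IsHomogeneous (d - 1) := hF.pderiv
  have hrel : IsRelPrime F (pderiv i F) :=
    hirr.isRelPrime_iff_not_dvd.2 (not_dvd_of_lt hF hGh hi (by omega))
  have hb := bezout M hM hF hGh hi hrel k l (fun p => k p - 1) (fun p => l p - 1) hl
    (fun p => Nat.sub_le_sub_right (hl p) 1) hV (fun p => (M p).van_pderiv hF (hl p) (hV p) i)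
  -- the adjoint-type curve
  set s : ℕ := ∑ p, (k p * (k p - 1) + l p * (l p - 1)) with hs
  have f1 := finrank_target (fun p => k p - 1) (fun p => l p - 1)
    (fun p => Nat.sub_le_sub_right (hl p) 1)
  have hmm : ∀ m : ℕ, (m - 1) * (m - 1 + 1) = m * (m - 1) := by
    intro m
    rcases m with _ | m
    · rfl
    · simp only [Nat.add_sub_cancel]
      ring
  have f2 : ∑ p, ((k p - 1) * (k p - 1 + 1) + (l p - 1) * (l p - 1 + 1)) = s := by
    rw [hs]
    exact Finset.sum_congr rfl fun p _ => by rw [hmm, hmm]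
  rw [f2] at f1
  set δ : ℕ := Module.finrank ℂ ((Σ p : ι, Cd (k p - 1) (l p - 1)) → ℂ) with hδ
  obtain ⟨e, rfl⟩ : ∃ e, d = e + 1 := ⟨d - 1, by omega⟩
  simp only [Nat.add_sub_cancel] at hb hGh
  have c1 := two_choose e
  set c : ℕ := (e + 2).choose 2 with hc
  have hle : δ + 1 ≤ c := by
    have : 2 * δ + 2 ≤ 2 * c := by
      rw [c1, f1]
      nlinarith
    omega
  obtain ⟨N, hN⟩ : ∃ N, δ + N + 1 = c := ⟨c - δ - 1, by omega⟩
  obtain ⟨Q, hQ, hQF⟩ := exists_frames M hM hF hd N
  obtain ⟨A, hA0, hAh, hA⟩ := exists_form (Sum.elim M Q)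
    (Sum.elim (fun p => k p - 1) (fun _ => 1)) (Sum.elim (fun p => l p - 1) (fun _ => 0))
    (by
      rintro (p | p)
      · exact Nat.sub_le_sub_right (hl p) 1
      · exact Nat.zero_le _) (n := e) (by
      rw [Fintype.sum_sum_type]
      simp only [Sum.elim_inl, Sum.elim_inr]
      rw [f2, ← f1, ← c1, ← hN]
      simp only [Finset.sum_const, Finset.card_univ, Fintype.card_fin, smul_eq_mul]
      omega)
  have hrel2 : IsRelPrime F A :=
    hirr.isRelPrime_iff_not_dvd.2 (not_dvd_of_lt hF hAh hA0 (by omega))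
  have hb2 := bezout (Sum.elim M Q) hQ hF hAh hA0 hrel2 (Sum.elim k (fun _ => 1))
    (Sum.elim l (fun _ => 0)) (Sum.elim (fun p => k p - 1) (fun _ => 1))
    (Sum.elim (fun p => l p - 1) (fun _ => 0))
    (by
      rintro (p | p)
      · exact hl p
      · exact Nat.zero_le _)
    (by
      rintro (p | p)
      · exact Nat.sub_le_sub_right (hl p) 1
      · exact Nat.zero_le _)
    (by
      rintro (p | p)
      · exact hV p
      · exact hQF p) hA
  rw [Fintype.sum_sum_type] at hb2
  simp only [Sum.elim_inl, Sum.elim_inr] at hb2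
  rw [← hs] at hb2
  simp only [Finset.sum_const, Finset.card_univ, Fintype.card_fin, smul_eq_mul] at hb2
  have e1 : 2 * c = e * e + 3 * e + 2 := by rw [c1]; ring
  nlinarith

end Pool.Agent.Helper52.NP
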