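import Mathlib
import Pool.Agent.Helper52.NP.Genus

set_option autoImplicit false

/-!
# The numerical argument on a blow-up of the plane at nine points
-/

namespace Pool.Agent.Helper52.NP

open MvPolynomial Pool.Agent.Chud

/-- the nine points: `none` is the last point -/
abbrev Ix := Option (Fin 8)

/-- the multiplicities at nine points, one of them possibly infinitely near -/
structure Pack where
  m : P3 → Ix → ℕ
  mul : ∀ {F G : P3} {a b : ℕ}, F.IsHomogeneous a → G.IsHomogeneous b → F ≠ 0 → G ≠ 0 →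
    ∀ o, m (F * G) o = m F o + m G o
  bez : ∀ {F G : P3} {a b : ℕ}, F.IsHomogeneous a → G.IsHomogeneous b → F ≠ 0 → G ≠ 0 →
    IsRelPrime F G → ∑ o, m F o * m G o ≤ a * b
  gen : ∀ {F : P3} {d : ℕ}, F.IsHomogeneous d → Irreducible F →
    ∑ o, m F o * (m F o - 1) + 3 * d ≤ d * d + 2
  s1 : ∀ {F : P3} {d : ℕ}, F.IsHomogeneous d → Irreducible F →
    ∑ j : Fin 8, m F (some j) + 1 ≤ 3 * d
  D : P3
  hD : D.IsHomogeneous 3
  irrD : Irreducible D
  mD : ∀ j, m D (some j) = 1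
  m1 : 1 ≤ m D none

namespace Pack

variable (P : Pack)

lemma unit {c : ℂ} (hc : c ≠ 0) (o : Ix) : P.m (C c) o = 0 := by
  have hC0 : (C c : P3) ≠ 0 := by
    rw [Ne, C_eq_zero]; exact hc
  have hCh := isHomogeneous_C (Fin 3) c
  have h1 := P.bez hCh hCh hC0 hC0 (by
    have : IsUnit (C c : P3) := (isUnit_iff_ne_zero.2 hc).map C
    exact this.isRelPrime_left)
  rw [mul_zero] at h1
  have h2 := Finset.sum_eq_zero_iff.1 (Nat.le_zero.1 h1) o (Finset.mem_univ o)
  exact (mul_self_eq_zero.1 h2)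

/-- twice the expected dimension -/
def A2 (F : P3) (d : ℕ) : ℤ := (d : ℤ) * d + 3 * d - ∑ o, (P.m F o : ℤ) * (P.m F o + 1)

lemma A2_mul {F G : P3} {a b : ℕ} (hF : F.IsHomogeneous a) (hG : G.IsHomogeneous b) (hF0 : F ≠ 0)
    (hG0 : G ≠ 0) : P.A2 (F * G) (a + b) = P.A2 F a + P.A2 G b +
      2 * ((a : ℤ) * b - ∑ o, (P.m F o : ℤ) * P.m G o) := by
  unfold A2
  have h1 : ∑ o, (P.m (F * G) o : ℤ) * (P.m (F * G) o + 1) =
      ∑ o, (P.m F o : ℤ) * (P.m F o + 1) + ∑ o, (P.m G o : ℤ) * (P.m G o + 1) +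
      2 * ∑ o, (P.m F o : ℤ) * P.m G o := by
    rw [Finset.mul_sum, ← Finset.sum_add_distrib, ← Finset.sum_add_distrib]
    refine Finset.sum_congr rfl fun o _ => ?_
    rw [P.mul hF hG hF0 hG0]
    push_cast
    ring
  rw [h1]
  push_cast
  ring

lemma A2_mul_le {F G : P3} {a b : ℕ} (hF : F.IsHomogeneous a) (hG : G.IsHomogeneous b) (hF0 : F ≠ 0)
    (hG0 : G ≠ 0) (h : IsRelPrime F G) : P.A2 F a + P.A2 G b ≤ P.A2 (F * G) (a + b) := by
  rw [P.A2_mul hF hG hF0 hG0]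
  have h1 := P.bez hF hG hF0 hG0 h
  have h2 : ∑ o, (P.m F o : ℤ) * P.m G o ≤ (a : ℤ) * b := by
    exact_mod_cast h1
  linarith

/-- the class of a `(-2)`-curve -/
def Neg2 (F : P3) (d : ℕ) : Prop :=
  F.IsHomogeneous d ∧ Irreducible F ∧ ∑ o, P.m F o = 3 * d ∧ ∑ o, P.m F o * P.m F o = d * d + 2

lemma sum_m (F : P3) : ∑ o, P.m F o = P.m F none + ∑ j : Fin 8, P.m F (some j) :=
  Fintype.sum_option _

lemma mD_le : P.m P.D none ≤ 2 := by
  have h := P.gen P.hD P.irrD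
  rw [Fintype.sum_option] at h
  simp only [P.mD] at h
  simp at h
  by_contra hcon
  have h2 : 3 ≤ P.m P.D none := by omega
  have h3 : 3 * 2 ≤ P.m P.D none * (P.m P.D none - 1) := Nat.mul_le_mul h2 (by omega)
  omega

lemma even_A2 (F : P3) (d : ℕ) : Even (P.A2 F d) := by
  unfold A2
  apply Even.sub
  · have h : (d : ℤ) * d + 3 * d = (d : ℤ) * (d + 1) + 2 * d := by ring
    rw [h]
    exact (Int.even_mul_succ_self _).add (even_two_mul _)
  · exact Finset.even_sum _ fun o _ => Int.even_mul_succ_self _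

/-- the bound from the genus inequality -/
lemma A2_genus {F : P3} {d : ℕ} (hF : F.IsHomogeneous d) (hirr : Irreducible F) :
    2 * ((3 : ℤ) * d - ∑ o, (P.m F o : ℤ)) - 2 ≤ P.A2 F d ∧
    (P.A2 F d = 2 * ((3 : ℤ) * d - ∑ o, (P.m F o : ℤ)) - 2 →
      ∑ o, (P.m F o : ℤ) * P.m F o - ∑ o, (P.m F o : ℤ) + 3 * d = d * d + 2) := by
  have h := P.gen hF hirr
  have h1 : ((∑ o, P.m F o * (P.m F o - 1) : ℕ) : ℤ) =
      ∑ o, (P.m F o : ℤ) * P.m F o - ∑ o, (P.m F o : ℤ) := by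
    rw [Nat.cast_sum, ← Finset.sum_sub_distrib]
    refine Finset.sum_congr rfl fun o _ => ?_
    rcases Nat.eq_zero_or_pos (P.m F o) with h0 | h0
    · rw [h0]; simp
    · rw [Nat.cast_mul, Nat.cast_sub h0]
      push_cast
      ring
  have h2 : ((∑ o, P.m F o * (P.m F o - 1) : ℕ) : ℤ) + 3 * d ≤ d * d + 2 := by
    exact_mod_cast h
  rw [h1] at h2
  have h3 : P.A2 F d = (d : ℤ) * d + 3 * d - ∑ o, (P.m F o : ℤ) * P.m F o -
      ∑ o, (P.m F o : ℤ) := by
    unfold A2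
    have : ∑ o, (P.m F o : ℤ) * (P.m F o + 1) = ∑ o, (P.m F o : ℤ) * P.m F o +
        ∑ o, (P.m F o : ℤ) := by
      rw [← Finset.sum_add_distrib]
      exact Finset.sum_congr rfl fun o _ => by ring
    rw [this]
    ring
  rw [h3]
  constructor
  · linarith
  · intro h4
    linarith

lemma m_assoc {F G : P3} {d : ℕ} (hF : F.IsHomogeneous d) (hF0 : F ≠ 0) (h : Associated F G) :
    P.m G = P.m F ∧ G.IsHomogeneous d := by
  obtain ⟨u, hu⟩ := h
  have h1 := isUnit_iff_totalDegree_of_isReduced.1 u.isUnit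
  have h2 := totalDegree_eq_zero_iff_eq_C.1 h1.2
  set c := coeff 0 (u : P3)
  have hc : c ≠ 0 := h1.1.ne_zero
  have hC0 : (C c : P3) ≠ 0 := by
    rw [Ne, C_eq_zero]; exact hc
  rw [← hu, h2]
  constructor
  · funext o
    rw [P.mul hF (isHomogeneous_C _ _) hF0 hC0, P.unit hc, add_zero]
  · have := hF.mul (isHomogeneous_C (Fin 3) c)
    rwa [add_zero] at this

/-- the contribution of `D` -/
lemma A2_D {F : P3} {d : ℕ} (hF : F.IsHomogeneous d) (h : Associated P.D F) :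
    P.A2 F d = 2 - (P.m P.D none : ℤ) * (P.m P.D none + 1) := by
  obtain ⟨h1, h2⟩ := P.m_assoc P.hD P.irrD.ne_zero h
  have hF0 : F ≠ 0 := by
    intro h0
    rw [h0] at h
    exact P.irrD.ne_zero (h.eq_zero_iff.2 rfl)
  have h3 : d = 3 := hF.inj_right h2 hF0
  subst h3
  unfold A2
  rw [h1, Fintype.sum_option]
  simp only [P.mD]
  simp
  ring

/-- the contribution of a curve different from `D` -/
lemma A2_irr {F : P3} {d : ℕ} (hF : F.IsHomogeneous d) (hirr : Irreducible F)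
    (h : ¬ Associated P.D F) : 0 ≤ P.A2 F d ∨
      (P.A2 F d = -2 ∧ P.Neg2 F d ∧ P.m P.D none = 1) := by
  have hrel : IsRelPrime P.D F := by
    rw [P.irrD.isRelPrime_iff_not_dvd]
    intro hdvd
    exact h ((P.irrD.dvd_irreducible_iff_associated hirr).1 hdvd)
  have hb := P.bez P.hD hF P.irrD.ne_zero hirr.ne_zero hrel
  rw [Fintype.sum_option] at hb
  simp only [P.mD, one_mul] at hb
  have hs := P.s1 hF hirr
  obtain ⟨hg1, hg2⟩ := P.A2_genus hF hirr
  have hsum : (∑ o, (P.m F o : ℤ)) = P.m F none + ∑ j : Fin 8, (P.m F (some j) : ℤ) :=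
    Fintype.sum_option _
  rw [hsum] at hg1 hg2
  obtain ⟨S, hS⟩ : ∃ S : ℕ, S = ∑ j : Fin 8, P.m F (some j) := ⟨_, rfl⟩
  have hS' : (S : ℤ) = ∑ j : Fin 8, (P.m F (some j) : ℤ) := by rw [hS]; push_cast; rfl
  rw [← hS] at hb hs
  rw [← hS'] at hg1 hg2
  have hm1 := P.m1
  have hm2 := P.mD_le
  rcases (show P.m P.D none = 1 ∨ P.m P.D none = 2 by omega) with he | he
  · rw [he, one_mul] at hb
    rcases Nat.lt_or_ge (P.m F none + S) (3 * d) with hlt | hge
    · left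
      have : (P.m F none : ℤ) + S + 1 ≤ 3 * d := by exact_mod_cast hlt
      linarith
    · have heq : P.m F none + S = 3 * d := le_antisymm hb hge
      have heq' : (P.m F none : ℤ) + S = 3 * d := by exact_mod_cast heq
      obtain ⟨r, hr⟩ := P.even_A2 F d
      rcases lt_or_ge (P.A2 F d) 0 with hneg | hpos
      · right
        have h2 : P.A2 F d = -2 := by omega
        refine ⟨h2, ⟨hF, hirr, ?_, ?_⟩, he⟩
        · rw [Fintype.sum_option, ← hS]; exact heq
        · have h3 := hg2 (by rw [h2]; linarith)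
          have h4 : (∑ o, (P.m F o : ℤ) * P.m F o) = d * d + 2 := by
            linarith
          exact_mod_cast h4
      · left; exact hpos
  · left
    rw [he] at hb
    have hb' : 2 * (P.m F none : ℤ) + S ≤ 3 * d := by exact_mod_cast hb
    have hs' : (S : ℤ) + 1 ≤ 3 * d := by exact_mod_cast hs
    rcases Nat.eq_zero_or_pos (P.m F none) with h0 | h0
    · rw [h0] at hg1
      push_cast at hg1
      linarith
    · have h0' : (1 : ℤ) ≤ P.m F none := by exact_mod_cast h0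
      linarith

end Pack

/-! ### factorization -/

lemma eq_C_of_isUnit {F : P3} (h : IsUnit F) : ∃ c : ℂ, c ≠ 0 ∧ F = C c := by
  have h1 := isUnit_iff_totalDegree_of_isReduced.1 h
  exact ⟨_, h1.1.ne_zero, totalDegree_eq_zero_iff_eq_C.1 h1.2⟩

lemma exists_factors : ∀ (n : ℕ) (F : P3), F.totalDegree ≤ n → F ≠ 0 → Squarefree F →
    ∃ T : Finset P3, (∀ Γ ∈ T, Irreducible Γ) ∧ (∀ Γ ∈ T, ∀ Γ' ∈ T, Γ ≠ Γ' → ¬ Associated Γ Γ') ∧
      ∃ c : ℂ, c ≠ 0 ∧ F = C c * ∏ Γ ∈ T, Γ := by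
  classical
  intro n
  induction n with
  | zero =>
    intro F hF hF0 _
    have h1 := totalDegree_eq_zero_iff_eq_C.1 (Nat.le_zero.1 hF)
    refine ⟨∅, by simp, by simp, coeff 0 F, ?_, by simpa using h1⟩
    intro h
    rw [h, C_0] at h1
    exact hF0 h1
  | succ n ih =>
    intro F hF hF0 hsq
    by_cases hu : IsUnit F
    · obtain ⟨c, hc, h⟩ := eq_C_of_isUnit hu
      exact ⟨∅, by simp, by simp, c, hc, by simpa using h⟩
    obtain ⟨Γ, hΓ, G, rfl⟩ := WfDvdMonoid.exists_irreducible_factor hu hF0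
    have hG0 : G ≠ 0 := right_ne_zero_of_mul hF0
    have hΓd : Γ.totalDegree ≠ 0 := by
      intro h
      apply hΓ.not_isUnit
      rw [isUnit_iff_totalDegree_of_isReduced]
      refine ⟨?_, h⟩
      rw [isUnit_iff_ne_zero]
      intro h2
      apply hΓ.ne_zero
      rw [totalDegree_eq_zero_iff_eq_C.1 h, h2, C_0]
    have hdeg := totalDegree_mul_of_isDomain hΓ.ne_zero hG0
    obtain ⟨T, hT1, hT2, c, hc, hT3⟩ := ih G (by omega) hG0 (hsq.squarefree_of_dvd
      (Dvd.intro_left Γ rfl))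
    have hna : ∀ Γ' ∈ T, ¬ Associated Γ Γ' := by
      intro Γ' hΓ' hass
      have h1 : Γ' ∣ ∏ x ∈ T, x := Finset.dvd_prod_of_mem (fun x => x) hΓ'
      have h2 : Γ ∣ G := by
        rw [hT3]
        exact Dvd.dvd.mul_left (hass.dvd.trans h1) _
      exact hΓ.not_isUnit (hsq Γ (mul_dvd_mul_left Γ h2))
    refine ⟨insert Γ T, ?_, ?_, c, hc, ?_⟩
    · intro Γ' hΓ'
      rw [Finset.mem_insert] at hΓ'
      rcases hΓ' with rfl | h
      · exact hΓ
      · exact hT1 _ h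
    · intro x hx y hy hxy
      rw [Finset.mem_insert] at hx hy
      rcases hx with rfl | hx <;> rcases hy with rfl | hy
      · exact absurd rfl hxy
      · exact hna y hy
      · exact fun h => hna x hx h.symm
      · exact hT2 x hx y hy hxy
    · rw [Finset.prod_insert, hT3]
      · ring
      · intro h
        exact hna Γ h (Associated.refl _)

namespace Pack

variable (P : Pack)

lemma prod_homog {T : Finset P3} (hT : ∀ Γ ∈ T, Γ.IsHomogeneous Γ.totalDegree) :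
    (∏ Γ ∈ T, Γ).IsHomogeneous (∑ Γ ∈ T, Γ.totalDegree) :=
  IsHomogeneous.prod T (fun Γ => Γ) (fun Γ => Γ.totalDegree) hT

lemma A2_prod (T : Finset P3) (hT : ∀ Γ ∈ T, Γ.IsHomogeneous Γ.totalDegree)
    (hT1 : ∀ Γ ∈ T, Irreducible Γ) (hT2 : ∀ Γ ∈ T, ∀ Γ' ∈ T, Γ ≠ Γ' → ¬ Associated Γ Γ') :
    ∑ Γ ∈ T, P.A2 Γ Γ.totalDegree ≤ P.A2 (∏ Γ ∈ T, Γ) (∑ Γ ∈ T, Γ.totalDegree) := by
  classical
  induction T using Finset.induction_on with
  | empty =>
    rw [Finset.sum_empty, Finset.prod_empty, Finset.sum_empty]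
    unfold A2
    have h1 : ∀ o, P.m 1 o = 0 := by
      intro o
      rw [← C_1]
      exact P.unit one_ne_zero o
    simp [h1]
  | insert Γ T hΓ ih =>
    rw [Finset.sum_insert hΓ, Finset.prod_insert hΓ, Finset.sum_insert hΓ]
    have hT' : ∀ Γ ∈ T, Γ.IsHomogeneous Γ.totalDegree := fun x hx =>
      hT x (Finset.mem_insert_of_mem hx)
    have hT1' : ∀ Γ ∈ T, Irreducible Γ := fun x hx => hT1 x (Finset.mem_insert_of_mem hx)
    have ih' := ih hT' hT1' (fun x hx y hy => hT2 x (Finset.mem_insert_of_mem hx) y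
      (Finset.mem_insert_of_mem hy))
    have hirr := hT1 Γ (Finset.mem_insert_self _ _)
    have hrel : IsRelPrime Γ (∏ Γ ∈ T, Γ) := by
      rw [hirr.isRelPrime_iff_not_dvd]
      intro hdvd
      obtain ⟨Γ', hΓ', h⟩ := (Prime.dvd_finsetProd_iff hirr.prime _).1 hdvd
      refine hT2 Γ (Finset.mem_insert_self _ _) Γ' (Finset.mem_insert_of_mem hΓ') ?_
        ((hirr.dvd_irreducible_iff_associated (hT1' Γ' hΓ')).1 h)
      rintro rfl
      exact hΓ hΓ'
    have hprod0 : (∏ Γ ∈ T, Γ) ≠ 0 := Finset.prod_ne_zero_iff.2 fun x hx => (hT1' x hx).ne_zero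
    have h2 := P.A2_mul_le (hT Γ (Finset.mem_insert_self _ _)) (prod_homog hT') hirr.ne_zero
      hprod0 hrel
    linarith

/-- **The numerical argument.**  If at most `K` curves are `(-2)`-curves, then the expected
dimension of a reduced curve is bounded below. -/
theorem bound (K : ℕ) (hK : P.m P.D none = 1 → ∀ S : Finset P3,
      (∀ Γ ∈ S, P.Neg2 Γ Γ.totalDegree) → (∀ Γ ∈ S, ∀ Γ' ∈ S, Γ ≠ Γ' → ¬ Associated Γ Γ') →
      S.card ≤ K) {F : P3} {d : ℕ} (hF : F.IsHomogeneous d) (hF0 : F ≠ 0) (hsq : Squarefree F) :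
    -4 ≤ P.A2 F d ∧ P.m P.D none = 2 ∨ -2 * (K : ℤ) ≤ P.A2 F d ∧ P.m P.D none = 1 := by
  classical
  obtain ⟨T, hT1, hT2, c, hc, hFT⟩ := exists_factors F.totalDegree F le_rfl hF0 hsq
  have hC0 : (C c : P3) ≠ 0 := by
    rw [Ne, C_eq_zero]; exact hc
  have hT : ∀ Γ ∈ T, Γ.IsHomogeneous Γ.totalDegree := by
    intro Γ hΓ
    refine homog_of_dvd hF hF0 ?_
    have h1 : Γ ∣ ∏ x ∈ T, x := Finset.dvd_prod_of_mem (fun x => x) hΓ
    rw [hFT]
    exact Dvd.dvd.mul_left h1 _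
  have hprod0 : (∏ Γ ∈ T, Γ) ≠ 0 := Finset.prod_ne_zero_iff.2 fun x hx => (hT1 x hx).ne_zero
  have hA : P.A2 F d = P.A2 (∏ Γ ∈ T, Γ) (∑ Γ ∈ T, Γ.totalDegree) := by
    have h1 : P.m F = P.m (∏ Γ ∈ T, Γ) := by
      funext o
      rw [hFT, P.mul (isHomogeneous_C _ _) (prod_homog hT) hC0 hprod0, P.unit hc, zero_add]
    have h2 : d = ∑ Γ ∈ T, Γ.totalDegree := by
      have h3 := (isHomogeneous_C (Fin 3) c).mul (prod_homog hT)
      rw [← hFT, zero_add] at h3
      exact hF.inj_right h3 hF0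
    unfold A2
    rw [h1, h2]
  have hB := P.A2_prod T hT hT1 hT2
  rw [← hA] at hB
  have hm1 := P.m1
  have hm2 := P.mD_le
  rcases (show P.m P.D none = 1 ∨ P.m P.D none = 2 by omega) with he | he
  · right
    refine ⟨?_, he⟩
    set S := T.filter (fun Γ => P.Neg2 Γ Γ.totalDegree) with hS
    have hScard : S.card ≤ K := by
      apply hK he S
      · intro Γ hΓ
        exact (Finset.mem_filter.1 hΓ).2
      · intro x hx y hy
        exact hT2 x (Finset.mem_filter.1 hx).1 y (Finset.mem_filter.1 hy).1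
    have hterm : ∀ Γ ∈ T, (if P.Neg2 Γ Γ.totalDegree then (-2 : ℤ) else 0) ≤
        P.A2 Γ Γ.totalDegree := by
      intro Γ hΓ
      by_cases hD : Associated P.D Γ
      · rw [P.A2_D (hT Γ hΓ) hD, he]
        split_ifs <;> norm_num
      · rcases P.A2_irr (hT Γ hΓ) (hT1 Γ hΓ) hD with h | ⟨h, h', -⟩
        · split_ifs <;> linarith
        · rw [if_pos h', h]
    have h5 := Finset.sum_le_sum hterm
    rw [← Finset.sum_filter, Finset.sum_const, ← hS, nsmul_eq_mul] at h5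
    have h6 : (S.card : ℤ) ≤ K := by exact_mod_cast hScard
    linarith
  · left
    refine ⟨?_, he⟩
    have hterm : ∀ Γ ∈ T, (if Associated P.D Γ then (-4 : ℤ) else 0) ≤ P.A2 Γ Γ.totalDegree := by
      intro Γ hΓ
      by_cases hD : Associated P.D Γ
      · rw [P.A2_D (hT Γ hΓ) hD, he, if_pos hD]
        norm_num
      · rcases P.A2_irr (hT Γ hΓ) (hT1 Γ hΓ) hD with h | ⟨h, h', h''⟩
        · rw [if_neg hD]; exact h
        · omega
    have h5 := Finset.sum_le_sum hterm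
    rw [← Finset.sum_filter, Finset.sum_const, nsmul_eq_mul] at h5
    have h6 : (T.filter (fun Γ => Associated P.D Γ)).card ≤ 1 := by
      rw [Finset.card_le_one]
      intro x hx y hy
      by_contra hxy
      rw [Finset.mem_filter] at hx hy
      exact hT2 x hx.1 y hy.1 hxy (hx.2.symm.trans hy.2)
    have h7 : ((T.filter (fun Γ => Associated P.D Γ)).card : ℤ) ≤ 1 := by exact_mod_cast h6
    linarith

end Pack

end Pool.Agent.Helper52.NP
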