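import Mathlib

set_option autoImplicit false

/-!
# Total degree bounds for polynomials in two variables modulo a monic cubic
-/

namespace Pool.Agent.Helper52.NP

open Polynomial

/-- polynomials in `X` -/
abbrev A1 := Polynomial ℂ
/-- polynomials in `X` and `Y` -/
abbrev B1 := Polynomial (Polynomial ℂ)

/-- the total degree is at most `n` -/
def TD (n : ℕ) (h : B1) : Prop := ∀ i e, n < i + e → (h.coeff i).coeff e = 0

lemma TD.add {n : ℕ} {f g : B1} (hf : TD n f) (hg : TD n g) : TD n (f + g) := by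
  intro i e h
  rw [coeff_add, coeff_add, hf i e h, hg i e h, add_zero]

lemma TD.neg {n : ℕ} {f : B1} (hf : TD n f) : TD n (-f) := by
  intro i e h
  rw [coeff_neg, coeff_neg, hf i e h, neg_zero]

lemma TD.sub {n : ℕ} {f g : B1} (hf : TD n f) (hg : TD n g) : TD n (f - g) := by
  rw [sub_eq_add_neg]; exact hf.add hg.neg

lemma TD.mul {n m : ℕ} {f g : B1} (hf : TD n f) (hg : TD m g) : TD (n + m) (f * g) := by
  intro i e h
  rw [coeff_mul, finsetSum_coeff]
  apply Finset.sum_eq_zero
  rintro ⟨i1, i2⟩ hi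
  rw [Finset.HasAntidiagonal.mem_antidiagonal] at hi
  simp only at hi ⊢
  rw [coeff_mul]
  apply Finset.sum_eq_zero
  rintro ⟨e1, e2⟩ he
  rw [Finset.HasAntidiagonal.mem_antidiagonal] at he
  simp only at he ⊢
  by_cases h1 : n < i1 + e1
  · rw [hf i1 e1 h1, zero_mul]
  · rw [hg i2 e2 (by omega), mul_zero]

lemma TD.mono {n m : ℕ} {f : B1} (hf : TD n f) (h : n ≤ m) : TD m f := by
  intro i e hie
  exact hf i e (by omega)

/-- Reduction modulo a monic polynomial of total degree equal to its degree preserves bounds on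
the total degree. -/
lemma TD.mod {D : B1} {r : ℕ} (hDm : D.Monic) (hDr : D.natDegree = r) (hD : TD r D) (n : ℕ) :
    ∀ (m : ℕ) (h : B1), h.natDegree ≤ m → TD n h → TD n (h %ₘ D) := by
  intro m
  induction m with
  | zero =>
    intro h hm hh
    by_cases hdeg : h.degree < D.degree
    · rwa [(modByMonic_eq_self_iff hDm).2 hdeg]
    · -- then `D` has degree `0`, so `D = 1`
      have h1 : D.natDegree = 0 := by
        rw [not_lt] at hdeg
        have := natDegree_le_natDegree hdeg
        omega
      have h2 : D = 1 := by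
        exact (Monic.natDegree_eq_zero hDm).1 h1
      rw [h2, modByMonic_one]
      intro i e _
      simp
  | succ m ih =>
    intro h hm hh
    by_cases hdeg : h.degree < D.degree
    · rwa [(modByMonic_eq_self_iff hDm).2 hdeg]
    by_cases h0 : h = 0
    · rw [h0, zero_modByMonic]
      intro i e _
      simp
    by_cases hD1 : D.natDegree = 0
    · have h2 : D = 1 := by
        exact (Monic.natDegree_eq_zero hDm).1 hD1
      rw [h2, modByMonic_one]
      intro i e _
      simp
    rw [not_lt] at hdeg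
    have hnd : D.natDegree ≤ h.natDegree := natDegree_le_natDegree hdeg
    have hlt := div_wf_lemma ⟨hdeg, h0⟩ hDm
    set h' := h - D * (C h.leadingCoeff * X ^ (h.natDegree - D.natDegree)) with hh'
    have e1 : h %ₘ D = h' %ₘ D := by
      rw [hh', sub_modByMonic, self_mul_modByMonic hDm, sub_zero]
    rw [e1]
    apply ih
    · by_cases h0' : h' = 0
      · rw [h0']; simp
      · have := natDegree_lt_natDegree h0' hlt
        omega
    · apply hh.sub
      -- the total degree of the leading term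
      have hlc : ∀ e, n < h.natDegree + e → h.leadingCoeff.coeff e = 0 := fun e he => hh _ e he
      obtain ⟨e0, he0⟩ : ∃ e0, h.leadingCoeff.coeff e0 ≠ 0 := by
        by_contra hcon
        push Not at hcon
        apply h0
        rw [← leadingCoeff_eq_zero]
        ext e
        rw [hcon e, coeff_zero]
      have hle : h.natDegree + e0 ≤ n := by
        by_contra hcon
        exact he0 (hlc e0 (by omega))
      have hn : r + (n - r) = n := by omega
      rw [← hn]
      apply hD.mul
      intro i e hie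
      rw [coeff_C_mul, coeff_X_pow]
      by_cases hi : i = h.natDegree - D.natDegree
      · rw [if_pos hi, mul_one]
        apply hlc
        omega
      · rw [if_neg hi, mul_zero, coeff_zero]

lemma TD.mod' {D : B1} {r : ℕ} (hDm : D.Monic) (hDr : D.natDegree = r) (hD : TD r D) {n : ℕ}
    {h : B1} (hh : TD n h) : TD n (h %ₘ D) :=
  TD.mod hDm hDr hD n h.natDegree h le_rfl hh

/-! ### the norm and the cofactor -/

section
variable (D : B1)

/-- the matrix of the multiplication by `f` modulo `D` -/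
noncomputable def mm (f : B1) : Matrix (Fin 3) (Fin 3) A1 :=
  Matrix.of fun i j => ((f * X ^ j.val) %ₘ D).coeff i.val

/-- the norm of `f` -/
noncomputable def nm (f : B1) : A1 := (mm D f).det

/-- the cofactor of `f` -/
noncomputable def cf (f : B1) : B1 := ∑ j : Fin 3, C ((mm D f).adjugate j 0) * X ^ j.val

/-- the linear functional: coefficient of `Y ^ 2` modulo `D` -/
noncomputable def tau (f : B1) : A1 := (f %ₘ D).coeff 2

end

variable {D : B1}

lemma tau_add (f g : B1) : tau D (f + g) = tau D f + tau D g := by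
  unfold tau
  rw [add_modByMonic, coeff_add]

lemma tau_C_mul (c : A1) (f : B1) : tau D (C c * f) = c * tau D f := by
  unfold tau
  rw [← smul_eq_C_mul, smul_modByMonic, coeff_smul, smul_eq_mul]

lemma tau_mul_D (hDm : D.Monic) (f : B1) : tau D (D * f) = 0 := by
  unfold tau
  rw [self_mul_modByMonic hDm, coeff_zero]

/-- expansion modulo `D` -/
lemma mod_expand (hDm : D.Monic) (hD3 : D.natDegree = 3) (h : B1) :
    h %ₘ D = ∑ i : Fin 3, C ((h %ₘ D).coeff i.val) * X ^ i.val := by
  have hlt : (h %ₘ D).natDegree < 3 := by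
    rw [← hD3]
    apply natDegree_modByMonic_lt _ hDm
    intro h1
    rw [h1] at hD3
    simp at hD3
  conv_lhs => rw [as_sum_range_C_mul_X_pow' (h %ₘ D) hlt]
  rw [Finset.sum_range]

lemma mul_cf (hDm : D.Monic) (hD3 : D.natDegree = 3) (f : B1) :
    D ∣ f * cf D f - C (nm D f) := by
  rw [← modByMonic_eq_zero_iff_dvd hDm, sub_modByMonic, sub_eq_zero]
  have h1 : f * cf D f = ∑ j : Fin 3, C ((mm D f).adjugate j 0) * (f * X ^ j.val) := by
    unfold cf
    rw [Finset.mul_sum]
    exact Finset.sum_congr rfl fun j _ => by ring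
  have h2 : ∀ s : Finset (Fin 3), ∀ g : Fin 3 → B1,
      (∑ j ∈ s, C ((mm D f).adjugate j 0) * g j) %ₘ D =
      ∑ j ∈ s, C ((mm D f).adjugate j 0) * (g j %ₘ D) := by
    intro s g
    have := map_sum (modByMonicHom D) (fun j => C ((mm D f).adjugate j 0) * g j) s
    simp only [modByMonicHom_apply] at this
    rw [this]
    refine Finset.sum_congr rfl fun j _ => ?_
    rw [← smul_eq_C_mul, smul_modByMonic, smul_eq_C_mul]
  rw [h1, h2]
  have h3 : ∀ j : Fin 3, (f * X ^ j.val) %ₘ D = ∑ i : Fin 3, C (mm D f i j) * X ^ i.val := by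
    intro j
    rw [mod_expand hDm hD3]
    rfl
  rw [Finset.sum_congr rfl fun j _ => by rw [h3 j]]
  have h4 : ∑ j : Fin 3, C ((mm D f).adjugate j 0) * ∑ i : Fin 3, C (mm D f i j) * X ^ i.val =
      ∑ i : Fin 3, C (((mm D f) * (mm D f).adjugate) i 0) * X ^ i.val := by
    simp only [Finset.mul_sum]
    rw [Finset.sum_comm]
    refine Finset.sum_congr rfl fun i _ => ?_
    rw [Matrix.mul_apply, map_sum, Finset.sum_mul]
    refine Finset.sum_congr rfl fun j _ => ?_
    rw [C_mul]
    ring
  rw [h4, Matrix.mul_adjugate, Fin.sum_univ_three]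
  simp only [Matrix.smul_apply, Matrix.one_apply]
  have h5 : (C (nm D f) : B1) %ₘ D = C (nm D f) := by
    rw [modByMonic_eq_self_iff hDm]
    refine lt_of_le_of_lt degree_C_le ?_
    rw [degree_eq_natDegree hDm.ne_zero, hD3]
    exact_mod_cast Nat.succ_pos 2
  rw [h5]
  simp [nm]

/-- degree bounds -/
lemma coeff_mm (hDm : D.Monic) (hD3 : D.natDegree = 3) (hDt : TD 3 D) {f : B1} {n : ℕ}
    (hf : TD n f) (i j : Fin 3) (e : ℕ) (h : n + j.val < i.val + e) : (mm D f i j).coeff e = 0 := by
  have h1 : TD j.val (X ^ j.val : B1) := by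
    intro a b hab
    rw [coeff_X_pow]
    split_ifs with hh
    · rw [coeff_one, if_neg]
      omega
    · rw [coeff_zero]
  exact TD.mod' hDm hD3 hDt (hf.mul h1) i.val e h

/-- a bound on the degree, in terms of integers -/
def DB (m : ℤ) (p : A1) : Prop := ∀ e : ℕ, m < e → p.coeff e = 0

lemma DB.mul {a b : ℤ} {p q : A1} (hp : DB a p) (hq : DB b q) : DB (a + b) (p * q) := by
  intro e he
  rw [coeff_mul]
  apply Finset.sum_eq_zero
  rintro ⟨e1, e2⟩ hee
  rw [Finset.HasAntidiagonal.mem_antidiagonal] at hee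
  simp only at hee ⊢
  by_cases h1 : a < e1
  · rw [hp e1 h1, zero_mul]
  · rw [hq e2 (by push_cast [← hee] at he; linarith), mul_zero]

lemma DB.add {a : ℤ} {p q : A1} (hp : DB a p) (hq : DB a q) : DB a (p + q) := by
  intro e he
  rw [coeff_add, hp e he, hq e he, add_zero]

lemma DB.sub {a : ℤ} {p q : A1} (hp : DB a p) (hq : DB a q) : DB a (p - q) := by
  intro e he
  rw [coeff_sub, hp e he, hq e he, sub_zero]

lemma db_mm (hDm : D.Monic) (hD3 : D.natDegree = 3) (hDt : TD 3 D) {f : B1} {n : ℕ}
    (hf : TD n f) (i j : Fin 3) : DB ((n : ℤ) + j.val - i.val) (mm D f i j) := by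
  intro e he
  exact coeff_mm hDm hD3 hDt hf i j e (by omega)

lemma DB.cast {a b : ℤ} {p : A1} (hp : DB a p) (h : a = b) : DB b p := h ▸ hp

lemma nm_deg (hDm : D.Monic) (hD3 : D.natDegree = 3) (hDt : TD 3 D) {f : B1} {n : ℕ}
    (hf : TD n f) : DB (3 * n) (nm D f) := by
  have h := db_mm hDm hD3 hDt hf
  unfold nm
  rw [Matrix.det_fin_three]
  have key : ∀ a b c : Fin 3, a.val + b.val + c.val = 3 →
      DB (3 * n) (mm D f 0 a * mm D f 1 b * mm D f 2 c) := by
    intro a b c habc
    refine (((h 0 a).mul (h 1 b)).mul (h 2 c)).cast ?_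
    have e0 : ((0 : Fin 3).val : ℤ) = 0 := rfl
    have e1 : ((1 : Fin 3).val : ℤ) = 1 := rfl
    have e2 : ((2 : Fin 3).val : ℤ) = 2 := rfl
    rw [e0, e1, e2]
    have : (a.val : ℤ) + b.val + c.val = 3 := by exact_mod_cast habc
    linarith
  exact (((((key 0 1 2 rfl).sub (key 0 2 1 rfl)).sub (key 1 0 2 rfl)).add (key 1 2 0 rfl)).add
    (key 2 0 1 rfl)).sub (key 2 1 0 rfl)

lemma cf_TD (hDm : D.Monic) (hD3 : D.natDegree = 3) (hDt : TD 3 D) {f : B1} {n : ℕ}
    (hf : TD n f) : TD (2 * n) (cf D f) := by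
  have h := db_mm hDm hD3 hDt hf
  have key : ∀ a b : Fin 3, DB (2 * n + (a.val + b.val) - 3) (mm D f 1 a * mm D f 2 b) := by
    intro a b
    refine ((h 1 a).mul (h 2 b)).cast ?_
    have e1 : ((1 : Fin 3).val : ℤ) = 1 := rfl
    have e2 : ((2 : Fin 3).val : ℤ) = 2 := rfl
    rw [e1, e2]
    ring
  have hadj : ∀ j : Fin 3, DB (2 * n - j.val) ((mm D f).adjugate j 0) := by
    intro j
    rw [Matrix.adjugate_fin_three]
    fin_cases j
    · exact ((key 1 2).sub (key 2 1)).cast (by norm_num)
    · simp only [Matrix.of_apply, Matrix.cons_val', Matrix.cons_val_zero, Fin.mk_one,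
        Matrix.cons_val_one, Matrix.cons_val_fin_one]
      have := ((key 2 0).sub (key 0 2)).cast (b := 2 * n - 1) (by norm_num; ring)
      refine DB.cast (p := -(mm D f 1 0 * mm D f 2 2) + mm D f 1 2 * mm D f 2 0) ?_ rfl
      have e : -(mm D f 1 0 * mm D f 2 2) + mm D f 1 2 * mm D f 2 0 =
        mm D f 1 2 * mm D f 2 0 - mm D f 1 0 * mm D f 2 2 := by ring
      rw [e]
      exact this
    · exact ((key 0 1).sub (key 1 0)).cast (by norm_num; ring)
  intro i e hie
  unfold cf
  rw [Fin.sum_univ_three]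
  simp only [coeff_add, coeff_C_mul, coeff_X_pow]
  have aux : ∀ j : Fin 3, ((mm D f).adjugate j 0 * if i = j.val then 1 else 0).coeff e = 0 := by
    intro j
    split_ifs with hij
    · rw [mul_one]
      apply hadj
      omega
    · rw [mul_zero, coeff_zero]
  rw [aux 0, aux 1, aux 2]
  simp

lemma tau_deg (hDm : D.Monic) (hD3 : D.natDegree = 3) (hDt : TD 3 D) {f : B1} {n : ℕ}
    (hf : TD n f) : DB ((n : ℤ) - 2) (tau D f) := by
  intro e he
  exact TD.mod' hDm hD3 hDt hf 2 e (by omega)

end Pool.Agent.Helper52.NP
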