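import Mathlib
import Pool.Agent.Helper52.NP.TD

set_option autoImplicit false

/-!
# Contact orders, and the local computation of a residue
-/

namespace Pool.Agent.Helper52.NP

open Polynomial

noncomputable def xa (a : ℂ) : B1 := C (X - C a)
noncomputable def yb (b : ℂ) : B1 := X - C (C b)

lemma decomp (a b : ℂ) (w : B1) :
    ∃ g h : B1, w = C (C (evalEval a b w)) + xa a * g + yb b * h := by
  obtain ⟨h, hh⟩ := X_sub_C_dvd_sub_C_eval (p := w) (a := C b)
  obtain ⟨g, hg⟩ := X_sub_C_dvd_sub_C_eval (p := w.eval (C b)) (a := a)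
  refine ⟨C g, h, ?_⟩
  have h1 : (C (w.eval (C b)) : B1) = C (C (evalEval a b w)) + xa a * C g := by
    unfold xa
    rw [← C_mul, ← hg, C_sub]
    ring
  unfold yb
  rw [← h1, ← hh]
  ring

lemma xa_dvd {a : ℂ} {w : B1} (h : w.map (evalRingHom a) = 0) : xa a ∣ w := by
  unfold xa
  rw [C_dvd_iff_dvd_coeff]
  intro i
  rw [dvd_iff_isRoot]
  have := congrArg (fun p => coeff p i) h
  simpa using this

lemma eval_xa (a b : ℂ) : evalEval a b (xa a) = 0 := by
  rw [xa, evalEval_C]
  simp

lemma eval_yb (a b : ℂ) : evalEval a b (yb b) = 0 := by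
  simp [yb]

/-- The contact order of `f` with `D` at `(a, b)` is at least `k`. -/
def Ct (D : B1) (a b : ℂ) (k : ℕ) (f : B1) : Prop :=
  ∃ w g h : B1, evalEval a b w ≠ 0 ∧ w * f = xa a ^ k * g + D * h

section
variable {D : B1} {a b : ℂ}

lemma Ct.zero (f : B1) : Ct D a b 0 f := ⟨1, f, 0, by simp, by simp⟩

lemma Ct.mul {k l : ℕ} {f g : B1} (hf : Ct D a b k f) (hg : Ct D a b l g) :
    Ct D a b (k + l) (f * g) := by
  obtain ⟨w, u, v, h0, h1⟩ := hf
  obtain ⟨w', u', v', h0', h1'⟩ := hg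
  refine ⟨w * w', u * u', xa a ^ k * u * v' + v * (w' * g), ?_, ?_⟩
  · rw [evalEval_mul]; exact mul_ne_zero h0 h0'
  · calc w * w' * (f * g) = (w * f) * (w' * g) := by ring
      _ = (xa a ^ k * u) * (w' * g) + D * v * (w' * g) := by rw [h1]; ring
      _ = (xa a ^ k * u) * (xa a ^ l * u' + D * v') + D * v * (w' * g) := by rw [h1']
      _ = _ := by rw [pow_add]; ring

lemma Ct.add {k : ℕ} {f g : B1} (hf : Ct D a b k f) (hg : Ct D a b k g) :
    Ct D a b k (f + g) := by
  obtain ⟨w, u, v, h0, h1⟩ := hf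
  obtain ⟨w', u', v', h0', h1'⟩ := hg
  refine ⟨w * w', w' * u + w * u', w' * v + w * v', ?_, ?_⟩
  · rw [evalEval_mul]; exact mul_ne_zero h0 h0'
  · linear_combination w' * h1 + w * h1'

lemma Ct.mul_left {k : ℕ} {f : B1} (hf : Ct D a b k f) (g : B1) : Ct D a b k (g * f) := by
  obtain ⟨w, u, v, h0, h1⟩ := hf
  exact ⟨w, g * u, g * v, h0, by linear_combination g * h1⟩

lemma Ct.mul_right {k : ℕ} {f : B1} (hf : Ct D a b k f) (g : B1) : Ct D a b k (f * g) := by
  rw [mul_comm]; exact hf.mul_left g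

lemma Ct.neg {k : ℕ} {f : B1} (hf : Ct D a b k f) : Ct D a b k (-f) := by
  obtain ⟨w, u, v, h0, h1⟩ := hf
  exact ⟨w, -u, -v, h0, by linear_combination -h1⟩

lemma Ct.sub {k : ℕ} {f g : B1} (hf : Ct D a b k f) (hg : Ct D a b k g) :
    Ct D a b k (f - g) := by
  rw [sub_eq_add_neg]; exact hf.add hg.neg

lemma Ct.mono {k l : ℕ} {f : B1} (hf : Ct D a b k f) (h : l ≤ k) : Ct D a b l f := by
  obtain ⟨w, u, v, h0, h1⟩ := hf
  obtain ⟨m, rfl⟩ := Nat.exists_eq_add_of_le h
  exact ⟨w, xa a ^ m * u, v, h0, by rw [h1, pow_add]; ring⟩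

lemma Ct.cancel {k : ℕ} {f w0 : B1} (h0 : evalEval a b w0 ≠ 0) (h : Ct D a b k (w0 * f)) :
    Ct D a b k f := by
  obtain ⟨w, u, v, h1, h2⟩ := h
  exact ⟨w * w0, u, v, by rw [evalEval_mul]; exact mul_ne_zero h1 h0, by rw [← h2]; ring⟩

lemma ct_D (k : ℕ) (h : B1) : Ct D a b k (D * h) := ⟨1, 0, h, by simp, by simp⟩

lemma ct_xa (k : ℕ) (g : B1) : Ct D a b k (xa a ^ k * g) := ⟨1, g, 0, by simp, by simp⟩

lemma Ct.pow {k : ℕ} {f : B1} (hf : Ct D a b k f) (n : ℕ) : Ct D a b (n * k) (f ^ n) := by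
  induction n with
  | zero => rw [zero_mul]; exact Ct.zero _
  | succ n ih =>
    rw [pow_succ, Nat.succ_mul]
    exact ih.mul hf

lemma Ct.sum {ι : Type*} {k : ℕ} (s : Finset ι) (f : ι → B1) (hf : ∀ i ∈ s, Ct D a b k (f i)) :
    Ct D a b k (∑ i ∈ s, f i) := by
  classical
  induction s using Finset.induction_on with
  | empty =>
    rw [Finset.sum_empty]
    have := ct_D (D := D) (a := a) (b := b) k 0
    rwa [mul_zero] at this
  | insert i s hi ih =>
    rw [Finset.sum_insert hi]
    exact (hf i (Finset.mem_insert_self i s)).add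
      (ih fun j hj => hf j (Finset.mem_insert_of_mem hj))

end

/-! ### the polynomial `D (a, Y)` -/

/-- The decomposition `D = (Y - b) Q + (X - a) E`. -/
lemma exists_Q {D : B1} (hDm : D.Monic) (hD3 : D.natDegree = 3) {a b : ℂ}
    (hab : evalEval a b D = 0) :
    ∃ (q : A1) (E : B1), D = yb b * q.map C + xa a * E ∧
      q.eval b = evalEval a b (derivative D) ∧ q.Monic ∧ q.natDegree = 2 ∧
      D.map (evalRingHom a) = (X - C b) * q := by
  set Da := D.map (evalRingHom a) with hDa
  have h1 : Da.eval b = 0 := by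
    rw [hDa, map_evalRingHom_eval]; exact hab
  obtain ⟨q, hq⟩ := dvd_iff_isRoot.2 h1
  have hDam : Da.Monic := hDm.map _
  have hDa3 : Da.natDegree = 3 := by rw [hDa, hDm.natDegree_map, hD3]
  have hqm : q.Monic := by
    apply Monic.of_mul_monic_left (monic_X_sub_C b)
    rw [← hq]; exact hDam
  have hq2 : q.natDegree = 2 := by
    have h2 := (monic_X_sub_C b).natDegree_mul hqm
    rw [← hq, natDegree_X_sub_C, hDa3] at h2
    omega
  have hmap : (q.map C : B1).map (evalRingHom a) = q := by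
    rw [Polynomial.map_map]
    have : (evalRingHom a).comp (C : ℂ →+* A1) = RingHom.id ℂ := by
      ext r; simp
    rw [this, Polynomial.map_id]
  obtain ⟨E, hE⟩ : xa a ∣ D - yb b * q.map C := by
    apply xa_dvd
    rw [Polynomial.map_sub, Polynomial.map_mul, hmap, ← hDa, hq]
    simp [yb]
  refine ⟨q, E, ?_, ?_, hqm, hq2, hq⟩
  · rw [← hE]; ring
  · rw [← map_evalRingHom_eval, ← derivative_map, ← hDa, hq]
    simp

lemma ct_of_eval {D : B1} (hDm : D.Monic) (hD3 : D.natDegree = 3) {a b : ℂ}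
    (hab : evalEval a b D = 0) (hY : evalEval a b (derivative D) ≠ 0) {f : B1}
    (hf : evalEval a b f = 0) : Ct D a b 1 f := by
  obtain ⟨q, E, h1, h2, -, -, -⟩ := exists_Q hDm hD3 hab
  obtain ⟨g, h, hgh⟩ := decomp a b f
  rw [hf, C_0, C_0, zero_add] at hgh
  rw [hgh]
  apply Ct.add
  · have := ct_xa (D := D) (a := a) (b := b) 1 g
    rwa [pow_one] at this
  · apply Ct.mul_right
    apply Ct.cancel (w0 := q.map C)
    · rw [evalEval_map_C, h2]; exact hY
    · refine ⟨1, -E, 1, by simp, ?_⟩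
      rw [h1]; ring

/-! ### derivations -/

/-- the derivation of the coefficients -/
noncomputable def dA (δ : Derivation ℤ ℂ ℂ) : Derivation ℤ A1 A1 :=
  letI : Differential ℂ := ⟨δ⟩
  Differential.mapCoeffs

/-- the derivation of the coefficients -/
noncomputable def dB (δ : Derivation ℤ ℂ ℂ) : Derivation ℤ B1 B1 :=
  letI : Differential A1 := ⟨dA δ⟩
  Differential.mapCoeffs

lemma coeff_dA (δ : Derivation ℤ ℂ ℂ) (p : A1) (i : ℕ) : (dA δ p).coeff i = δ (p.coeff i) := rfl

lemma coeff_dB (δ : Derivation ℤ ℂ ℂ) (p : B1) (i : ℕ) : (dB δ p).coeff i = dA δ (p.coeff i) := rfl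

lemma dA_C (δ : Derivation ℤ ℂ ℂ) (c : ℂ) : dA δ (C c) = C (δ c) := by
  ext i
  rw [coeff_dA, coeff_C, coeff_C]
  split_ifs
  · rfl
  · exact map_zero _

lemma dA_X (δ : Derivation ℤ ℂ ℂ) : dA δ X = 0 := by
  ext i
  rw [coeff_dA, coeff_X]
  split_ifs
  · simp
  · simp

lemma dB_C (δ : Derivation ℤ ℂ ℂ) (c : A1) : dB δ (C c) = C (dA δ c) := by
  ext i
  rw [coeff_dB, coeff_C, coeff_C]
  split_ifs
  · rfl
  · rw [map_zero]

lemma dB_xa (δ : Derivation ℤ ℂ ℂ) (a : ℂ) : dB δ (xa a) = - C (C (δ a)) := by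
  unfold xa
  rw [dB_C, map_sub, dA_X, dA_C, zero_sub, C_neg]

/-- A power of `X - b` in the ideal of two polynomials with no common root besides `b`. -/
lemma pow_of_roots (fa Da : A1) (hDa0 : Da ≠ 0) (b : ℂ)
    (h : ∀ r, Da.eval r = 0 → fa.eval r = 0 → r = b) :
    ∃ (m : ℕ) (u v : A1), (X - C b) ^ m = u * fa + v * Da := by
  obtain ⟨g, hg⟩ : ∃ g, g = EuclideanDomain.gcd fa Da := ⟨_, rfl⟩
  have hg0 : g ≠ 0 := by
    intro h
    rw [hg, EuclideanDomain.gcd_eq_zero_iff] at h
    exact hDa0 h.2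
  have hroots : ∀ r ∈ g.roots, r = b := by
    intro r hr
    have hr' := (mem_roots hg0).1 hr
    rw [hg] at hr'
    exact h r (hr'.dvd (EuclideanDomain.gcd_dvd_right fa Da))
      (hr'.dvd (EuclideanDomain.gcd_dvd_left fa Da))
  have hrep : g.roots = Multiset.replicate (Multiset.card g.roots) b :=
    Multiset.eq_replicate_card.2 hroots
  have hsplit := (IsAlgClosed.splits g).eq_prod_roots
  rw [hrep, Multiset.map_replicate, Multiset.prod_replicate] at hsplit
  obtain ⟨m, hm⟩ : ∃ m, m = Multiset.card g.roots := ⟨_, rfl⟩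
  rw [← hm] at hsplit
  have hlc : g.leadingCoeff ≠ 0 := leadingCoeff_ne_zero.2 hg0
  obtain ⟨c, hc⟩ : ∃ c, c = g.leadingCoeff := ⟨_, rfl⟩
  rw [← hc] at hsplit hlc
  have hbez := EuclideanDomain.gcd_eq_gcd_ab fa Da
  rw [← hg] at hbez
  refine ⟨m, C c⁻¹ * EuclideanDomain.gcdA fa Da, C c⁻¹ * EuclideanDomain.gcdB fa Da, ?_⟩
  have h3 : (X - C b) ^ m = C c⁻¹ * g := by
    rw [hsplit, ← mul_assoc, ← C_mul, inv_mul_cancel₀ hlc, C_1, one_mul]
  rw [h3, hbez]
  ring

/-- The local computation. -/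
theorem local_main {D f : B1} (hDm : D.Monic) (hD3 : D.natDegree = 3) (δ : Derivation ℤ ℂ ℂ)
    (hδ : dB δ D = 0) {a b : ℂ} {k : ℕ} (hab : evalEval a b D = 0)
    (hY : evalEval a b (derivative D) ≠ 0) (hk : Ct D a b k f)
    (hcom : ∀ y, evalEval a y D = 0 → evalEval a y f = 0 → y = b)
    {F : B1} {N : A1} (hN : D ∣ f * F - C N) (hNk : (X - C a) ^ k ∣ N) :
    (X - C a) ^ (k + 1) ∣ (X - C a) * tau D (dB δ f * F) +
      C (k * δ a / evalEval a b (derivative D)) * N := by
  obtain ⟨q, E, hQ, hqb, hqm, hq2, hDq⟩ := exists_Q hDm hD3 hab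
  rw [← hqb] at hY ⊢
  set Q : B1 := q.map C with hQd
  set c0 : ℂ := (q.eval b)⁻¹ with hc0
  set e : B1 := C (C c0) * Q with he
  set κ : ℂ := k * δ a with hκ
  set β : B1 := xa a * (dB δ f * F) + C (C κ * N) * e with hβ
  obtain ⟨N', hN'⟩ := hNk
  obtain ⟨H, hH⟩ := hN
  have hxaC : ∀ m : ℕ, (C ((X - C a) ^ m) : B1) = xa a ^ m := by
    intro m; unfold xa; rw [C_pow]
  have hCN : (C N : B1) = xa a ^ k * C N' := by
    rw [hN', C_mul, hxaC]
  -- the key membership
  have key : ∃ u v : B1, β = xa a ^ (k + 1) * u + D * v := by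
    let J : Ideal B1 := Ideal.span {xa a ^ (k + 1), D}
    have hJ : ∀ z : B1, z ∈ J ↔ ∃ u v : B1, z = xa a ^ (k + 1) * u + D * v := by
      intro z
      rw [Ideal.mem_span_pair]
      constructor
      · rintro ⟨u, v, h⟩; exact ⟨u, v, by rw [← h]; ring⟩
      · rintro ⟨u, v, h⟩; exact ⟨u, v, by rw [h]; ring⟩
    let I : Ideal B1 := Submodule.comap (LinearMap.toSpanSingleton B1 B1 β) J
    have hI : ∀ c : B1, c ∈ I ↔ c * β ∈ J := fun c => by
      rw [Submodule.mem_comap]
      rfl
    suffices hT : I = ⊤ by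
      have h1 : (1 : B1) ∈ I := by rw [hT]; trivial
      rw [hI, one_mul] at h1
      exact (hJ β).1 h1
    -- (i)
    obtain ⟨w, hw0, hwI⟩ : ∃ w : B1, evalEval a b w ≠ 0 ∧ w ∈ I := by
      have hCt1 : Ct D a b (k + 1) (xa a * dB δ f + C (C κ) * f) := by
        obtain ⟨w, g, h, h0, h1⟩ := hk
        refine ⟨w * w, w * dB δ g - dB δ w * g, xa a * (w * dB δ h - dB δ w * h) + C (C κ) * w * h,
          ?_, ?_⟩
        · rw [evalEval_mul]; exact mul_ne_zero h0 h0
        · have h2 := congrArg (dB δ) h1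
          rw [Derivation.leibniz, map_add, Derivation.leibniz, Derivation.leibniz,
            Derivation.leibniz_pow, hδ, dB_xa] at h2
          simp only [smul_eq_mul, mul_zero, add_zero, nsmul_eq_mul] at h2
          rcases Nat.eq_zero_or_pos k with hk0 | hk0
          · subst hk0
            simp only [Nat.cast_zero, zero_mul, mul_zero, add_zero, pow_zero, one_mul] at h1 h2
            have hκ0 : κ = 0 := by rw [hκ]; simp
            rw [hκ0, C_0, C_0, zero_mul, add_zero, zero_mul, zero_mul, add_zero, zero_add, pow_one]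
            linear_combination (xa a * w) * h2 - xa a * dB δ w * h1
          · have h3 : xa a * xa a ^ (k - 1) = xa a ^ k := by
              rw [← pow_succ']; congr 1; omega
            have hκC : (C (C κ) : B1) = (k : B1) * C (C (δ a)) := by
              rw [hκ, C_mul, C_mul]
              simp
            rw [pow_succ, hκC]
            linear_combination (xa a * w) * h2 - xa a * dB δ w * h1 +
              (k : B1) * C (C (δ a)) * w * h1 - (k : B1) * C (C (δ a)) * w * g * h3
      have hCt2 : Ct D a b (k + 1) (C N * (1 - e)) := by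
        rw [hCN]
        apply Ct.mul
        · exact ct_xa k _
        · apply ct_of_eval hDm hD3 hab (by rw [← hqb]; exact hY)
          rw [evalEval_sub, evalEval_one, he, evalEval_mul, hQd, evalEval_map_C]
          simp [hc0, hY]
      have hCt3 : Ct D a b (k + 1) β := by
        have e1 : β = F * (xa a * dB δ f + C (C κ) * f) - C (C κ) * (C N * (1 - e)) -
            D * (C (C κ) * H) := by
          rw [hβ, C_mul]
          linear_combination (-C (C κ)) * hH
        rw [e1]
        exact ((hCt1.mul_left _).sub (hCt2.mul_left _)).sub (ct_D _ _)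
      obtain ⟨w, g, h, h0, h1⟩ := hCt3
      exact ⟨w, h0, (hI w).2 ((hJ _).2 ⟨g, h, h1⟩)⟩
    -- (ii)
    obtain ⟨M, hM⟩ : ∃ M : ℕ, yb b ^ M ∈ I := by
      -- a power of `Y - b` in the ideal of `f (a, Y)` and `D (a, Y)`
      obtain ⟨m, u, v, s, hm⟩ : ∃ (m : ℕ) (u v s : B1),
          yb b ^ m = u * f + v * D + xa a * s := by
        obtain ⟨m, u0, v0, h2⟩ := pow_of_roots (f.map (evalRingHom a)) (D.map (evalRingHom a))
          (hDm.map _).ne_zero b (by
            intro r h1 h2
            rw [map_evalRingHom_eval] at h1 h2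
            exact hcom r h1 h2)
        have hmap : ∀ p : A1, (p.map C : B1).map (evalRingHom a) = p := by
          intro p
          rw [Polynomial.map_map]
          have : (evalRingHom a).comp (C : ℂ →+* A1) = RingHom.id ℂ := by
            ext r; simp
          rw [this, Polynomial.map_id]
        obtain ⟨s, hs⟩ : xa a ∣ yb b ^ m - (u0.map C * f + v0.map C * D) := by
          apply xa_dvd
          rw [Polynomial.map_sub, Polynomial.map_add, Polynomial.map_mul, Polynomial.map_mul,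
            Polynomial.map_pow, hmap, hmap, ← h2]
          simp [yb]
        exact ⟨m, u0.map C, v0.map C, s, by linear_combination hs⟩
      -- its `k`-th power
      obtain ⟨t, ht⟩ := sub_dvd_pow_sub_pow (yb b ^ m) (xa a * s) k
      refine ⟨m * k + 1, ?_⟩
      rw [hI, hJ]
      -- `yb * e`
      have hye : yb b * e = C (C c0) * (D - xa a * E) := by
        rw [he, hQ]; ring
      -- `yb ^ (m k) * F`
      have hyF : yb b ^ (m * k) * F = xa a ^ k * (s ^ k * F + u * t * C N') +
          D * (u * H * t + v * F * t) := by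
        have h1 : yb b ^ (m * k) = xa a ^ k * s ^ k + (u * f + v * D) * t := by
          have h2 : yb b ^ m - xa a * s = u * f + v * D := by rw [hm]; ring
          rw [h2, ← pow_mul, mul_pow] at ht
          linear_combination ht
        rw [h1]
        have h3 : f * F = xa a ^ k * C N' + D * H := by
          rw [← hCN]; linear_combination hH
        linear_combination (u * t) * h3
      refine ⟨yb b * dB δ f * (s ^ k * F + u * t * C N') -
        yb b ^ (m * k) * C (C κ) * C N' * C (C c0) * E,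
        xa a * yb b * dB δ f * (u * H * t + v * F * t) +
        yb b ^ (m * k) * C (C κ) * C N * C (C c0), ?_⟩
      rw [hβ, C_mul, pow_succ, pow_succ]
      linear_combination (yb b * xa a * dB δ f) * hyF + (yb b ^ (m * k) * C (C κ) * C N) * hye -
        (yb b ^ (m * k) * C (C κ) * C (C c0) * E * xa a) * hCN
    -- (iii)
    have hX : xa a ^ (k + 1) ∈ I := by
      rw [hI, hJ]; exact ⟨β, 0, by ring⟩
    have hXr : xa a ∈ I.radical := ⟨k + 1, hX⟩
    have hYr : yb b ∈ I.radical := ⟨M, hM⟩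
    have hwr : w ∈ I.radical := Ideal.le_radical hwI
    obtain ⟨g, h, hgh⟩ := decomp a b w
    have hC : (C (C (evalEval a b w)) : B1) ∈ I.radical := by
      have : (C (C (evalEval a b w)) : B1) = w - xa a * g - yb b * h := by
        linear_combination -hgh
      rw [this]
      exact Ideal.sub_mem _ (Ideal.sub_mem _ hwr (Ideal.mul_mem_right _ _ hXr))
        (Ideal.mul_mem_right _ _ hYr)
    rw [← Ideal.radical_eq_top]
    apply Ideal.eq_top_of_isUnit_mem _ hC
    exact ((isUnit_iff_ne_zero.2 hw0).map C).map C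
  -- conclusion
  obtain ⟨u, v, huv⟩ := key
  have hτe : tau D e = C c0 := by
    rw [he, tau_C_mul]
    have h1 : tau D Q = 1 := by
      unfold tau
      rw [(modByMonic_eq_self_iff hDm).2]
      · rw [hQd, coeff_map]
        have : q.coeff 2 = 1 := by
          rw [← hq2]; exact hqm
        rw [this, C_1]
      · rw [degree_eq_natDegree hDm.ne_zero, hD3]
        refine lt_of_le_of_lt (degree_map_le) ?_
        rw [degree_eq_natDegree hqm.ne_zero, hq2]
        norm_num
    rw [h1, mul_one]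
  have h1 : tau D β = (X - C a) * tau D (dB δ f * F) + C κ * N * C c0 := by
    rw [hβ, tau_add, tau_C_mul, hτe]
    congr 1
    unfold xa
    rw [tau_C_mul]
  have h2 : tau D β = (X - C a) ^ (k + 1) * tau D u := by
    rw [huv, tau_add, tau_mul_D hDm, add_zero, ← hxaC, tau_C_mul]
  refine ⟨tau D u, ?_⟩
  rw [← h2, h1, div_eq_mul_inv, C_mul]
  ring

end Pool.Agent.Helper52.NP
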