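import Mathlib
import Pool.Agent.Helper52.NP.Ct

set_option autoImplicit false

/-!
# The residue theorem on a plane cubic
-/

namespace Pool.Agent.Helper52.NP

open Polynomial

/-- the polynomial with given coordinates -/
noncomputable def vec (v : Fin 3 → A1) : B1 := ∑ j : Fin 3, C (v j) * X ^ j.val

lemma coeff_vec (v : Fin 3 → A1) (i : Fin 3) : (vec v).coeff i.val = v i := by
  unfold vec
  rw [Fin.sum_univ_three]
  simp only [coeff_add, coeff_C_mul, coeff_X_pow]
  fin_cases i <;> simp

lemma degree_vec_lt (v : Fin 3 → A1) : (vec v).degree < 3 := by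
  unfold vec
  refine lt_of_le_of_lt (degree_sum_le _ _) ?_
  rw [Finset.sup_lt_iff (by exact bot_lt_iff_ne_bot.2 (by decide))]
  intro j _
  refine lt_of_le_of_lt (degree_C_mul_X_pow_le _ _) ?_
  exact_mod_cast j.2

variable {D : B1}

lemma vec_mod (hDm : D.Monic) (hD3 : D.natDegree = 3) (v : Fin 3 → A1) :
    vec v %ₘ D = vec v := by
  rw [modByMonic_eq_self_iff hDm, degree_eq_natDegree hDm.ne_zero, hD3]
  exact degree_vec_lt v

lemma mod_eq_vec (hDm : D.Monic) (hD3 : D.natDegree = 3) (h : B1) :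
    h %ₘ D = vec (fun i => (h %ₘ D).coeff i.val) := mod_expand hDm hD3 h

/-- multiplication by `f` in coordinates -/
lemma mul_vec_mod (hDm : D.Monic) (hD3 : D.natDegree = 3) (f : B1) (v : Fin 3 → A1) :
    (f * vec v) %ₘ D = vec ((mm D f).mulVec v) := by
  have h1 : f * vec v = ∑ j : Fin 3, C (v j) * (f * X ^ j.val) := by
    unfold vec
    rw [Finset.mul_sum]
    exact Finset.sum_congr rfl fun j _ => by ring
  have h2 : (∑ j : Fin 3, C (v j) * (f * X ^ j.val)) %ₘ D =
      ∑ j : Fin 3, C (v j) * ((f * X ^ j.val) %ₘ D) := by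
    have := map_sum (modByMonicHom D) (fun j : Fin 3 => C (v j) * (f * X ^ j.val)) Finset.univ
    simp only [modByMonicHom_apply] at this
    rw [this]
    refine Finset.sum_congr rfl fun j _ => ?_
    rw [← smul_eq_C_mul, smul_modByMonic, smul_eq_C_mul]
  have h3 : ∀ j : Fin 3, (f * X ^ j.val) %ₘ D = ∑ i : Fin 3, C (mm D f i j) * X ^ i.val := by
    intro j
    rw [mod_expand hDm hD3]
    rfl
  rw [h1, h2, Finset.sum_congr rfl fun j _ => by rw [h3 j]]
  unfold vec
  simp only [Finset.mul_sum]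
  rw [Finset.sum_comm]
  refine Finset.sum_congr rfl fun i _ => ?_
  rw [Matrix.mulVec, dotProduct, map_sum, Finset.sum_mul]
  refine Finset.sum_congr rfl fun j _ => ?_
  rw [C_mul]
  ring

lemma mul_mod_left (hDm : D.Monic) (f w : B1) : (f * w) %ₘ D = (f * (w %ₘ D)) %ₘ D := by
  have h := modByMonic_add_div w D
  conv_lhs => rw [← h]
  rw [mul_add, add_modByMonic, show f * (D * (w /ₘ D)) = D * (f * (w /ₘ D)) by ring,
    self_mul_modByMonic hDm, add_zero]

/-- a power of `X - a` divides the norm -/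
lemma pow_dvd_nm (hDm : D.Monic) (hD3 : D.natDegree = 3) {f : B1} {a b : ℂ} {k : ℕ}
    (hab : evalEval a b D = 0) (hk : Ct D a b k f) : (X - C a) ^ k ∣ nm D f := by
  obtain ⟨w, g, h, h0, h1⟩ := hk
  set v : Fin 3 → A1 := fun i => (w %ₘ D).coeff i.val with hv
  have hw : w %ₘ D = vec v := mod_eq_vec hDm hD3 w
  have hxaC : (C ((X - C a) ^ k) : B1) = xa a ^ k := by
    unfold xa; rw [C_pow]
  have h2 : vec ((mm D f).mulVec v) = C ((X - C a) ^ k) * (g %ₘ D) := by
    rw [← mul_vec_mod hDm hD3, ← hw, ← mul_mod_left hDm, mul_comm f w, h1, add_modByMonic,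
      self_mul_modByMonic hDm, add_zero, ← hxaC, ← smul_eq_C_mul, smul_modByMonic, smul_eq_C_mul]
  have h3 : ∀ i, (mm D f).mulVec v i = (X - C a) ^ k * (g %ₘ D).coeff i.val := by
    intro i
    rw [← coeff_vec ((mm D f).mulVec v) i, h2, coeff_C_mul]
  have h4 : ∀ i, (X - C a) ^ k ∣ nm D f * v i := by
    intro i
    have h5 : (mm D f).adjugate.mulVec ((mm D f).mulVec v) = nm D f • v := by
      rw [Matrix.mulVec_mulVec, Matrix.adjugate_mul, Matrix.smul_mulVec, Matrix.one_mulVec]
      rfl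
    have h6 : nm D f * v i = (mm D f).adjugate.mulVec ((mm D f).mulVec v) i := by
      rw [h5]; rfl
    rw [h6, Matrix.mulVec, dotProduct]
    apply Finset.dvd_sum
    intro j _
    rw [h3 j]
    exact Dvd.dvd.mul_left (dvd_mul_right _ _) _
  obtain ⟨i, hi⟩ : ∃ i, (v i).eval a ≠ 0 := by
    by_contra hcon
    push Not at hcon
    apply h0
    have h5 := modByMonic_add_div w D
    rw [← h5, evalEval_add, evalEval_mul, hab, zero_mul, add_zero, hw]
    unfold vec
    rw [Fin.sum_univ_three]
    simp only [evalEval_add, evalEval_mul, evalEval_C, hcon, zero_mul, add_zero]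
  have hcop : IsCoprime ((X - C a) ^ k) (v i) := by
    apply IsCoprime.pow_left
    rw [(irreducible_X_sub_C a).coprime_iff_not_dvd, dvd_iff_isRoot]
    exact hi
  exact hcop.dvd_of_dvd_mul_right (h4 i)

/-- the norm is not zero -/
lemma nm_ne_zero (hDm : D.Monic) (hD3 : D.natDegree = 3) {f : B1} (S : Finset ℂ)
    (hcom : ∀ x y, evalEval x y D = 0 → evalEval x y f = 0 → x ∈ S) : nm D f ≠ 0 := by
  intro h0
  obtain ⟨v, hv, hMv⟩ := Matrix.exists_mulVec_eq_zero_iff.2 h0
  have h1 : (f * vec v) %ₘ D = 0 := by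
    rw [mul_vec_mod hDm hD3, hMv]
    unfold vec
    simp
  rw [modByMonic_eq_zero_iff_dvd hDm] at h1
  obtain ⟨j, hj⟩ : ∃ j, v j ≠ 0 := by
    by_contra hcon
    push Not at hcon
    exact hv (funext hcon)
  obtain ⟨x, hx⟩ : ∃ x, x ∉ (S : Set ℂ) ∪ ((v j).roots.toFinset : Set ℂ) := by
    have : ((S : Set ℂ) ∪ ((v j).roots.toFinset : Set ℂ)).Finite :=
      (Finset.finite_toSet _).union (Finset.finite_toSet _)
    exact this.infinite_compl.nonempty
  rw [Set.mem_union, not_or] at hx
  obtain ⟨hxS, hxv⟩ := hx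
  have hxv' : (v j).eval x ≠ 0 := by
    intro h
    apply hxv
    simp only [Finset.mem_coe, Multiset.mem_toFinset]
    exact (mem_roots hj).2 h
  have hcop : IsCoprime (D.map (evalRingHom x)) (f.map (evalRingHom x)) := by
    refine (Polynomial.isCoprime_iff_aeval_ne_zero_of_isAlgClosed (k := ℂ) ℂ _ _).2 ?_
    intro y
    by_contra hcon
    push Not at hcon
    apply hxS
    have e1 := hcon.1
    have e2 := hcon.2
    rw [Polynomial.coe_aeval_eq_eval, map_evalRingHom_eval] at e1 e2
    exact hcom x y e1 e2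
  have h2 : D.map (evalRingHom x) ∣ f.map (evalRingHom x) * (vec v).map (evalRingHom x) := by
    rw [← Polynomial.map_mul]
    exact Polynomial.map_dvd _ h1
  have h3 := hcop.dvd_of_dvd_mul_left h2
  have h4 : (vec v).map (evalRingHom x) = 0 := by
    apply eq_zero_of_dvd_of_degree_lt h3
    refine lt_of_le_of_lt degree_map_le ?_
    rw [hDm.degree_map, degree_eq_natDegree hDm.ne_zero, hD3]
    exact degree_vec_lt v
  have h5 := congrArg (fun p => coeff p j.val) h4
  simp only [coeff_map, coeff_vec, coeff_zero] at h5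
  exact hxv' h5

lemma TD.dB {n : ℕ} {f : B1} (hf : TD n f) (δ : Derivation ℤ ℂ ℂ) : TD n (dB δ f) := by
  intro i e h
  rw [coeff_dB, coeff_dA, hf i e h, map_zero]

/-- **The residue theorem.**  If `f` meets the cubic `D` only at the points `(a i, b i)`, with
contact orders `k i`, and if `δ` kills the coefficients of `D`, then
`∑ k i * δ (a i) / D_Y (a i, b i) = 0`. -/
theorem residue {f : B1} {n : ℕ} (hn : 1 ≤ n) (hDm : D.Monic) (hD3 : D.natDegree = 3)
    (hDt : TD 3 D) (hft : TD n f) (δ : Derivation ℤ ℂ ℂ) (hδ : dB δ D = 0)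
    {ι : Type} [Fintype ι] (a b : ι → ℂ) (k : ι → ℕ) (ha : Function.Injective a)
    (hab : ∀ i, evalEval (a i) (b i) D = 0)
    (hY : ∀ i, evalEval (a i) (b i) (derivative D) ≠ 0)
    (hcom : ∀ x y, evalEval x y D = 0 → evalEval x y f = 0 → ∃ i, x = a i ∧ y = b i)
    (hk : ∀ i, Ct D (a i) (b i) (k i) f) (hsum : ∑ i, k i = 3 * n) :
    ∑ i, (k i : ℂ) * δ (a i) / evalEval (a i) (b i) (derivative D) = 0 := by
  classical
  set N := nm D f with hN
  set F := cf D f with hF
  set T := tau D (dB δ f * F) with hT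
  set r : ι → ℂ := fun i => (k i : ℂ) * δ (a i) / evalEval (a i) (b i) (derivative D) with hr
  have hN0 : N ≠ 0 := by
    apply nm_ne_zero hDm hD3 (Finset.univ.image a)
    intro x y h1 h2
    obtain ⟨i, rfl, -⟩ := hcom x y h1 h2
    exact Finset.mem_image_of_mem _ (Finset.mem_univ i)
  have hNk : ∀ i, (X - C (a i)) ^ (k i) ∣ N := fun i => pow_dvd_nm hDm hD3 (hab i) (hk i)
  have hpair : Pairwise fun i j => IsCoprime ((X - C (a i)) ^ (k i)) ((X - C (a j)) ^ (k j)) := by
    intro i j hij
    apply IsCoprime.pow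
    exact isCoprime_X_sub_C_of_isUnit_sub (isUnit_iff_ne_zero.2 (sub_ne_zero.2 (ha.ne hij)))
  set P : A1 := ∏ i, (X - C (a i)) ^ (k i) with hP
  have hPm : P.Monic := monic_prod_of_monic _ _ fun i _ => (monic_X_sub_C _).pow _
  have hPd : P.natDegree = 3 * n := by
    rw [hP, natDegree_prod_of_monic _ _ fun i _ => (monic_X_sub_C _).pow _, ← hsum]
    refine Finset.sum_congr rfl fun i _ => ?_
    rw [(monic_X_sub_C (a i)).natDegree_pow, natDegree_X_sub_C, mul_one]
  have hPN : P ∣ N := Fintype.prod_dvd_of_coprime hpair hNk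
  have hNdeg := nm_deg hDm hD3 hDt hft
  rw [← hN] at hNdeg
  have hNnat : N.natDegree = 3 * n := by
    apply le_antisymm
    · rw [natDegree_le_iff_coeff_eq_zero]
      intro e he
      exact hNdeg e (by exact_mod_cast he)
    · rw [← hPd]
      exact natDegree_le_of_dvd hPN hN0
  have hNlc : N.coeff (3 * n) ≠ 0 := by
    rw [← hNnat]
    exact leadingCoeff_ne_zero.2 hN0
  -- the local statements
  have hloc : ∀ i, (X - C (a i)) ^ (k i + 1) ∣ (X - C (a i)) * T + C (r i) * N := by
    intro i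
    refine local_main hDm hD3 δ hδ (hab i) (hY i) (hk i) ?_ (mul_cf hDm hD3 f) (hNk i)
    intro y h1 h2
    obtain ⟨j, h3, h4⟩ := hcom (a i) y h1 h2
    rw [h4, ha h3]
  -- the quotients
  have hquot : ∀ i, ∃ M : A1, C (r i) * N = (X - C (a i)) * (C (r i) * M) ∧
      (r i ≠ 0 → N = (X - C (a i)) * M) := by
    intro i
    by_cases hki : k i = 0
    · have hri : r i = 0 := by
        simp only [hr, hki]
        simp
      exact ⟨0, by rw [hri]; simp, fun h => absurd hri h⟩
    · obtain ⟨M, hM⟩ := (dvd_pow_self (X - C (a i)) hki).trans (hNk i)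
      exact ⟨M, by rw [hM]; ring, fun _ => hM⟩
  choose M hM1 hM2 using hquot
  set S : A1 := ∑ i, C (r i) * M i with hS
  have hX0 : ∀ i, (X - C (a i)) ≠ 0 := fun i => X_sub_C_ne_zero _
  have hTS : ∀ i, (X - C (a i)) ^ (k i) ∣ T + S := by
    intro i
    have h1 : (X - C (a i)) ^ (k i) ∣ T + C (r i) * M i := by
      have h2 := hloc i
      rw [hM1 i, ← mul_add, pow_succ'] at h2
      exact (mul_dvd_mul_iff_left (hX0 i)).1 h2
    have h2 : (X - C (a i)) ^ (k i) ∣ ∑ j ∈ Finset.univ.erase i, C (r j) * M j := by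
      apply Finset.dvd_sum
      intro j hj
      by_cases hrj : r j = 0
      · rw [hrj]; simp
      · have h3 := hM2 j hrj
        have h4 : (X - C (a i)) ^ (k i) ∣ (X - C (a j)) * M j := by
          rw [← h3]; exact hNk i
        have h5 : IsCoprime ((X - C (a i)) ^ (k i)) (X - C (a j)) := by
          apply IsCoprime.pow_left
          exact isCoprime_X_sub_C_of_isUnit_sub (isUnit_iff_ne_zero.2 (sub_ne_zero.2
            (ha.ne (Finset.ne_of_mem_erase hj).symm)))
        exact (h5.dvd_of_dvd_mul_left h4).mul_left _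
    have h3 : T + S = (T + C (r i) * M i) + ∑ j ∈ Finset.univ.erase i, C (r j) * M j := by
      rw [hS, ← Finset.add_sum_erase _ _ (Finset.mem_univ i)]
      ring
    rw [h3]
    exact dvd_add h1 h2
  have hPTS : P ∣ T + S := Fintype.prod_dvd_of_coprime hpair hTS
  -- degrees
  have hTdeg : ∀ e, 3 * n ≤ e + 1 → T.coeff e = 0 := by
    intro e he
    have h1 : TD (n + 2 * n) (dB δ f * F) := (hft.dB δ).mul (cf_TD hDm hD3 hDt hft)
    exact tau_deg hDm hD3 hDt h1 e (by push_cast; omega)
  have hMdeg : ∀ i, r i ≠ 0 → (M i).natDegree + 1 = 3 * n := by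
    intro i hi
    have h1 := hM2 i hi
    have hM0 : M i ≠ 0 := by
      intro h; rw [h, mul_zero] at h1; exact hN0 h1
    have h2 := natDegree_mul (hX0 i) hM0
    rw [← h1, hNnat, natDegree_X_sub_C] at h2
    omega
  have hSdeg : ∀ e, 3 * n ≤ e → S.coeff e = 0 := by
    intro e he
    rw [hS, finsetSum_coeff]
    apply Finset.sum_eq_zero
    intro i _
    rw [coeff_C_mul]
    by_cases hi : r i = 0
    · rw [hi, zero_mul]
    · rw [coeff_eq_zero_of_natDegree_lt, mul_zero]
      have := hMdeg i hi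
      omega
  have hTS0 : T + S = 0 := by
    apply eq_zero_of_dvd_of_degree_lt hPTS
    rw [degree_eq_natDegree hPm.ne_zero, hPd, degree_lt_iff_coeff_zero]
    intro e he
    rw [coeff_add, hTdeg e (by omega), hSdeg e he, add_zero]
  -- the leading coefficient
  have hS1 : S.coeff (3 * n - 1) = 0 := by
    have h1 := congrArg (fun p => coeff p (3 * n - 1)) hTS0
    simp only [coeff_add, coeff_zero] at h1
    rwa [hTdeg (3 * n - 1) (by omega), zero_add] at h1
  have hS2 : S.coeff (3 * n - 1) = (∑ i, r i) * N.coeff (3 * n) := by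
    rw [hS, finsetSum_coeff, Finset.sum_mul]
    refine Finset.sum_congr rfl fun i _ => ?_
    rw [coeff_C_mul]
    by_cases hi : r i = 0
    · rw [hi, zero_mul, zero_mul]
    · congr 1
      have h1 := hMdeg i hi
      have h2 := hM2 i hi
      have h3 : N.coeff (3 * n - 1 + 1) = (M i).coeff (3 * n - 1) := by
        rw [h2, sub_mul, coeff_sub, coeff_X_mul, coeff_C_mul,
          coeff_eq_zero_of_natDegree_lt (p := M i) (n := 3 * n - 1 + 1) (by omega)]
        ring
      rw [← h3]
      congr 1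
      omega
  rw [hS2] at hS1
  exact (mul_eq_zero.1 hS1).resolve_right hNlc

end Pool.Agent.Helper52.NP
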