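import Mathlib
import Pool.Agent.Helper52.NP.Gen
import Pool.Agent.Helper52.NP.Res

set_option autoImplicit false

/-!
# From plane curves to polynomials in two variables
-/

namespace Pool.Agent.Helper52.NP

open MvPolynomial Pool.Agent.Chud Pool.Agent.Helper52.NP.Frame

/-! ### rational points outside hypersurfaces -/

lemma exists_rat_ne {κ : Type} [Fintype κ] (G : κ → P3) (hG : ∀ k, G k ≠ 0) :
    ∃ c : Fin 3 → ℚ, ∀ k, eval (fun i => (c i : ℂ)) (G k) ≠ 0 := by
  classical
  by_contra hcon
  push Not at hcon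
  have hP : (∏ k, G k) ≠ 0 := Finset.prod_ne_zero_iff.2 fun k _ => hG k
  apply hP
  apply MvPolynomial.funext_set (fun _ : Fin 3 => Set.range (fun q : ℚ => (q : ℂ)))
  · intro i
    exact Set.infinite_range_of_injective Rat.cast_injective
  · intro x hx
    have h1 : ∀ i, ∃ q : ℚ, (q : ℂ) = x i := fun i => hx i (Set.mem_univ i)
    choose c hc using h1
    obtain ⟨k, hk⟩ := hcon c
    have h2 : (fun i => (c i : ℂ)) = x := funext hc
    rw [h2] at hk
    rw [map_zero, map_prod]
    exact Finset.prod_eq_zero (Finset.mem_univ k) hk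

/-- the cross product -/
def cr (v w : Fin 3 → ℂ) : Fin 3 → ℂ :=
  ![v 1 * w 2 - v 2 * w 1, v 2 * w 0 - v 0 * w 2, v 0 * w 1 - v 1 * w 0]

lemma cr_ne {v w : Fin 3 → ℂ} (h : Far v w) : cr v w ≠ 0 := by
  intro h0
  obtain ⟨i, j, hij⟩ := h
  have e0 : v 1 * w 2 - v 2 * w 1 = 0 := congrFun h0 0
  have e1 : v 2 * w 0 - v 0 * w 2 = 0 := congrFun h0 1
  have e2 : v 0 * w 1 - v 1 * w 0 = 0 := congrFun h0 2
  apply hij
  fin_cases i <;> fin_cases j <;> simp only [Fin.zero_eta, Fin.mk_one, Fin.reduceFinMk]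
  · linear_combination e2
  · linear_combination (-1 : ℂ) * e1
  · linear_combination (-1 : ℂ) * e2
  · linear_combination e0
  · linear_combination e1
  · linear_combination (-1 : ℂ) * e0

lemma far_of_cr {v w : Fin 3 → ℂ} (h : cr v w ≠ 0) : Far v w := by
  by_contra hn
  unfold Far at hn
  push Not at hn
  apply h
  funext i
  fin_cases i
  · show v 1 * w 2 - v 2 * w 1 = 0
    linear_combination hn 1 2
  · show v 2 * w 0 - v 0 * w 2 = 0
    linear_combination hn 2 0
  · show v 0 * w 1 - v 1 * w 0 = 0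
    linear_combination hn 0 1

lemma det_eq_cr (o u w : Fin 3 → ℂ) : (Matrix.of ![o, u, w]).det = ∑ i, cr o u i * w i := by
  rw [Matrix.det_fin_three, Fin.sum_univ_three]
  simp [cr]
  ring

lemma det_eq_cr' (o u w : Fin 3 → ℂ) : (Matrix.of ![o, u, w]).det = ∑ i, cr u w i * o i := by
  rw [Matrix.det_fin_three, Fin.sum_univ_three]
  simp [cr]
  ring

lemma det_eq_cr'' (o u w : Fin 3 → ℂ) : (Matrix.of ![o, u, w]).det = ∑ i, cr w o i * u i := by
  rw [Matrix.det_fin_three, Fin.sum_univ_three]
  simp [cr]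
  ring

lemma lf_ne {v : Fin 3 → ℂ} (h : v ≠ 0) : lf v ≠ 0 := by
  intro h0
  apply h
  funext i
  have h1 : eval (Pi.single i 1) (lf v) = 0 := by rw [h0, map_zero]
  rw [eval_lf] at h1
  simpa [Pi.single_apply] using h1

lemma eval_homog_zero {F : P3} {n : ℕ} (hF : F.IsHomogeneous n) (hn : 1 ≤ n) :
    eval (0 : Fin 3 → ℂ) F = 0 := by
  have := eval_smul hF 0 0
  rw [zero_smul, zero_pow (by omega), zero_mul] at this
  exact this

lemma exists_far {v : Fin 3 → ℂ} (h : v ≠ 0) : ∃ u, Far v u := by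
  obtain ⟨i, hi⟩ : ∃ i, v i ≠ 0 := by
    by_contra hcon
    push Not at hcon
    exact h (funext hcon)
  obtain ⟨j, hj⟩ : ∃ j : Fin 3, j ≠ i := by
    fin_cases i
    · exact ⟨1, by decide⟩
    · exact ⟨0, by decide⟩
    · exact ⟨0, by decide⟩
  exact ⟨Pi.single j 1, i, j, by simp [hj, hi]⟩

/-- a rational coordinate system -/
lemma exists_coords {D : P3} (hD : D.IsHomogeneous 3) (hD0 : D ≠ 0) {κ : Type} [Fintype κ]
    [DecidableEq κ] (P : κ → Fin 3 → ℂ)
    (hPD : ∀ j, eval (P j) D = 0) (hP0 : ∀ j, P j ≠ 0)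
    (hPs : ∀ j, ∃ i, eval (P j) (pderiv i D) ≠ 0) (hPf : ∀ i j, i ≠ j → Far (P i) (P j)) :
    ∃ (G : Frame) (o u w : Fin 3 → ℚ), (G.o = fun i => (o i : ℂ)) ∧ (G.u = fun i => (u i : ℂ)) ∧
      (G.w = fun i => (w i : ℂ)) ∧ eval G.w D ≠ 0 ∧
      (∀ j, ∑ i, eval (P j) (pderiv i D) * G.w i ≠ 0) ∧
      (∀ i j, i ≠ j → (Matrix.of ![P i, P j, G.w]).det ≠ 0) ∧
      (∀ j, (Matrix.of ![P j, G.u, G.w]).det ≠ 0) := by
  -- the center of projection
  obtain ⟨w, hw⟩ := exists_rat_ne (κ := Option (κ ⊕ {x : κ × κ // x.1 ≠ x.2}))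
    (fun x => match x with
      | none => D
      | some (Sum.inl j) => lf (fun i => eval (P j) (pderiv i D))
      | some (Sum.inr x) => lf (cr (P x.1.1) (P x.1.2))) (by
      rintro (_ | j | x)
      · exact hD0
      · apply lf_ne
        obtain ⟨i, hi⟩ := hPs j
        intro h
        exact hi (congrFun h i)
      · exact lf_ne (cr_ne (hPf _ _ x.2)))
  set W : Fin 3 → ℂ := fun i => (w i : ℂ) with hW
  have hw1 : eval W D ≠ 0 := hw none
  have hw2 : ∀ j, ∑ i, eval (P j) (pderiv i D) * W i ≠ 0 := by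
    intro j
    have := hw (some (Sum.inl j))
    rw [eval_lf] at this
    exact this
  have hw3 : ∀ i j, i ≠ j → (Matrix.of ![P i, P j, W]).det ≠ 0 := by
    intro i j hij
    have := hw (some (Sum.inr ⟨(i, j), hij⟩))
    rw [eval_lf] at this
    rw [det_eq_cr]
    exact this
  have hW0 : W ≠ 0 := by
    intro h
    apply hw1
    rw [h]
    exact eval_homog_zero hD (by norm_num)
  have hWP : ∀ j, Far W (P j) := by
    intro j
    by_contra hn
    unfold Far at hn
    push Not at hn
    obtain ⟨i, hi⟩ : ∃ i, P j i ≠ 0 := by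
      by_contra hcon
      push Not at hcon
      exact hP0 j (funext hcon)
    have h1 : P j i • W = W i • P j := by
      funext l
      simp only [Pi.smul_apply, smul_eq_mul]
      have := hn i l
      linear_combination -this
    have h2 : eval (P j i • W) D = eval (W i • P j) D := by rw [h1]
    rw [eval_smul hD, eval_smul hD, hPD j, mul_zero] at h2
    rcases mul_eq_zero.1 h2 with h | h
    · exact hi (pow_eq_zero_iff (by norm_num) |>.1 h)
    · exact hw1 h
  obtain ⟨v0, hv0⟩ := exists_far hW0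
  -- the second vector
  obtain ⟨u, hu⟩ := exists_rat_ne (κ := Option κ)
    (fun x => match x with
      | none => lf (cr W v0)
      | some j => lf (cr W (P j))) (by
      rintro (_ | j)
      · exact lf_ne (cr_ne hv0)
      · exact lf_ne (cr_ne (hWP j)))
  set U : Fin 3 → ℂ := fun i => (u i : ℂ) with hU
  have hu1 : (Matrix.of ![v0, U, W]).det ≠ 0 := by
    have := hu none
    rw [eval_lf] at this
    rw [det_eq_cr'']
    exact this
  have hu2 : ∀ j, (Matrix.of ![P j, U, W]).det ≠ 0 := by
    intro j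
    have := hu (some j)
    rw [eval_lf] at this
    rw [det_eq_cr'']
    exact this
  have hUW : cr U W ≠ 0 := by
    intro h
    apply hu1
    rw [det_eq_cr', h]
    simp
  obtain ⟨o, ho⟩ := exists_rat_ne (κ := Unit) (fun _ => lf (cr U W)) (fun _ => lf_ne hUW)
  refine ⟨⟨fun i => (o i : ℂ), U, W, ?_⟩, o, u, w, rfl, rfl, rfl, hw1, hw2, hw3, hu2⟩
  have := ho ()
  rw [eval_lf] at this
  rw [det_eq_cr']
  exact this

/-! ### the substitution -/

/-- the substitution `F ↦ F (o + X u + Y w)` -/
noncomputable def sb (G : Frame) : P3 →ₐ[ℂ] B1 :=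
  aeval (fun i => Polynomial.C (Polynomial.C (G.o i) + Polynomial.C (G.u i) * Polynomial.X) +
    Polynomial.C (Polynomial.C (G.w i)) * Polynomial.X)

/-- the image of a variable -/
noncomputable def sv (G : Frame) (i : Fin 3) : B1 :=
  Polynomial.C (Polynomial.C (G.o i) + Polynomial.C (G.u i) * Polynomial.X) +
    Polynomial.C (Polynomial.C (G.w i)) * Polynomial.X

lemma sb_X (G : Frame) (i : Fin 3) : sb G (X i) = sv G i := by
  unfold sb sv
  rw [aeval_X]

lemma sb_C (G : Frame) (c : ℂ) : sb G (C c) = Polynomial.C (Polynomial.C c) := by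
  unfold sb
  rw [aeval_C]
  rfl

lemma eval_sb (G : Frame) (F : P3) (x y : ℂ) :
    Polynomial.evalEval x y (sb G F) = eval (G.o + x • G.u + y • G.w) F := by
  have : (Polynomial.evalEvalRingHom x y).comp (sb G : P3 →+* B1) =
      eval (G.o + x • G.u + y • G.w) := by
    apply MvPolynomial.ringHom_ext
    · intro r
      simp
    · intro i
      simp [sb_X, sv]
      ring
  exact congrArg (fun f => f F) this

lemma TD_C (c : ℂ) : TD 0 (Polynomial.C (Polynomial.C c)) := by
  intro i e h
  rw [Polynomial.coeff_C]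
  split_ifs with hi
  · rw [Polynomial.coeff_C, if_neg (by omega)]
  · simp

lemma TD_sv (G : Frame) (i : Fin 3) : TD 1 (sv G i) := by
  intro a e h
  unfold sv
  rw [Polynomial.coeff_add, Polynomial.coeff_C, Polynomial.coeff_C_mul, Polynomial.coeff_X]
  rcases Nat.lt_or_ge a 2 with ha | ha
  · interval_cases a
    · simp only [if_true, Polynomial.coeff_add, Polynomial.coeff_C_mul, Polynomial.coeff_X,
        Polynomial.coeff_C]
      rw [if_neg (by omega), if_neg (by omega), if_neg (by omega)]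
      simp
    · rw [if_neg (by omega), if_pos rfl, mul_one, zero_add, Polynomial.coeff_C, if_neg (by omega)]
  · rw [if_neg (by omega), if_neg (by omega)]
    simp

lemma TD.pow {n : ℕ} {f : B1} (hf : TD n f) (m : ℕ) : TD (m * n) (f ^ m) := by
  induction m with
  | zero =>
    rw [zero_mul, pow_zero]
    exact TD_C 1
  | succ m ih =>
    rw [pow_succ, Nat.succ_mul]
    exact ih.mul hf

/-- expansion of the substitution -/
lemma sb_expand (G : Frame) (F : P3) :
    sb G F = ∑ m ∈ F.support, Polynomial.C (Polynomial.C (coeff m F)) *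
      (sv G 0 ^ m 0 * sv G 1 ^ m 1 * sv G 2 ^ m 2) := by
  conv_lhs => rw [F.as_sum]
  rw [map_sum]
  refine Finset.sum_congr rfl fun m _ => ?_
  unfold sb
  rw [aeval_monomial, Finsupp.prod_fintype _ _ (fun i => pow_zero _), Fin.prod_univ_three]
  rfl

lemma degree_eq_of_mem {F : P3} {n : ℕ} (hF : F.IsHomogeneous n) {m : Fin 3 →₀ ℕ}
    (hm : m ∈ F.support) : m 0 + m 1 + m 2 = n := by
  have h1 : m.degree = n := by
    by_contra h
    exact (mem_support_iff.1 hm) (hF.coeff_eq_zero h)
  rw [Finsupp.degree_eq_sum, Fin.sum_univ_three] at h1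
  exact h1

lemma TD_sb (G : Frame) {F : P3} {n : ℕ} (hF : F.IsHomogeneous n) : TD n (sb G F) := by
  rw [sb_expand]
  have : ∀ s : Finset (Fin 3 →₀ ℕ), s ⊆ F.support → TD n (∑ m ∈ s,
      Polynomial.C (Polynomial.C (coeff m F)) * (sv G 0 ^ m 0 * sv G 1 ^ m 1 * sv G 2 ^ m 2)) := by
    intro s
    induction s using Finset.induction_on with
    | empty =>
      intro _
      rw [Finset.sum_empty]
      intro i e _
      simp
    | insert m s hm ih =>
      intro hs
      rw [Finset.sum_insert hm]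
      refine TD.add ?_ (ih fun x hx => hs (Finset.mem_insert_of_mem hx))
      have h1 := degree_eq_of_mem hF (hs (Finset.mem_insert_self m s))
      have h2 := (TD_C (coeff m F)).mul ((((TD_sv G 0).pow (m 0)).mul ((TD_sv G 1).pow (m 1))).mul
        ((TD_sv G 2).pow (m 2)))
      exact h2.mono (by omega)
  exact this _ (Finset.Subset.refl _)

lemma natDegree_sv_le (G : Frame) (i : Fin 3) : (sv G i).natDegree ≤ 1 := by
  rw [Polynomial.natDegree_le_iff_coeff_eq_zero]
  intro a ha
  ext e
  rw [Polynomial.coeff_zero]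
  exact TD_sv G i a e (by omega)

lemma coeff_sv_one (G : Frame) (i : Fin 3) : (sv G i).coeff 1 = Polynomial.C (G.w i) := by
  unfold sv
  rw [Polynomial.coeff_add, Polynomial.coeff_C, if_neg (by norm_num), Polynomial.coeff_C_mul,
    Polynomial.coeff_X_one, mul_one, zero_add]

lemma coeff_pow_sv (G : Frame) (i : Fin 3) (m : ℕ) :
    (sv G i ^ m).natDegree ≤ m ∧ (sv G i ^ m).coeff m = Polynomial.C (G.w i) ^ m := by
  have h1 := natDegree_sv_le G i
  constructor
  · have := Polynomial.natDegree_pow_le_of_le m h1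
    rwa [mul_one] at this
  · have := Polynomial.coeff_pow_of_natDegree_le (m := m) h1
    rw [mul_one, coeff_sv_one] at this
    exact this

lemma coeff_sb (G : Frame) {F : P3} {n : ℕ} (hF : F.IsHomogeneous n) :
    (sb G F).coeff n = Polynomial.C (eval G.w F) := by
  rw [sb_expand, Polynomial.finsetSum_coeff, MvPolynomial.eval_eq', map_sum]
  refine Finset.sum_congr rfl fun m hm => ?_
  have h1 := degree_eq_of_mem hF hm
  rw [Polynomial.coeff_C_mul, ← h1, map_mul, Fin.prod_univ_three]
  congr 1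
  obtain ⟨a0, b0⟩ := coeff_pow_sv G 0 (m 0)
  obtain ⟨a1, b1⟩ := coeff_pow_sv G 1 (m 1)
  obtain ⟨a2, b2⟩ := coeff_pow_sv G 2 (m 2)
  rw [Polynomial.coeff_mul_add_eq_of_natDegree_le (Polynomial.natDegree_mul_le_of_le a0 a1) a2,
    Polynomial.coeff_mul_add_eq_of_natDegree_le a0 a1, b0, b1, b2]
  simp only [map_mul, map_pow]

/-- the derivative in the direction of projection -/
lemma derivative_sb (G : Frame) (F : P3) :
    Polynomial.derivative (sb G F) =
      ∑ i, Polynomial.C (Polynomial.C (G.w i)) * sb G (pderiv i F) := by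
  induction F using MvPolynomial.induction_on with
  | C a => simp
  | add p q hp hq => simp only [map_add, hp, hq, mul_add, Finset.sum_add_distrib]
  | mul_X p i hp =>
    have h2 : Polynomial.derivative (sb G (X i)) = Polynomial.C (Polynomial.C (G.w i)) := by
      rw [sb_X]
      unfold sv
      simp
    have h3 : ∑ j, Polynomial.C (Polynomial.C (G.w j)) * sb G (pderiv j (p * X i)) =
        (∑ j, Polynomial.C (Polynomial.C (G.w j)) * sb G (pderiv j p)) * sb G (X i) +
        sb G p * ∑ j, Polynomial.C (Polynomial.C (G.w j)) * sb G (pderiv j (X i)) := by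
      rw [Finset.sum_mul, Finset.mul_sum, ← Finset.sum_add_distrib]
      refine Finset.sum_congr rfl fun j _ => ?_
      rw [pderiv_mul, map_add, map_mul, map_mul]
      ring
    have h4 : ∑ j, Polynomial.C (Polynomial.C (G.w j)) * sb G (pderiv j (X i)) =
        Polynomial.C (Polynomial.C (G.w i)) := by
      rw [Finset.sum_eq_single i]
      · rw [pderiv_X_self, map_one, mul_one]
      · intro j _ hj
        rw [pderiv_X_of_ne hj.symm, map_zero, mul_zero]
      · intro h; exact absurd (Finset.mem_univ _) h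
    rw [h3, h4, map_mul, Polynomial.derivative_mul, hp, h2]

end Pool.Agent.Helper52.NP
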