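import Mathlib
import Pool.Agent.Helper52.NP.Proj

set_option autoImplicit false

/-!
# Relations between the points in which a cubic meets other curves
-/

namespace Pool.Agent.Helper52.NP

open MvPolynomial Pool.Agent.Chud Pool.Agent.Helper52.NP.Frame

/-! ### expansion in a frame -/

namespace Frame

variable (M : Frame)

/-- the dual linear forms -/
lemma exists_dual' : ∃ a b c : Fin 3 → ℂ, (∀ i j, a i * M.o j + b i * M.u j + c i * M.w j =
    if i = j then 1 else 0) ∧ ∑ i, a i * M.o i = 1 ∧ ∑ i, b i * M.o i = 0 ∧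
    ∑ i, c i * M.o i = 0 := by
  set A : Matrix (Fin 3) (Fin 3) ℂ := Matrix.of ![M.o, M.u, M.w] with hA
  have hu : IsUnit A.det := isUnit_iff_ne_zero.2 M.det
  have h := Matrix.mul_nonsing_inv A hu
  have h' := Matrix.nonsing_inv_mul A hu
  have key : ∀ j : Fin 3, ∑ r, A⁻¹ r j * A 0 r = (1 : Matrix (Fin 3) (Fin 3) ℂ) 0 j := by
    intro j
    rw [← h, Matrix.mul_apply]
    exact Finset.sum_congr rfl fun r _ => mul_comm _ _
  refine ⟨fun r => A⁻¹ r 0, fun r => A⁻¹ r 1, fun r => A⁻¹ r 2, ?_, ?_, ?_, ?_⟩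
  · intro i j
    have h1 : (A⁻¹ * A) i j = (1 : Matrix (Fin 3) (Fin 3) ℂ) i j := by rw [h']
    rw [Matrix.mul_apply, Fin.sum_univ_three, Matrix.one_apply] at h1
    exact h1
  · exact key 0
  · exact key 1
  · exact key 2

/-- the linear substitution -/
noncomputable def Λ : P3 →ₐ[ℂ] P3 :=
  aeval (fun i => C (M.o i) * X 0 + C (M.u i) * X 1 + C (M.w i) * X 2)

/-- dehomogenization -/
noncomputable def dh : P3 →ₐ[ℂ] P2 := aeval ![1, X 0, X 1]

lemma dh_Λ (F : P3) : dh (M.Λ F) = M.φ F := by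
  have : (dh : P3 →ₐ[ℂ] P2).comp M.Λ = M.φ := by
    apply MvPolynomial.algHom_ext
    intro i
    simp [dh, Λ, φ]
  exact congrArg (fun f => f F) this

lemma Λ_homog {F : P3} {n : ℕ} (hF : F.IsHomogeneous n) : (M.Λ F).IsHomogeneous n := by
  have := hF.aeval (fun i => C (M.o i) * X 0 + C (M.u i) * X 1 + C (M.w i) * X 2 : Fin 3 → P3)
    (n := 1) (fun i => by
      refine ((?_ : IsHomogeneous _ 1).add ?_).add ?_ <;> exact isHomogeneous_C_mul_X _ _)
  rw [one_mul] at this
  exact this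

lemma dh_expand (G : P3) : dh G = ∑ m ∈ G.support, C (coeff m G) * (X 0 ^ m 1 * X 1 ^ m 2) := by
  conv_lhs => rw [G.as_sum]
  rw [map_sum]
  refine Finset.sum_congr rfl fun m _ => ?_
  unfold dh
  rw [aeval_monomial, Finsupp.prod_fintype _ _ (fun i => pow_zero _), Fin.prod_univ_three]
  simp

lemma coeff_dh {G : P3} {n : ℕ} (hG : G.IsHomogeneous n) {m : Fin 3 →₀ ℕ} (hm : m ∈ G.support) :
    coeff (ex (m 1) (m 2)) (dh G) = coeff m G := by
  rw [dh_expand, coeff_sum, Finset.sum_eq_single m]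
  · rw [monomial_ex, coeff_C_mul, coeff_monomial, if_pos rfl, mul_one]
  · intro m' hm' hne
    rw [monomial_ex, coeff_C_mul, coeff_monomial, if_neg, mul_zero]
    intro h
    apply hne
    obtain ⟨h1, h2⟩ := ex_inj h
    have e1 := degree_eq_of_mem hG hm
    have e2 := degree_eq_of_mem hG hm'
    ext i
    fin_cases i
    · show m' 0 = m 0
      omega
    · exact h1
    · exact h2
  · intro h; exact absurd hm h

/-- The conditions on the exponents of the expansion. -/
lemma supp_of_van {F : P3} {n k l : ℕ} (hF : F.IsHomogeneous n) (h : Van k l (M.φ F))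
    {m : Fin 3 →₀ ℕ} (hm : m ∈ (M.Λ F).support) : k ≤ m 1 + m 2 ∧ k + l ≤ m 1 + 2 * m 2 := by
  have h1 := coeff_dh (M.Λ_homog hF) hm
  rw [dh_Λ] at h1
  by_contra hcon
  have h2 := h (ex (m 1) (m 2)) (by rw [ex_zero, ex_one]; omega)
  rw [h2] at h1
  exact (mem_support_iff.1 hm) h1.symm

end Frame

/-- expansion of a form in the dual linear forms of a frame -/
lemma frame_expand (M : Frame) {a b c : Fin 3 → ℂ}
    (h : ∀ i j, a i * M.o j + b i * M.u j + c i * M.w j = if i = j then 1 else 0) (F : P3) :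
    F = ∑ m ∈ (M.Λ F).support, C (coeff m (M.Λ F)) * (lf a ^ m 0 * lf b ^ m 1 * lf c ^ m 2) := by
  have h1 : ((aeval ![lf a, lf b, lf c] : P3 →ₐ[ℂ] P3).comp M.Λ) = AlgHom.id ℂ P3 := by
    apply MvPolynomial.algHom_ext
    intro j
    simp only [Λ, AlgHom.comp_apply, aeval_X, map_add, map_mul, AlgHom.id_apply]
    have ec : ∀ r : ℂ, (aeval ![lf a, lf b, lf c] : P3 →ₐ[ℂ] P3) (C r) = C r := fun r => by
      rw [aeval_C]; rfl
    rw [ec, ec, ec]
    show C (M.o j) * lf a + C (M.u j) * lf b + C (M.w j) * lf c = X j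
    unfold lf
    rw [Finset.mul_sum, Finset.mul_sum, Finset.mul_sum, ← Finset.sum_add_distrib,
      ← Finset.sum_add_distrib]
    have : ∀ i : Fin 3, (C (M.o j) * (C (a i) * X i) + C (M.u j) * (C (b i) * X i) +
        C (M.w j) * (C (c i) * X i) : P3) = C (if i = j then 1 else 0) * X i := by
      intro i
      rw [← h i j, map_add, map_add, map_mul, map_mul, map_mul]
      ring
    rw [Finset.sum_congr rfl fun i _ => this i, Finset.sum_eq_single j]
    · simp
    · intro i _ hij
      rw [if_neg hij]; simp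
    · intro hj; exact absurd (Finset.mem_univ j) hj
  have h2 : (aeval ![lf a, lf b, lf c] : P3 →ₐ[ℂ] P3) (M.Λ F) = F :=
    congrArg (fun f => f F) h1
  conv_lhs => rw [← h2, (M.Λ F).as_sum]
  rw [map_sum]
  refine Finset.sum_congr rfl fun m _ => ?_
  rw [aeval_monomial, Finsupp.prod_fintype _ _ (fun i => pow_zero _), Fin.prod_univ_three]
  rfl

/-- contact orders from the conditions at a point -/
lemma ct_sb (G M : Frame) {D1 : B1} {x y : ℂ} {a b c : Fin 3 → ℂ}
    (h : ∀ i j, a i * M.o j + b i * M.u j + c i * M.w j = if i = j then 1 else 0)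
    {s : ℕ} (hb : Ct D1 x y 1 (sb G (lf b))) (hc : Ct D1 x y s (sb G (lf c)))
    {F : P3} {n k l t : ℕ} (hF : F.IsHomogeneous n) (hV : Van k l (M.φ F))
    (hs : ∀ p q : ℕ, k ≤ p + q → k + l ≤ p + 2 * q → t ≤ p + q * s) :
    Ct D1 x y t (sb G F) := by
  rw [frame_expand M h F, map_sum]
  apply Ct.sum
  intro m hm
  obtain ⟨h1, h2⟩ := M.supp_of_van hF hV hm
  rw [map_mul, map_mul, map_mul]
  apply Ct.mul_left
  rw [mul_assoc]
  apply Ct.mul_left
  rw [map_pow, map_pow]
  refine Ct.mono ((hb.pow (m 1)).mul (hc.pow (m 2))) ?_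
  rw [mul_one]
  exact hs _ _ h1 h2

/-- the tangent line has contact order two -/
lemma ct_tangent (G M : Frame) {D : P3} (hD : D.IsHomogeneous 3) {D1 : B1} {x y : ℂ} {κ : ℂ}
    (hD1 : sb G D = Polynomial.C (Polynomial.C κ) * D1) {a b c : Fin 3 → ℂ}
    (h : ∀ i j, a i * M.o j + b i * M.u j + c i * M.w j = if i = j then 1 else 0)
    (ha : Polynomial.evalEval x y (sb G (lf a)) ≠ 0)
    (hb : Ct D1 x y 1 (sb G (lf b))) (hc : Ct D1 x y 1 (sb G (lf c)))
    (hV : Van 1 1 (M.φ D)) (hns : ∃ i, eval M.o (pderiv i D) ≠ 0) :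
    Ct D1 x y 2 (sb G (lf c)) := by
  -- the coefficient of the linear term
  set m0 : Fin 3 →₀ ℕ := Finsupp.single 0 2 + Finsupp.single 2 1 with hm0
  have hm00 : m0 0 = 2 := by simp [hm0]
  have hm01 : m0 1 = 0 := by simp [hm0]
  have hm02 : m0 2 = 1 := by simp [hm0]
  have hmem : m0 ∈ (M.Λ D).support := by
    by_contra hcon
    obtain ⟨i, hi⟩ := hns
    apply hi
    rw [← van_one_iff]
    have h2 : Van 2 0 (M.φ D) := by
      intro e he
      by_contra hne
      rw [← M.dh_Λ, dh_expand, coeff_sum] at hne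
      obtain ⟨m, hm, hm'⟩ := Finset.exists_ne_zero_of_sum_ne_zero hne
      rw [monomial_ex, coeff_C_mul, coeff_monomial] at hm'
      have hme : ex (m 1) (m 2) = e := by
        by_contra hh
        rw [if_neg hh, mul_zero] at hm'
        exact hm' rfl
      obtain ⟨h3, h4⟩ := M.supp_of_van hD hV hm
      have h5 := degree_eq_of_mem (M.Λ_homog hD) hm
      rw [← hme, ex_zero, ex_one] at he
      apply hcon
      have : m = m0 := by
        ext i
        fin_cases i
        · show m 0 = m0 0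
          omega
        · show m 1 = m0 1
          omega
        · show m 2 = m0 2
          omega
      rw [← this]
      exact hm
    exact M.van_pderiv hD (Nat.zero_le _) h2 i
  have hd : coeff m0 (M.Λ D) ≠ 0 := mem_support_iff.1 hmem
  have hexp := frame_expand M h D
  rw [← Finset.add_sum_erase _ _ hmem] at hexp
  have hexp2 := congrArg (sb G) hexp
  rw [map_add, map_mul, map_mul, map_mul, map_pow, map_pow, map_pow, hm00, hm01, hm02, pow_zero,
    mul_one, pow_one, sb_C, hD1, map_sum] at hexp2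
  have hrest : Ct D1 x y 2 (∑ m ∈ (M.Λ D).support.erase m0,
      sb G (C (coeff m (M.Λ D)) * (lf a ^ m 0 * lf b ^ m 1 * lf c ^ m 2))) := by
    apply Ct.sum
    intro m hm
    rw [Finset.mem_erase] at hm
    obtain ⟨h3, h4⟩ := M.supp_of_van hD hV hm.2
    have h5 := degree_eq_of_mem (M.Λ_homog hD) hm.2
    have h6 : 2 ≤ m 1 + m 2 := by
      by_contra hcon
      apply hm.1
      ext i
      fin_cases i
      · show m 0 = m0 0
        omega
      · show m 1 = m0 1
        omega
      · show m 2 = m0 2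
        omega
    rw [map_mul, map_mul, map_mul]
    apply Ct.mul_left
    rw [mul_assoc]
    apply Ct.mul_left
    rw [map_pow, map_pow]
    refine Ct.mono ((hb.pow (m 1)).mul (hc.pow (m 2))) ?_
    omega
  apply Ct.cancel (w0 := Polynomial.C (Polynomial.C (coeff m0 (M.Λ D))) * sb G (lf a) ^ 2)
  · rw [Polynomial.evalEval_mul, Polynomial.evalEval_pow, Polynomial.evalEval_C,
      Polynomial.eval_C]
    exact mul_ne_zero hd (pow_ne_zero _ ha)
  · have e : Polynomial.C (Polynomial.C (coeff m0 (M.Λ D))) * sb G (lf a) ^ 2 * sb G (lf c) =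
        D1 * Polynomial.C (Polynomial.C κ) - ∑ m ∈ (M.Λ D).support.erase m0,
      sb G (C (coeff m (M.Λ D)) * (lf a ^ m 0 * lf b ^ m 1 * lf c ^ m 2)) := by
      rw [mul_comm D1, hexp2]
      ring
    rw [e]
    exact (ct_D _ _).sub hrest

end Pool.Agent.Helper52.NP
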