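import Mathlib
import Pool.Agent.Helper52.NP.Key

set_option autoImplicit false

/-!
# Relations between the points in which a cubic meets other curves
-/

namespace Pool.Agent.Helper52.NP

open MvPolynomial Pool.Agent.Chud Pool.Agent.Helper52.NP.Frame

/-! ### kernels of derivations, and the chain rule -/

/-- the subring killed by a derivation -/
def kerSub {R : Type} [CommRing R] (d : Derivation ℤ R R) : Subring R where
  carrier := {x | d x = 0}
  mul_mem' := by
    intro a b ha hb
    show d (a * b) = 0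
    rw [d.leibniz, show d a = 0 from ha, show d b = 0 from hb, smul_zero, smul_zero, add_zero]
  one_mem' := d.map_one_eq_zero
  add_mem' := by
    intro a b ha hb
    show d (a + b) = 0
    rw [map_add, show d a = 0 from ha, show d b = 0 from hb, add_zero]
  zero_mem' := map_zero d
  neg_mem' := by
    intro a ha
    show d (-a) = 0
    rw [map_neg, show d a = 0 from ha, neg_zero]

lemma mem_kerSub {R : Type} [CommRing R] {d : Derivation ℤ R R} {x : R} :
    x ∈ kerSub d ↔ d x = 0 := Iff.rfl

lemma dB_sb_zero (δ : Derivation ℤ ℂ ℂ) (G : Frame)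
    (hG : ∀ i, δ (G.o i) = 0 ∧ δ (G.u i) = 0 ∧ δ (G.w i) = 0) (F : P3)
    (hF : ∀ m, δ (coeff m F) = 0) : dB δ (sb G F) = 0 := by
  show sb G F ∈ kerSub (dB δ)
  rw [sb_expand]
  have hC : ∀ c : ℂ, δ c = 0 → (Polynomial.C (Polynomial.C c) : B1) ∈ kerSub (dB δ) := by
    intro c hc
    show dB δ (Polynomial.C (Polynomial.C c)) = 0
    rw [dB_C, dA_C, hc, Polynomial.C_0, Polynomial.C_0]
  have hX : (Polynomial.X : B1) ∈ kerSub (dB δ) := by
    show dB δ Polynomial.X = 0
    ext i e
    rw [coeff_dB, Polynomial.coeff_X, Polynomial.coeff_zero, Polynomial.coeff_zero]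
    split_ifs
    · rw [(dA δ).map_one_eq_zero, Polynomial.coeff_zero]
    · rw [map_zero, Polynomial.coeff_zero]
  have hX' : (Polynomial.C Polynomial.X : B1) ∈ kerSub (dB δ) := by
    show dB δ (Polynomial.C Polynomial.X) = 0
    rw [dB_C, dA_X, Polynomial.C_0]
  have hsv : ∀ i, sv G i ∈ kerSub (dB δ) := by
    intro i
    unfold sv
    rw [Polynomial.C_add, Polynomial.C_mul]
    exact Subring.add_mem _ (Subring.add_mem _ (hC _ (hG i).1)
      (Subring.mul_mem _ (hC _ (hG i).2.1) hX')) (Subring.mul_mem _ (hC _ (hG i).2.2) hX)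
  apply Subring.sum_mem
  intro m _
  exact Subring.mul_mem _ (hC _ (hF m)) (Subring.mul_mem _ (Subring.mul_mem _
    (Subring.pow_mem _ (hsv 0) _) (Subring.pow_mem _ (hsv 1) _)) (Subring.pow_mem _ (hsv 2) _))

lemma eval_zero_of (δ : Derivation ℤ ℂ ℂ) (w : Fin 3 → ℂ) (hw : ∀ i, δ (w i) = 0) (F : P3)
    (hF : ∀ m, δ (coeff m F) = 0) : δ (eval w F) = 0 := by
  rw [← mem_kerSub, MvPolynomial.eval_eq']
  apply Subring.sum_mem
  intro m _
  exact Subring.mul_mem _ (hF m) (Subring.prod_mem _ fun i _ => Subring.pow_mem _ (hw i) _)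

/-- coefficientwise derivation -/
noncomputable def mapc {R : Type} [CommRing R] (δ : Derivation ℤ R R) :
    Derivation ℤ (Polynomial R) (Polynomial R) :=
  letI : Differential R := ⟨δ⟩
  Differential.mapCoeffs

lemma mapc_monomial {R : Type} [CommRing R] (δ : Derivation ℤ R R) (n : ℕ) (c : R) :
    mapc δ (Polynomial.monomial n c) = Polynomial.monomial n (δ c) :=
  letI : Differential R := ⟨δ⟩
  Differential.mapCoeffs_monomial n c

lemma chain {R : Type} [CommRing R] (δ : Derivation ℤ R R) (p : Polynomial R) (x : R) :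
    δ (p.eval x) = (mapc δ p).eval x + (Polynomial.derivative p).eval x * δ x := by
  induction p using Polynomial.induction_on' with
  | add p q hp hq =>
    rw [Polynomial.eval_add, map_add, hp, hq, map_add, Polynomial.derivative_add,
      Polynomial.eval_add, Polynomial.eval_add]
    ring
  | monomial n c =>
    rw [mapc_monomial, Polynomial.eval_monomial, Polynomial.eval_monomial, δ.leibniz,
      δ.leibniz_pow, Polynomial.derivative_monomial, Polynomial.eval_monomial]
    simp only [smul_eq_mul, nsmul_eq_mul]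
    ring

lemma chain2 (δ : Derivation ℤ ℂ ℂ) (p : B1) (a b : ℂ) : ∃ r : ℂ,
    δ (Polynomial.evalEval a b p) = Polynomial.evalEval a b (dB δ p) + r * δ a +
      Polynomial.evalEval a b (Polynomial.derivative p) * δ b := by
  refine ⟨(Polynomial.derivative (p.eval (Polynomial.C b))).eval a, ?_⟩
  have h1 : δ ((p.eval (Polynomial.C b)).eval a) = (dA δ (p.eval (Polynomial.C b))).eval a +
      (Polynomial.derivative (p.eval (Polynomial.C b))).eval a * δ a :=
    chain δ (p.eval (Polynomial.C b)) a
  have h2 : dA δ (p.eval (Polynomial.C b)) = (dB δ p).eval (Polynomial.C b) +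
      (Polynomial.derivative p).eval (Polynomial.C b) * Polynomial.C (δ b) := by
    rw [← dA_C]
    exact chain (dA δ) p (Polynomial.C b)
  rw [h2, Polynomial.eval_add, Polynomial.eval_mul, Polynomial.eval_C] at h1
  unfold Polynomial.evalEval
  rw [h1]
  ring

/-! ### coordinates of a point -/

lemma exists_lincomb (G : Frame) (v : Fin 3 → ℂ) (hv : (Matrix.of ![v, G.u, G.w]).det ≠ 0) :
    ∃ z a b : ℂ, z ≠ 0 ∧ v = z • (G.o + a • G.u + b • G.w) := by
  obtain ⟨z, hz⟩ : ∃ z, z = (Matrix.of ![v, G.u, G.w]).det / (Matrix.of ![G.o, G.u, G.w]).det :=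
    ⟨_, rfl⟩
  obtain ⟨x, hx⟩ : ∃ x, x = (Matrix.of ![G.o, v, G.w]).det / (Matrix.of ![G.o, G.u, G.w]).det :=
    ⟨_, rfl⟩
  obtain ⟨y, hy⟩ : ∃ y, y = (Matrix.of ![G.o, G.u, v]).det / (Matrix.of ![G.o, G.u, G.w]).det :=
    ⟨_, rfl⟩
  have hd := G.det
  have hz0 : z ≠ 0 := by rw [hz]; exact div_ne_zero hv hd
  have key : ∀ i, v i = z * G.o i + x * G.u i + y * G.w i := by
    intro i
    have e : v i * (Matrix.of ![G.o, G.u, G.w]).det = (Matrix.of ![v, G.u, G.w]).det * G.o i +
        (Matrix.of ![G.o, v, G.w]).det * G.u i + (Matrix.of ![G.o, G.u, v]).det * G.w i := by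
      rw [Matrix.det_fin_three, Matrix.det_fin_three, Matrix.det_fin_three, Matrix.det_fin_three]
      fin_cases i <;> simp <;> ring
    rw [hz, hx, hy]
    field_simp
    linear_combination e
  refine ⟨z, x / z, y / z, hz0, ?_⟩
  funext i
  simp only [Pi.smul_apply, Pi.add_apply, smul_eq_mul]
  rw [key i]
  field_simp

/-- **Relations.** -/
theorem relations {D : P3} (hD : D.IsHomogeneous 3) (hD0 : D ≠ 0) {κ : Type} [Fintype κ]
    [DecidableEq κ] (M : κ → Frame) (hM : Sepd M) (hMD : ∀ j, eval (M j).o D = 0)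
    (hMs : ∀ j, ∃ i, eval (M j).o (pderiv i D) ≠ 0) :
    ∃ ω : κ → (Derivation ℚ ℂ ℂ →ₗ[ℂ] ℂ),
      (∀ δ : Derivation ℚ ℂ ℂ, (∀ m, δ (coeff m D) = 0) → ∀ (n : ℕ) (k l t : κ → ℕ), 1 ≤ n →
        ∀ F : P3, F.IsHomogeneous n → (∀ j, Van (k j) (l j) ((M j).φ F)) →
        (∀ j, (l j = 0 ∧ t j = k j) ∨ (Van 1 1 ((M j).φ D) ∧ t j = k j + l j)) →
        (∀ v, v ≠ 0 → eval v D = 0 → eval v F = 0 → ∃ j, ¬ Far (M j).o v) →
        ∑ j, t j = 3 * n → ∑ j, (t j : ℂ) * ω j δ = 0) ∧
      (∀ δ : Derivation ℚ ℂ ℂ, (∀ m, δ (coeff m D) = 0) → ∀ j, ω j δ = 0 →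
        ∀ i i', (M j).o i' = 1 → δ ((M j).o i) = 0) := by
  obtain ⟨G, oq, uq, wq, ho, hu, hw, hGD, hGY, hGinj, hGz⟩ := exists_coords hD hD0
    (fun j => (M j).o) hMD (fun j => (M j).o_ne) hMs hM
  choose z a b hz0 hzab using fun j => exists_lincomb G (M j).o (hGz j)
  -- rational numbers are killed
  have hrat : ∀ δ : Derivation ℚ ℂ ℂ, ∀ i, δ (G.o i) = 0 ∧ δ (G.u i) = 0 ∧ δ (G.w i) = 0 := by
    intro δ i
    have h1 : ∀ q : ℚ, δ (q : ℂ) = 0 := fun q => δ.map_algebraMap q
    rw [ho, hu, hw]
    exact ⟨h1 _, h1 _, h1 _⟩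
  set c0 : ℂ := eval G.w D with hc0
  set D1 : B1 := Polynomial.C (Polynomial.C c0⁻¹) * sb G D with hD1
  have hD1' : sb G D = Polynomial.C (Polynomial.C c0) * D1 := by
    rw [hD1, ← mul_assoc, ← Polynomial.C_mul, ← Polynomial.C_mul, mul_inv_cancel₀ hGD,
      Polynomial.C_1, Polynomial.C_1, one_mul]
  have hDt : TD 3 D1 := by
    have := (TD_C c0⁻¹).mul (TD_sb G hD)
    rwa [zero_add] at this
  have hco : D1.coeff 3 = 1 := by
    rw [hD1, Polynomial.coeff_C_mul, coeff_sb G hD, ← Polynomial.C_mul, inv_mul_cancel₀ hGD,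
      Polynomial.C_1]
  have hnd : D1.natDegree ≤ 3 := by
    rw [Polynomial.natDegree_le_iff_coeff_eq_zero]
    intro i hi
    ext e
    rw [Polynomial.coeff_zero]
    exact hDt i e (by omega)
  have hD3 : D1.natDegree = 3 := by
    apply le_antisymm hnd
    apply Polynomial.le_natDegree_of_ne_zero
    rw [hco]
    exact one_ne_zero
  have hDm : D1.Monic := by
    unfold Polynomial.Monic Polynomial.leadingCoeff
    rw [hD3, hco]
  -- evaluation of forms at the points
  have hev : ∀ (F : P3) (n : ℕ), F.IsHomogeneous n → ∀ j,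
      eval (M j).o F = z j ^ n * Polynomial.evalEval (a j) (b j) (sb G F) := by
    intro F n hF j
    rw [eval_sb, hzab j, eval_smul hF]
  -- the derivative of `D1` at the points
  have hY : ∀ j, Polynomial.evalEval (a j) (b j) (Polynomial.derivative D1) ≠ 0 := by
    intro j h
    rw [hD1, Polynomial.derivative_C_mul, derivative_sb, Polynomial.evalEval_mul,
      Polynomial.evalEval_C, Polynomial.eval_C] at h
    apply hGY j
    have h1 := (mul_eq_zero.1 h).resolve_left (inv_ne_zero hGD)
    rw [Fin.sum_univ_three] at h1 ⊢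
    simp only [Polynomial.evalEval_add, Polynomial.evalEval_mul, Polynomial.evalEval_C,
      Polynomial.eval_C] at h1
    rw [hev _ 2 hD.pderiv, hev _ 2 hD.pderiv, hev _ 2 hD.pderiv]
    linear_combination z j ^ 2 * h1
  have hab : ∀ j, Polynomial.evalEval (a j) (b j) D1 = 0 := by
    intro j
    have h1 := hev D 3 hD j
    rw [hMD j] at h1
    rw [hD1, Polynomial.evalEval_mul,
      (mul_eq_zero.1 h1.symm).resolve_left (pow_ne_zero _ (hz0 j)), mul_zero]
  have hainj : Function.Injective a := by
    intro i j hij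
    by_contra hne
    apply hGinj i j hne
    rw [Matrix.det_fin_three]
    have hi : ∀ l, (M i).o l = z i * (G.o l + a i * G.u l + b i * G.w l) := fun l =>
      congrFun (hzab i) l
    have hj : ∀ l, (M j).o l = z j * (G.o l + a i * G.u l + b j * G.w l) := fun l => by
      rw [hij]; exact congrFun (hzab j) l
    simp only [Matrix.of_apply, Matrix.cons_val', Matrix.cons_val_zero, Matrix.cons_val_one,
      Matrix.cons_val, Matrix.cons_val_fin_one]
    rw [hi 0, hi 1, hi 2, hj 0, hj 1, hj 2]
    ring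
  -- points of the plane
  have hcomb : ∀ x y : ℂ, ∀ j, ¬ Far (M j).o (G.o + x • G.u + y • G.w) → x = a j ∧ y = b j := by
    intro x y j hn
    unfold Far at hn
    push Not at hn
    have hj : ∀ l, (M j).o l = z j * (G.o l + a j * G.u l + b j * G.w l) := fun l =>
      congrFun (hzab j) l
    have e01 := hn 0 1
    have e02 := hn 0 2
    have e12 := hn 1 2
    rw [hj 0, hj 1] at e01
    rw [hj 0, hj 2] at e02
    rw [hj 1, hj 2] at e12
    simp only [Pi.add_apply, Pi.smul_apply, smul_eq_mul] at e01 e02 e12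
    have hz := hz0 j
    constructor
    · have : z j * (x - a j) * (Matrix.of ![G.o, G.u, G.w]).det = 0 := by
        rw [Matrix.det_fin_three]
        simp only [Matrix.of_apply, Matrix.cons_val', Matrix.cons_val_zero, Matrix.cons_val_one,
          Matrix.cons_val, Matrix.cons_val_fin_one]
        linear_combination G.w 2 * e01 - G.w 1 * e02 + G.w 0 * e12
      have h2 := (mul_eq_zero.1 this).resolve_right G.det
      exact sub_eq_zero.1 ((mul_eq_zero.1 h2).resolve_left hz)
    · have : z j * (y - b j) * (Matrix.of ![G.o, G.u, G.w]).det = 0 := by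
        rw [Matrix.det_fin_three]
        simp only [Matrix.of_apply, Matrix.cons_val', Matrix.cons_val_zero, Matrix.cons_val_one,
          Matrix.cons_val, Matrix.cons_val_fin_one]
        linear_combination (-G.u 2) * e01 + G.u 1 * e02 - G.u 0 * e12
      have h2 := (mul_eq_zero.1 this).resolve_right G.det
      exact sub_eq_zero.1 ((mul_eq_zero.1 h2).resolve_left hz)
  -- the functionals
  let ω : κ → (Derivation ℚ ℂ ℂ →ₗ[ℂ] ℂ) := fun j =>
    { toFun := fun δ => δ (a j) * (Polynomial.evalEval (a j) (b j) (Polynomial.derivative D1))⁻¹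
      map_add' := fun δ δ' => by rw [Derivation.add_apply]; ring
      map_smul' := fun c δ => by
        rw [Derivation.smul_apply, smul_eq_mul, smul_eq_mul, RingHom.id_apply]; ring }
  have hδD1 : ∀ δ : Derivation ℚ ℂ ℂ, (∀ m, δ (coeff m D) = 0) →
      dB (δ.restrictScalars ℤ) D1 = 0 := by
    intro δ hδ
    have h1 : dB (δ.restrictScalars ℤ) (sb G D) = 0 := dB_sb_zero _ G (hrat δ) D hδ
    have h2 : (δ.restrictScalars ℤ) c0 = 0 :=
      eval_zero_of _ G.w (fun i => (hrat δ i).2.2) D hδ
    have h3 : (δ.restrictScalars ℤ) c0⁻¹ = 0 := by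
      have h4 : c0 * c0⁻¹ = 1 := mul_inv_cancel₀ hGD
      have h5 := congrArg (δ.restrictScalars ℤ) h4
      rw [Derivation.leibniz, h2, smul_zero, add_zero, Derivation.map_one_eq_zero,
        smul_eq_mul] at h5
      exact (mul_eq_zero.1 h5).resolve_left hGD
    rw [hD1, Derivation.leibniz, h1, smul_zero, zero_add, dB_C, dA_C, h3, Polynomial.C_0,
      Polynomial.C_0, smul_zero]
  refine ⟨ω, ?_, ?_⟩
  · intro δ hδ n k l t hn F hF hV hl hzero hsum
    have hres := residue hn hDm hD3 hDt (TD_sb G hF) (δ.restrictScalars ℤ) (hδD1 δ hδ) a b t hainj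
      hab hY ?_ ?_ hsum
    · rw [← hres]
      refine Finset.sum_congr rfl fun j _ => ?_
      rw [mul_div_assoc, div_eq_mul_inv]
      rfl
    · intro x y h1 h2
      rw [hD1, Polynomial.evalEval_mul, Polynomial.evalEval_C, Polynomial.eval_C] at h1
      have h3 := (mul_eq_zero.1 h1).resolve_left (inv_ne_zero hGD)
      rw [eval_sb] at h3 h2
      have hv0 : G.o + x • G.u + y • G.w ≠ 0 := by
        intro h
        apply G.det
        have e : ∀ i, G.o i = -x * G.u i - y * G.w i := by
          intro i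
          have := congrFun h i
          simp only [Pi.add_apply, Pi.smul_apply, smul_eq_mul, Pi.zero_apply] at this
          linear_combination this
        rw [Matrix.det_fin_three]
        simp only [Matrix.of_apply, Matrix.cons_val', Matrix.cons_val_zero, Matrix.cons_val_one,
          Matrix.cons_val, Matrix.cons_val_fin_one]
        rw [e 0, e 1, e 2]
        ring
      obtain ⟨j, hj⟩ := hzero _ hv0 h3 h2
      exact ⟨j, hcomb x y j hj⟩
    · intro j
      obtain ⟨a', b', c', h1, h2, h3, h4⟩ := (M j).exists_dual'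
      have ha' : Polynomial.evalEval (a j) (b j) (sb G (lf a')) ≠ 0 := by
        intro h
        have h5 := hev (lf a') 1 (lf_homog a') j
        rw [h, mul_zero, eval_lf, h2] at h5
        exact one_ne_zero h5
      have hb' : Ct D1 (a j) (b j) 1 (sb G (lf b')) := by
        apply ct_of_eval hDm hD3 (hab j) (hY j)
        have h5 := hev (lf b') 1 (lf_homog b') j
        rw [eval_lf, h3] at h5
        exact (mul_eq_zero.1 h5.symm).resolve_left (pow_ne_zero _ (hz0 j))
      have hc' : Ct D1 (a j) (b j) 1 (sb G (lf c')) := by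
        apply ct_of_eval hDm hD3 (hab j) (hY j)
        have h5 := hev (lf c') 1 (lf_homog c') j
        rw [eval_lf, h4] at h5
        exact (mul_eq_zero.1 h5.symm).resolve_left (pow_ne_zero _ (hz0 j))
      rcases hl j with ⟨hl0, ht⟩ | ⟨hV1, ht⟩
      · refine ct_sb G (M j) h1 (s := 1) hb' hc' hF (hV j) ?_
        intro p q hp _
        omega
      · have hc2 := ct_tangent G (M j) hD hD1' h1 ha' hb' hc' hV1 (hMs j)
        refine ct_sb G (M j) h1 (s := 2) hb' hc2 hF (hV j) ?_
        intro p q _ hq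
        omega
  · intro δ hδ j hj i i' hi'
    have h1 : δ (a j) = 0 := by
      have : δ (a j) * (Polynomial.evalEval (a j) (b j) (Polynomial.derivative D1))⁻¹ = 0 := hj
      exact (mul_eq_zero.1 this).resolve_right (inv_ne_zero (hY j))
    obtain ⟨r, hr⟩ := chain2 (δ.restrictScalars ℤ) D1 (a j) (b j)
    have h2 : δ (b j) = 0 := by
      rw [hδD1 δ hδ, hab j] at hr
      have h3 : (δ.restrictScalars ℤ) (a j) = 0 := h1
      rw [h3, map_zero, Polynomial.evalEval_zero, mul_zero, add_zero, zero_add] at hr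
      exact (mul_eq_zero.1 hr.symm).resolve_left (hY j)
    have hv : ∀ l, δ (G.o l + a j * G.u l + b j * G.w l) = 0 := by
      intro l
      rw [map_add, map_add, Derivation.leibniz, Derivation.leibniz, (hrat δ l).1, (hrat δ l).2.1,
        (hrat δ l).2.2, h1, h2]
      simp
    have hj : ∀ l, (M j).o l = z j * (G.o l + a j * G.u l + b j * G.w l) := fun l =>
      congrFun (hzab j) l
    have hz' : δ (z j) = 0 := by
      have h3 := hj i'
      rw [hi'] at h3
      have h4 := congrArg δ h3
      rw [Derivation.map_one_eq_zero, Derivation.leibniz, hv i', smul_zero, zero_add,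
        smul_eq_mul] at h4
      refine (mul_eq_zero.1 h4.symm).resolve_left ?_
      intro h5
      rw [h5, mul_zero] at h3
      exact one_ne_zero h3
    rw [hj i, Derivation.leibniz, hv i, hz']
    simp

end Pool.Agent.Helper52.NP
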