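import Mathlib
import Pool.Agent.Helper52.NP.Rel
import Pool.Graph.R_seed8.H248R6.Der

set_option autoImplicit false

/-!
# Two independent relations between eight general points of a cubic are impossible
-/

namespace Pool.Agent.Helper52.NP

open MvPolynomial Pool.Agent.Chud Pool.Agent.Helper52.NP.Frame

lemma card_support_le {D : P3} (hD : D.IsHomogeneous 3) : D.support.card ≤ 10 := by
  classical
  have hli : LinearIndependent ℂ (fun m : D.support =>
      (⟨monomial m.1 1, (isHomogeneous_monomial 1 (by
        by_contra h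
        exact (mem_support_iff.1 m.2) (hD.coeff_eq_zero h)) : IsHomogeneous _ 3)⟩ :
        homogeneousSubmodule (Fin 3) ℂ 3)) := by
    have h1 : LinearIndependent ℂ (fun m : Fin 3 →₀ ℕ => (monomial m (1 : ℂ) : P3)) :=
      (basisMonomials (Fin 3) ℂ).linearIndependent
    have h2 := h1.comp (fun m : D.support => m.1) Subtype.val_injective
    exact LinearIndependent.of_comp (homogeneousSubmodule (Fin 3) ℂ 3).subtype h2
  have h3 := hli.fintype_card_le_finrank
  rw [Fintype.card_coe, Pool.Agent.Chud.finrank_forms] at h3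
  exact h3

theorem no_two_relations (p : Fin 8 → Fin 2 → ℂ)
    (hp : AlgebraicIndependent ℚ (fun ij : Fin 8 × Fin 2 => p ij.1 ij.2)) {D : P3}
    (hD : D.IsHomogeneous 3) (hnorm : ∃ m0, coeff m0 D = 1)
    (ω : Fin 8 → (Derivation ℚ ℂ ℂ →ₗ[ℂ] ℂ))
    (h2 : ∀ δ : Derivation ℚ ℂ ℂ, (∀ m, δ (coeff m D) = 0) → ∀ j, ω j δ = 0 →
      ∀ c, δ (p j c) = 0) (c c' : Fin 8 → ℂ)
    (hrel : ∀ δ : Derivation ℚ ℂ ℂ, (∀ m, δ (coeff m D) = 0) →
      ∑ j, c j * ω j δ = 0 ∧ ∑ j, c' j * ω j δ = 0) : ¬ LinearIndependent ℂ ![c, c'] := by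
  classical
  intro hli
  obtain ⟨m0, hm0⟩ := hnorm
  choose del hdel using fun x : Fin 8 × Fin 2 => Pool.Agent.H248R6.exists_der _ hp x
  let s : (Fin 8 × Fin 2 → ℂ) →ₗ[ℂ] Derivation ℚ ℂ ℂ :=
    ∑ x, (LinearMap.proj x).smulRight (del x)
  have hs : ∀ v : Fin 8 × Fin 2 → ℂ, ∀ z : ℂ, s v z = ∑ x, v x * del x z := by
    intro v z
    simp only [s, LinearMap.sum_apply, LinearMap.smulRight_apply, LinearMap.proj_apply]
    have := map_sum (Derivation.coeFnAddMonoidHom : Derivation ℚ ℂ ℂ →+ (ℂ → ℂ))
      (fun x => v x • del x) Finset.univ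
    have h1 := congrFun this z
    rw [Finset.sum_apply] at h1
    exact h1
  have hs' : ∀ v : Fin 8 × Fin 2 → ℂ, ∀ y : Fin 8 × Fin 2, s v (p y.1 y.2) = v y := by
    intro v y
    rw [hs, Finset.sum_eq_single y]
    · rw [(hdel y y).1 rfl, mul_one]
    · intro x _ hx
      rw [(hdel x y).2 hx, mul_zero]
    · intro h; exact absurd (Finset.mem_univ y) h
  let K : (Fin 8 × Fin 2 → ℂ) →ₗ[ℂ] (↥(D.support.erase m0) → ℂ) :=
    { toFun := fun v m => s v (coeff m.1 D)
      map_add' := fun v w => by
        funext m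
        rw [map_add]
        rfl
      map_smul' := fun t v => by
        funext m
        rw [map_smul]
        rfl }
  have hK : ∀ v, K v = 0 → ∀ m, s v (coeff m D) = 0 := by
    intro v hv m
    by_cases hm : m ∈ D.support.erase m0
    · exact congrFun hv ⟨m, hm⟩
    · rw [Finset.mem_erase, not_and_or, not_not] at hm
      rcases hm with rfl | hm
      · rw [hm0]
        exact (s v).map_one_eq_zero
      · rw [notMem_support_iff.1 hm, map_zero]
  let Ω : LinearMap.ker K →ₗ[ℂ] (Fin 8 → ℂ) :=
    { toFun := fun v j => ω j (s v.1)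
      map_add' := fun v w => by
        funext j
        show ω j (s (v.1 + w.1)) = ω j (s v.1) + ω j (s w.1)
        rw [map_add, map_add]
      map_smul' := fun t v => by
        funext j
        show ω j (s (t • v.1)) = t • ω j (s v.1)
        rw [map_smul, map_smul] }
  have hΩ : Function.Injective Ω := by
    rw [← LinearMap.ker_eq_bot, LinearMap.ker_eq_bot']
    intro v hv
    apply Subtype.ext
    funext y
    have h3 := hK v.1 (LinearMap.mem_ker.1 v.2)
    have h4 := h2 (s v.1) h3 y.1 (congrFun hv y.1) y.2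
    rw [hs'] at h4
    exact h4
  let Mx : Matrix (Fin 2) (Fin 8) ℂ := Matrix.of ![c, c']
  have hrank : Mx.rank = 2 := by
    have : LinearIndependent ℂ Mx.row := hli
    have h3 := this.rank_matrix
    rwa [Fintype.card_fin] at h3
  have hker : Module.finrank ℂ (LinearMap.ker Mx.mulVecLin) = 6 := by
    have h3 := LinearMap.finrank_range_add_finrank_ker Mx.mulVecLin
    rw [Module.finrank_fintype_fun_eq_card, Fintype.card_fin] at h3
    have h4 : Module.finrank ℂ (LinearMap.range Mx.mulVecLin) = 2 := hrank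
    omega
  have hle : Module.finrank ℂ (LinearMap.ker K) ≤ 6 := by
    rw [← hker]
    let Q : LinearMap.ker K →ₗ[ℂ] LinearMap.ker Mx.mulVecLin :=
      LinearMap.codRestrict _ Ω (by
        intro v
        have h3 := hrel (s v.1) (hK v.1 (LinearMap.mem_ker.1 v.2))
        rw [LinearMap.mem_ker, Matrix.mulVecLin_apply]
        funext i
        fin_cases i
        · exact h3.1
        · exact h3.2)
    apply LinearMap.finrank_le_finrank_of_injective (f := Q)
    intro v w hvw
    apply hΩ
    exact congrArg Subtype.val hvw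
  have h5 := LinearMap.finrank_range_add_finrank_ker K
  have h6 : Module.finrank ℂ (LinearMap.range K) ≤ 9 := by
    refine (Submodule.finrank_le _).trans ?_
    rw [Module.finrank_fintype_fun_eq_card, Fintype.card_coe]
    have h7 := card_support_le hD
    rw [Finset.card_erase_of_mem]
    · omega
    · rw [mem_support_iff, hm0]
      exact one_ne_zero
  rw [Module.finrank_fintype_fun_eq_card, Fintype.card_prod, Fintype.card_fin,
    Fintype.card_fin] at h5
  omega

end Pool.Agent.Helper52.NP
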