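import Mathlib
import Pool.Agent.Helper52.NP.Key

set_option autoImplicit false

/-!
# Multiplicities at points and at infinitely near points
-/

namespace Pool.Agent.Helper52.NP

open MvPolynomial Pool.Agent.Chud Pool.Agent.Helper52.NP.Frame

/-- the weighted order of a polynomial in two variables -/
noncomputable def wo (w : Fin 2 → ℕ) (g : P2) : ℕ :=
  ((g : MvPowerSeries (Fin 2) ℂ).weightedOrder w).toNat

lemma weight_two (w : Fin 2 → ℕ) (e : Fin 2 →₀ ℕ) :
    Finsupp.weight w e = e 0 * w 0 + e 1 * w 1 := by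
  rw [Finsupp.weight_apply, Finsupp.sum_fintype _ _ (fun i => by simp), Fin.sum_univ_two]
  simp [mul_comm]

lemma coe_wo {w : Fin 2 → ℕ} {g : P2} (hg : g ≠ 0) :
    (wo w g : ℕ∞) = (g : MvPowerSeries (Fin 2) ℂ).weightedOrder w := by
  unfold wo
  apply (MvPowerSeries.ne_zero_iff_weightedOrder_finite w).1
  intro h
  apply hg
  exact MvPolynomial.coe_injective _ _ (by rw [h, MvPolynomial.coe_zero])

lemma wo_mul {w : Fin 2 → ℕ} {g h : P2} (hg : g ≠ 0) (hh : h ≠ 0) :
    wo w (g * h) = wo w g + wo w h := by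
  have h1 : ((wo w (g * h) : ℕ) : ℕ∞) = ((wo w g + wo w h : ℕ) : ℕ∞) := by
    rw [coe_wo (mul_ne_zero hg hh), MvPolynomial.coe_mul, MvPowerSeries.weightedOrder_mul,
      Nat.cast_add, coe_wo hg, coe_wo hh]
  exact_mod_cast h1

lemma le_wo_iff {w : Fin 2 → ℕ} {g : P2} (hg : g ≠ 0) (k : ℕ) :
    k ≤ wo w g ↔ ∀ e : Fin 2 →₀ ℕ, e 0 * w 0 + e 1 * w 1 < k → coeff e g = 0 := by
  constructor
  · intro h e he
    rw [← MvPolynomial.coeff_coe]
    apply MvPowerSeries.coeff_eq_zero_of_lt_weightedOrder w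
    rw [← coe_wo hg, weight_two]
    exact_mod_cast lt_of_lt_of_le he h
  · intro h
    have h1 : (k : ℕ∞) ≤ (g : MvPowerSeries (Fin 2) ℂ).weightedOrder w := by
      apply MvPowerSeries.nat_le_weightedOrder
      intro e he
      rw [MvPolynomial.coeff_coe]
      apply h
      rwa [weight_two] at he
    rw [← coe_wo hg] at h1
    exact_mod_cast h1

lemma φ_ne_zero (M : Frame) {F : P3} {n : ℕ} (hF : F.IsHomogeneous n) (hF0 : F ≠ 0) :
    M.φ F ≠ 0 := by
  intro h0
  apply hF0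
  obtain ⟨a, b, c, h, -⟩ := M.exists_dual'
  rw [frame_expand M h F]
  apply Finset.sum_eq_zero
  intro m hm
  have h1 := M.supp_of_van (k := m 1 + m 2 + 1) (l := 0) hF (by
    rw [h0]; exact van_zero_poly _ _) hm
  omega

/-- the multiplicity at the point of the frame -/
noncomputable def o1 (M : Frame) (F : P3) : ℕ := wo ![1, 1] (M.φ F)

/-- the order for the weights `1, 2` -/
noncomputable def o2 (M : Frame) (F : P3) : ℕ := wo ![1, 2] (M.φ F)

section
variable {M : Frame} {F G : P3} {n m : ℕ}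

lemma o1_mul (hF : F.IsHomogeneous n) (hG : G.IsHomogeneous m) (hF0 : F ≠ 0) (hG0 : G ≠ 0) :
    o1 M (F * G) = o1 M F + o1 M G := by
  unfold o1
  rw [map_mul, wo_mul (φ_ne_zero M hF hF0) (φ_ne_zero M hG hG0)]

lemma o2_mul (hF : F.IsHomogeneous n) (hG : G.IsHomogeneous m) (hF0 : F ≠ 0) (hG0 : G ≠ 0) :
    o2 M (F * G) = o2 M F + o2 M G := by
  unfold o2
  rw [map_mul, wo_mul (φ_ne_zero M hF hF0) (φ_ne_zero M hG hG0)]

lemma van_iff (hF : F.IsHomogeneous n) (hF0 : F ≠ 0) (k l : ℕ) :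
    Van k l (M.φ F) ↔ k ≤ o1 M F ∧ k + l ≤ o2 M F := by
  have hφ := φ_ne_zero M hF hF0
  unfold o1 o2
  rw [le_wo_iff hφ, le_wo_iff hφ]
  constructor
  · intro h
    refine ⟨fun e he => h e ?_, fun e he => h e ?_⟩
    · simp at he
      omega
    · simp at he
      omega
  · rintro ⟨h1, h2⟩ e he
    rcases he with he | he
    · apply h1
      simp
      omega
    · apply h2
      simp
      omega

lemma o1_le_o2 (hF : F.IsHomogeneous n) (hF0 : F ≠ 0) : o1 M F ≤ o2 M F := by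
  have hφ := φ_ne_zero M hF hF0
  have h1 := (le_wo_iff (w := ![1, 1]) hφ (o1 M F)).1 le_rfl
  unfold o2
  rw [le_wo_iff hφ]
  intro e he
  apply h1
  simp at he ⊢
  omega

lemma o2_le (hF : F.IsHomogeneous n) (hF0 : F ≠ 0) : o2 M F ≤ 2 * o1 M F := by
  have hφ := φ_ne_zero M hF hF0
  by_contra hcon
  have h1 := (le_wo_iff (w := ![1, 2]) hφ (o2 M F)).1 le_rfl
  have h2 : o1 M F + 1 ≤ wo ![1, 1] (M.φ F) := by
    rw [le_wo_iff hφ]
    intro e he
    apply h1
    simp at he ⊢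
    omega
  unfold o1 at h2
  omega

lemma one_le_o1 (hF : F.IsHomogeneous n) (hF0 : F ≠ 0) : 1 ≤ o1 M F ↔ eval M.o F = 0 := by
  rw [← van_one_iff, van_iff hF hF0]
  constructor
  · intro h
    exact ⟨h, by have := o1_le_o2 (M := M) hF hF0; omega⟩
  · exact fun h => h.1

lemma o1_unit {c : ℂ} (hc : c ≠ 0) (hF : F.IsHomogeneous n) (hF0 : F ≠ 0) :
    o1 M (C c * F) = o1 M F ∧ o2 M (C c * F) = o2 M F := by
  have hC0 : (C c : P3) ≠ 0 := by
    rw [Ne, C_eq_zero]; exact hc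
  have hCh := isHomogeneous_C (Fin 3) c
  rw [o1_mul hCh hF hC0 hF0, o2_mul hCh hF hC0 hF0]
  have h0 : o1 M (C c) = 0 := by
    by_contra h
    have := (one_le_o1 (M := M) hCh hC0).1 (by omega)
    rw [eval_C] at this
    exact hc this
  have h1 := o2_le (M := M) hCh hC0
  omega

end

end Pool.Agent.Helper52.NP
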