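import Mathlib
import Pool.Agent.Helper52.NP.Genus
import Pool.Agent.Helper52.NP.Proj

set_option autoImplicit false

/-!
# General position of points with algebraically independent coordinates
-/

namespace Pool.Agent.Helper52.NP

open MvPolynomial Pool.Agent.Chud Pool.Agent.Helper52.NP.Frame

/-- A linear system with generic coefficients has only the trivial solution if this is the case
for one specialization. -/
lemma spec {σ κ ι : Type} [Fintype κ] [Fintype ι] [DecidableEq ι] [DecidableEq κ]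
    (hcard : Fintype.card κ = Fintype.card ι) (A : κ → ι → MvPolynomial σ ℚ) (q : σ → ℚ)
    (hq : ∀ v : ι → ℚ, (∀ k, ∑ i, eval q (A k i) * v i = 0) → v = 0)
    (p : σ → ℂ) (hp : AlgebraicIndependent ℚ p) (v : ι → ℂ)
    (hv : ∀ k, ∑ i, aeval p (A k i) * v i = 0) : v = 0 := by
  classical
  let e : ι ≃ κ := Fintype.equivOfCardEq hcard.symm
  let Mx : Matrix ι ι (MvPolynomial σ ℚ) := Matrix.of fun k i => A (e k) i
  have h1 : Mx.det ≠ 0 := by
    intro h0
    have h2 : ((eval q).mapMatrix Mx).det = 0 := by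
      rw [← RingHom.map_det, h0, map_zero]
    obtain ⟨w, hw, hw'⟩ := Matrix.exists_mulVec_eq_zero_iff.2 h2
    apply hw
    apply hq
    intro k
    have h3 := congrFun hw' (e.symm k)
    rw [Matrix.mulVec, dotProduct] at h3
    simp only [RingHom.mapMatrix_apply, Matrix.map_apply, Mx, Matrix.of_apply,
      Equiv.apply_symm_apply, Pi.zero_apply] at h3
    exact h3
  have h2 : ((aeval p : MvPolynomial σ ℚ →ₐ[ℚ] ℂ).toRingHom.mapMatrix Mx).det ≠ 0 := by
    rw [← RingHom.map_det]
    intro h0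
    apply h1
    have h3 : (aeval p : MvPolynomial σ ℚ →ₐ[ℚ] ℂ) Mx.det =
        (aeval p : MvPolynomial σ ℚ →ₐ[ℚ] ℂ) 0 := by
      rw [map_zero]; exact h0
    exact hp h3
  by_contra hne
  apply h2
  apply Matrix.exists_mulVec_eq_zero_iff.1
  refine ⟨v, hne, ?_⟩
  funext k
  rw [Matrix.mulVec, dotProduct]
  exact hv (e k)

/-- the exponent with given affine exponents -/
noncomputable def me (d b c : ℕ) : Fin 3 →₀ ℕ :=
  Finsupp.single 0 (d - b - c) + Finsupp.single 1 b + Finsupp.single 2 c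

lemma me_zero (d b c : ℕ) : me d b c 0 = d - b - c := by simp [me]
lemma me_one (d b c : ℕ) : me d b c 1 = b := by simp [me]
lemma me_two (d b c : ℕ) : me d b c 2 = c := by simp [me]

lemma form_expand {d N : ℕ} (b c : Fin N → ℕ) (hsurj : ∀ x y, x + y ≤ d → ∃ t, b t = x ∧ c t = y)
    (hinj : ∀ t t', b t = b t' → c t = c t' → t = t') {F : P3}
    (hF : F.IsHomogeneous d) : F = ∑ t, coeff (me d (b t) (c t)) F • monomial (me d (b t) (c t)) 1 := by
  classical
  have h1 : F = ∑ m ∈ Finset.univ.image (fun t => me d (b t) (c t)), coeff m F • monomial m 1 := by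
    conv_lhs => rw [F.as_sum]
    have h2 : ∀ m, (monomial m (coeff m F) : P3) = coeff m F • monomial m 1 := by
      intro m
      rw [smul_monomial, smul_eq_mul, mul_one]
    simp only [h2]
    apply Finset.sum_subset
    · intro m hm
      have h3 := degree_eq_of_mem hF hm
      obtain ⟨t, ht1, ht2⟩ := hsurj (m 1) (m 2) (by omega)
      rw [Finset.mem_image]
      refine ⟨t, Finset.mem_univ t, ?_⟩
      ext i
      fin_cases i
      · show me d (b t) (c t) 0 = m 0
        rw [me_zero, ht1, ht2]; omega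
      · show me d (b t) (c t) 1 = m 1
        rw [me_one, ht1]
      · show me d (b t) (c t) 2 = m 2
        rw [me_two, ht2]
    · intro m _ hm
      rw [notMem_support_iff.1 hm, zero_smul]
  conv_lhs => rw [h1]
  rw [Finset.sum_image]
  intro t _ t' _ h
  apply hinj
  · have := DFunLike.congr_fun h 1
    rwa [me_one, me_one] at this
  · have := DFunLike.congr_fun h 2
    rwa [me_two, me_two] at this

/-- the vector with given affine coordinates -/
def pv (x : Fin 2 → ℂ) : Fin 3 → ℂ := ![1, x 0, x 1]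

lemma eval_me (x : Fin 2 → ℂ) (d b c : ℕ) :
    eval (pv x) (monomial (me d b c) (1 : ℂ)) = x 0 ^ b * x 1 ^ c := by
  rw [eval_monomial, Finsupp.prod_fintype _ _ (fun i => pow_zero _), Fin.prod_univ_three,
    me_zero, me_one, me_two]
  simp [pv]

lemma no_form {d N : ℕ} (b c : Fin N → ℕ) (hsurj : ∀ x y, x + y ≤ d → ∃ t, b t = x ∧ c t = y)
    (hinj : ∀ t t', b t = b t' → c t = c t' → t = t') (q : Fin N → Fin 2 → ℚ)
    (hq : ∀ v : Fin N → ℚ, (∀ k, ∑ t, q k 0 ^ b t * q k 1 ^ c t * v t = 0) → v = 0)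
    (p : Fin N → Fin 2 → ℂ) (hp' : AlgebraicIndependent ℚ (fun x : Fin N × Fin 2 => p x.1 x.2))
    {F : P3} (hF : F.IsHomogeneous d) (h : ∀ j, eval (pv (p j)) F = 0) : F = 0 := by
  have hexp := form_expand b c hsurj hinj hF
  have h0 : (fun t => coeff (me d (b t) (c t)) F) = 0 := by
    refine spec (κ := Fin N) (ι := Fin N) rfl
      (fun k t => (X (k, 0) ^ b t * X (k, 1) ^ c t : MvPolynomial (Fin N × Fin 2) ℚ))
      (fun x => q x.1 x.2) ?_ (fun x : Fin N × Fin 2 => p x.1 x.2) hp' _ ?_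
    · intro v hv
      apply hq
      intro k
      have := hv k
      simpa using this
    · intro k
      have h1 := h k
      rw [hexp, map_sum] at h1
      rw [← h1]
      refine Finset.sum_congr rfl fun t _ => ?_
      rw [smul_eval, eval_me]
      simp only [map_mul, map_pow, aeval_X]
      ring
  rw [hexp]
  apply Finset.sum_eq_zero
  intro t _
  rw [show coeff (me d (b t) (c t)) F = 0 from congrFun h0 t, zero_smul]

/-- no line contains three of the points -/
lemma no_line (p : Fin 3 → Fin 2 → ℂ)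
    (hp' : AlgebraicIndependent ℚ (fun x : Fin 3 × Fin 2 => p x.1 x.2))
    {F : P3} (hF : F.IsHomogeneous 1) (h : ∀ j, eval (pv (p j)) F = 0) : F = 0 := by
  refine no_form ![0, 1, 0] ![0, 0, 1] ?_ ?_ ![![0, 0], ![1, 0], ![0, 1]] ?_ p hp' hF h
  · intro x y hxy
    have h1 : ∀ x y : Fin 2, x.val + y.val ≤ 1 → ∃ t : Fin 3,
        (![0, 1, 0] : Fin 3 → ℕ) t = x.val ∧ (![0, 0, 1] : Fin 3 → ℕ) t = y.val := by decide
    exact h1 ⟨x, by omega⟩ ⟨y, by omega⟩ hxy
  · decide
  · intro v hv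
    have h0 := hv 0
    have h1 := hv 1
    have h2 := hv 2
    simp [Fin.sum_univ_succ] at h0 h1 h2
    funext t
    fin_cases t <;> simp <;> linarith

/-- no conic contains six of the points -/
lemma no_conic (p : Fin 6 → Fin 2 → ℂ)
    (hp' : AlgebraicIndependent ℚ (fun x : Fin 6 × Fin 2 => p x.1 x.2))
    {F : P3} (hF : F.IsHomogeneous 2) (h : ∀ j, eval (pv (p j)) F = 0) : F = 0 := by
  refine no_form ![0, 1, 2, 0, 1, 0] ![0, 0, 0, 1, 1, 2] ?_ ?_
    ![![0, 0], ![1, 0], ![2, 0], ![0, 1], ![1, 1], ![0, 2]] ?_ p hp' hF h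
  · intro x y hxy
    have h1 : ∀ x y : Fin 3, x.val + y.val ≤ 2 → ∃ t : Fin 6,
        (![0, 1, 2, 0, 1, 0] : Fin 6 → ℕ) t = x.val ∧
        (![0, 0, 0, 1, 1, 2] : Fin 6 → ℕ) t = y.val := by decide
    exact h1 ⟨x, by omega⟩ ⟨y, by omega⟩ hxy
  · decide
  · intro v hv
    have h0 := hv 0
    have h1 := hv 1
    have h2 := hv 2
    have h3 := hv 3
    have h4 := hv 4
    have h5 := hv 5
    simp [Fin.sum_univ_succ] at h0 h1 h2 h3 h4 h5
    funext t
    fin_cases t <;> simp <;> linarith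

lemma eval_pderiv_me (x : Fin 2 → ℂ) (d b c : ℕ) :
    eval (pv x) (pderiv 1 (monomial (me d b c) (1 : ℂ))) = b * x 0 ^ (b - 1) * x 1 ^ c ∧
    eval (pv x) (pderiv 2 (monomial (me d b c) (1 : ℂ))) = c * x 0 ^ b * x 1 ^ (c - 1) := by
  constructor
  · rw [pderiv_monomial, eval_monomial, Finsupp.prod_fintype _ _ (fun i => pow_zero _),
      Fin.prod_univ_three]
    simp [pv, me_one, me_two, me_zero]
    ring
  · rw [pderiv_monomial, eval_monomial, Finsupp.prod_fintype _ _ (fun i => pow_zero _),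
      Fin.prod_univ_three]
    simp [pv, me_one, me_two, me_zero]
    ring

/-- no cubic through the points is singular at the first one -/
lemma no_sing (p : Fin 8 → Fin 2 → ℂ)
    (hp' : AlgebraicIndependent ℚ (fun x : Fin 8 × Fin 2 => p x.1 x.2))
    {F : P3} (hF : F.IsHomogeneous 3) (h : ∀ j, eval (pv (p j)) F = 0)
    (h1 : eval (pv (p 0)) (pderiv 1 F) = 0) (h2 : eval (pv (p 0)) (pderiv 2 F) = 0) : F = 0 := by
  set b : Fin 10 → ℕ := ![0, 1, 2, 3, 0, 1, 2, 0, 1, 0] with hb
  set c : Fin 10 → ℕ := ![0, 0, 0, 0, 1, 1, 1, 2, 2, 3] with hc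
  have hsurj : ∀ x y, x + y ≤ 3 → ∃ t, b t = x ∧ c t = y := by
    intro x y hxy
    have h1 : ∀ x y : Fin 4, x.val + y.val ≤ 3 → ∃ t : Fin 10,
        (![0, 1, 2, 3, 0, 1, 2, 0, 1, 0] : Fin 10 → ℕ) t = x.val ∧
        (![0, 0, 0, 0, 1, 1, 1, 2, 2, 3] : Fin 10 → ℕ) t = y.val := by decide
    exact h1 ⟨x, by omega⟩ ⟨y, by omega⟩ hxy
  have hinj : ∀ t t', b t = b t' → c t = c t' → t = t' := by
    rw [hb, hc]
    decide
  have hexp := form_expand b c hsurj hinj hF
  have h0 : (fun t => coeff (me 3 (b t) (c t)) F) = 0 := by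
    refine spec (κ := Fin 3 ⊕ Fin 7) (ι := Fin 10) (by simp)
      (fun k t => match k with
        | Sum.inl i => (![X (0, 0) ^ b t * X (0, 1) ^ c t,
            (b t : MvPolynomial (Fin 8 × Fin 2) ℚ) * X (0, 0) ^ (b t - 1) * X (0, 1) ^ c t,
            (c t : MvPolynomial (Fin 8 × Fin 2) ℚ) * X (0, 0) ^ b t * X (0, 1) ^ (c t - 1)] :
            Fin 3 → MvPolynomial (Fin 8 × Fin 2) ℚ) i
        | Sum.inr j => (X (j.succ, 0) ^ b t * X (j.succ, 1) ^ c t : MvPolynomial (Fin 8 × Fin 2) ℚ))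
      (fun x => (![![0, 0], ![1, 0], ![2, 0], ![0, 1], ![0, 2], ![1, 1], ![2, 1], ![1, 2]] :
        Fin 8 → Fin 2 → ℚ) x.1 x.2) ?_ (fun x : Fin 8 × Fin 2 => p x.1 x.2) hp' _ ?_
    · intro v hv
      have e0 := hv (Sum.inl 0)
      have e1 := hv (Sum.inl 1)
      have e2 := hv (Sum.inl 2)
      have f0 := hv (Sum.inr 0)
      have f1 := hv (Sum.inr 1)
      have f2 := hv (Sum.inr 2)
      have f3 := hv (Sum.inr 3)
      have f4 := hv (Sum.inr 4)
      have f5 := hv (Sum.inr 5)
      have f6 := hv (Sum.inr 6)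
      simp [Fin.sum_univ_succ, hb, hc] at e0 e1 e2 f0 f1 f2 f3 f4 f5 f6
      funext t
      fin_cases t <;> simp <;> linarith
    · rintro (i | j)
      · fin_cases i
        · have h3 := h 0
          rw [hexp, map_sum] at h3
          rw [← h3]
          refine Finset.sum_congr rfl fun t _ => ?_
          rw [smul_eval, eval_me]
          simp
          ring
        · have h3 := h1
          rw [hexp, map_sum, map_sum] at h3
          rw [← h3]
          refine Finset.sum_congr rfl fun t _ => ?_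
          rw [Derivation.map_smul, smul_eval, (eval_pderiv_me _ _ _ _).1]
          simp
          ring
        · have h3 := h2
          rw [hexp, map_sum, map_sum] at h3
          rw [← h3]
          refine Finset.sum_congr rfl fun t _ => ?_
          rw [Derivation.map_smul, smul_eval, (eval_pderiv_me _ _ _ _).2]
          simp
          ring
      · have h3 := h j.succ
        rw [hexp, map_sum] at h3
        rw [← h3]
        refine Finset.sum_congr rfl fun t _ => ?_
        rw [smul_eval, eval_me]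
        simp
        ring
  rw [hexp]
  apply Finset.sum_eq_zero
  intro t _
  rw [show coeff (me 3 (b t) (c t)) F = 0 from congrFun h0 t, zero_smul]

/-! ### eight points -/

/-- the coordinates of the points are algebraically independent -/
def GP {n : ℕ} (p : Fin n → Fin 2 → ℂ) : Prop :=
  AlgebraicIndependent ℚ (fun x : Fin n × Fin 2 => p x.1 x.2)

lemma GP.comp {n m : ℕ} {p : Fin n → Fin 2 → ℂ} (h : GP p) (f : Fin m → Fin n)
    (hf : Function.Injective f) : GP (fun j => p (f j)) := by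
  refine AlgebraicIndependent.comp h (fun x : Fin m × Fin 2 => (f x.1, x.2)) ?_
  intro x y hxy
  rw [Prod.mk.injEq] at hxy
  exact Prod.ext (hf hxy.1) hxy.2

lemma isUnit_of_degree_zero {A : P3} (hA : A.IsHomogeneous 0) (h0 : A ≠ 0) : IsUnit A := by
  have h1 : A.totalDegree = 0 := hA.totalDegree h0
  rw [totalDegree_eq_zero_iff_eq_C] at h1
  rw [h1]
  apply IsUnit.map
  apply isUnit_iff_ne_zero.2
  intro h2
  apply h0
  rw [h1, h2, C_0]

/-- a set of indices with at least `n` elements -/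
lemma exists_inj {S : Finset (Fin 8)} {n : ℕ} (h : n ≤ S.card) :
    ∃ f : Fin n → Fin 8, Function.Injective f ∧ ∀ j, f j ∈ S := by
  obtain ⟨T, hT, hcard⟩ := Finset.exists_subset_card_eq h
  exact ⟨T.orderEmbOfFin hcard, (T.orderEmbOfFin hcard).injective,
    fun j => hT (T.orderEmbOfFin_mem hcard j)⟩

lemma aux_line_conic {p : Fin 8 → Fin 2 → ℂ} (hG : GP p) {A B : P3} (hA : A.IsHomogeneous 1)
    (hB : B.IsHomogeneous 2) (hA0 : A ≠ 0) (hB0 : B ≠ 0)
    (h : ∀ j, eval (pv (p j)) (A * B) = 0) : False := by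
  classical
  obtain ⟨SA, hSA⟩ : ∃ SA : Finset (Fin 8), ∀ j, j ∈ SA ↔ eval (pv (p j)) A = 0 :=
    ⟨Finset.univ.filter (fun j => eval (pv (p j)) A = 0), fun j => by simp⟩
  obtain ⟨SB, hSB⟩ : ∃ SB : Finset (Fin 8), ∀ j, j ∈ SB ↔ eval (pv (p j)) B = 0 :=
    ⟨Finset.univ.filter (fun j => eval (pv (p j)) B = 0), fun j => by simp⟩
  have hun : SA ∪ SB = Finset.univ := by
    rw [Finset.eq_univ_iff_forall]
    intro j
    rw [Finset.mem_union, hSA, hSB]
    have h1 := h j
    rw [map_mul] at h1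
    exact mul_eq_zero.1 h1
  have hcA : SA.card ≤ 2 := by
    by_contra hcon
    obtain ⟨f, hf, hfS⟩ := exists_inj (show 3 ≤ SA.card by omega)
    apply hA0
    exact no_line (fun j => p (f j)) (hG.comp f hf) hA (fun j => (hSA _).1 (hfS j))
  have hcB : SB.card ≤ 5 := by
    by_contra hcon
    obtain ⟨f, hf, hfS⟩ := exists_inj (show 6 ≤ SB.card by omega)
    apply hB0
    exact no_conic (fun j => p (f j)) (hG.comp f hf) hB (fun j => (hSB _).1 (hfS j))
  have h8 : (SA ∪ SB).card = 8 := by rw [hun]; rfl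
  have := Finset.card_union_le SA SB
  omega

lemma cubic_irreducible {p : Fin 8 → Fin 2 → ℂ} (hG : GP p) {D : P3} (hD : D.IsHomogeneous 3)
    (hD0 : D ≠ 0) (h : ∀ j, eval (pv (p j)) D = 0) : Irreducible D := by
  constructor
  · intro hu
    have h1 := hD.totalDegree hD0
    have h2 := (isUnit_iff_totalDegree_of_isReduced.1 hu).2
    omega
  · intro A B hAB
    by_contra hcon
    rw [not_or] at hcon
    have hA0 : A ≠ 0 := by rintro rfl; rw [zero_mul] at hAB; exact hD0 hAB
    have hB0 : B ≠ 0 := by rintro rfl; rw [mul_zero] at hAB; exact hD0 hAB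
    have hAh := homog_of_dvd hD hD0 (Dvd.intro B hAB.symm)
    have hBh := homog_of_dvd hD hD0 (Dvd.intro_left A hAB.symm)
    have hdeg := totalDegree_mul_of_isDomain hA0 hB0
    rw [← hAB, hD.totalDegree hD0] at hdeg
    have ha : A.totalDegree ≠ 0 := by
      intro h0
      rw [h0] at hAh
      exact hcon.1 (isUnit_of_degree_zero hAh hA0)
    have hb : B.totalDegree ≠ 0 := by
      intro h0
      rw [h0] at hBh
      exact hcon.2 (isUnit_of_degree_zero hBh hB0)
    rcases (show A.totalDegree = 1 ∧ B.totalDegree = 2 ∨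
      A.totalDegree = 2 ∧ B.totalDegree = 1 by omega) with ⟨h1, h2⟩ | ⟨h1, h2⟩
    · rw [h1] at hAh
      rw [h2] at hBh
      exact aux_line_conic hG hAh hBh hA0 hB0 (fun j => by rw [← hAB]; exact h j)
    · rw [h1] at hAh
      rw [h2] at hBh
      exact aux_line_conic hG hBh hAh hB0 hA0 (fun j => by rw [mul_comm, ← hAB]; exact h j)

lemma cubic_smooth {p : Fin 8 → Fin 2 → ℂ} (hG : GP p) {D : P3} (hD : D.IsHomogeneous 3)
    (hD0 : D ≠ 0) (h : ∀ j, eval (pv (p j)) D = 0) (j : Fin 8) :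
    ∃ i, eval (pv (p j)) (pderiv i D) ≠ 0 := by
  by_contra hcon
  push Not at hcon
  apply hD0
  refine no_sing (fun l => p (Equiv.swap 0 j l))
    (hG.comp (Equiv.swap 0 j) (Equiv.swap 0 j).injective) hD (fun l => h _) ?_ ?_
  · rw [Equiv.swap_apply_left]; exact hcon 1
  · rw [Equiv.swap_apply_left]; exact hcon 2

lemma pv_far {p : Fin 8 → Fin 2 → ℂ} (hG : GP p) {i j : Fin 8} (hij : i ≠ j) :
    Far (pv (p i)) (pv (p j)) := by
  refine ⟨0, 1, ?_⟩
  show (1 : ℂ) * p j 0 ≠ p i 0 * 1
  rw [one_mul, mul_one]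
  intro h
  have := AlgebraicIndependent.injective hG (a₁ := (j, 0)) (a₂ := (i, 0)) h
  exact hij (Prod.mk.inj this).1.symm

lemma pv_ne (x : Fin 2 → ℂ) : pv x ≠ 0 := by
  intro h
  have := congrFun h 0
  simp [pv] at this

end Pool.Agent.Helper52.NP
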