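import Mathlib
import Pool.Agent.Helper52.NP.Pos
import Pool.Agent.Helper52.NP.Mult
import Pool.Agent.Helper52.NP.Comb
import Pool.Agent.Helper52.NP.Dim

set_option autoImplicit false

/-!
# Preliminaries for the two cases
-/

namespace Pool.Agent.Helper52.NP

open MvPolynomial Pool.Agent.Chud Pool.Agent.Helper52.NP.Frame

/-! ### signs -/

lemma sign_key {x y z s u v p q r : ℝ} (hs : 0 < s) (hu : 0 < u) (hv : 0 < v) (hp : 0 ≤ p)
    (hq : 0 ≤ q) (hr : 0 ≤ r) (h1 : -2 * x + p * y + q * z = 0) (h2 : p * x - 2 * y + r * z = 0)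
    (h3 : q * x + r * y - 2 * z = 0) (h : x * s + y * u + z * v = 0) : ¬ 0 < x := by
  intro hx
  have hxs := mul_pos hx hs
  rcases le_or_gt y 0 with hy | hy
  · rcases le_or_gt z 0 with hz | hz
    · have e1 : p * y ≤ 0 := mul_nonpos_of_nonneg_of_nonpos hp hy
      have e2 : q * z ≤ 0 := mul_nonpos_of_nonneg_of_nonpos hq hz
      linarith
    · have hzv := mul_pos hz hv
      have hyu : y * u < 0 := by linarith
      have hy' : y < 0 := by
        by_contra hcon
        have : 0 ≤ y * u := mul_nonneg (not_lt.1 hcon) hu.le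
        linarith
      have e1 := mul_nonneg hp hx.le
      have e2 := mul_nonneg hr hz.le
      linarith
  · have hyu := mul_pos hy hu
    have hzv : z * v < 0 := by linarith
    have hz' : z < 0 := by
      by_contra hcon
      have : 0 ≤ z * v := mul_nonneg (not_lt.1 hcon) hv.le
      linarith
    have e1 := mul_nonneg hq hx.le
    have e2 := mul_nonneg hr hy.le
    linarith

lemma sign3 {x y z s u v p q r : ℝ} (hs : 0 < s) (hu : 0 < u) (hv : 0 < v) (hp : 0 ≤ p)
    (hq : 0 ≤ q) (hr : 0 ≤ r) (h1 : -2 * x + p * y + q * z = 0) (h2 : p * x - 2 * y + r * z = 0)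
    (h3 : q * x + r * y - 2 * z = 0) (h : x * s + y * u + z * v = 0) : x = 0 ∧ y = 0 ∧ z = 0 := by
  have a1 := sign_key hs hu hv hp hq hr h1 h2 h3 h
  have a2 := sign_key (x := -x) (y := -y) (z := -z) hs hu hv hp hq hr (by linarith) (by linarith)
    (by linarith) (by linarith)
  have b1 := sign_key (x := y) (y := x) (z := z) hu hs hv hp hr hq (by linarith) (by linarith)
    (by linarith) (by linarith)
  have b2 := sign_key (x := -y) (y := -x) (z := -z) hu hs hv hp hr hq (by linarith) (by linarith)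
    (by linarith) (by linarith)
  have c1 := sign_key (x := z) (y := x) (z := y) hv hs hu hq hr hp (by linarith) (by linarith)
    (by linarith) (by linarith)
  have c2 := sign_key (x := -z) (y := -x) (z := -y) hv hs hu hq hr hp (by linarith) (by linarith)
    (by linarith) (by linarith)
  refine ⟨?_, ?_, ?_⟩ <;> apply le_antisymm <;> linarith

lemma sign2_key {α β ρ d e q u v : ℝ} (hd : 0 < d) (he : 0 < e) (hq : 0 ≤ q) (hu : 0 ≤ u)
    (hv : 0 ≤ v) (h : α * d + β * e = 0) (h1 : -2 * α + β * q = ρ * u)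
    (h2 : α * q - 2 * β = ρ * v) : ¬ 0 < α := by
  intro hα
  have h3 := mul_pos hα hd
  have hβ : β < 0 := by
    by_contra hcon
    have := mul_nonneg (not_lt.1 hcon) he.le
    linarith
  have h4 : β * q ≤ 0 := mul_nonpos_of_nonpos_of_nonneg hβ.le hq
  have h5 : 0 ≤ α * q := mul_nonneg hα.le hq
  rcases le_or_gt ρ 0 with hρ | hρ
  · have := mul_nonpos_of_nonpos_of_nonneg hρ hv
    linarith
  · have := mul_nonneg hρ.le hu
    linarith

lemma sign2 {α β ρ d e q u v : ℝ} (hd : 0 < d) (he : 0 < e) (hq : 0 ≤ q) (hu : 0 ≤ u)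
    (hv : 0 ≤ v) (h : α * d + β * e = 0) (h1 : -2 * α + β * q = ρ * u)
    (h2 : α * q - 2 * β = ρ * v) : α = 0 ∧ β = 0 := by
  have a1 := sign2_key hd he hq hu hv h h1 h2
  have a2 := sign2_key (α := -α) (β := -β) (ρ := -ρ) hd he hq hu hv (by linarith) (by linarith)
    (by linarith)
  have hα : α = 0 := by apply le_antisymm <;> linarith
  refine ⟨hα, ?_⟩
  rw [hα, zero_mul, zero_add] at h
  exact (mul_eq_zero.1 h).resolve_right he.ne'

/-! ### normalization -/

lemma normalize {A : P3} {n : ℕ} (hA0 : A ≠ 0) (hA : A.IsHomogeneous n) :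
    ∃ (c : ℂ) (m0 : Fin 3 →₀ ℕ), c ≠ 0 ∧ coeff m0 (C c * A) = 1 ∧ (C c * A).IsHomogeneous n ∧
      C c * A ≠ 0 := by
  obtain ⟨m0, hm0⟩ := ne_zero_iff.1 hA0
  have hc : (coeff m0 A)⁻¹ ≠ 0 := inv_ne_zero hm0
  refine ⟨(coeff m0 A)⁻¹, m0, hc, ?_, ?_, ?_⟩
  · rw [coeff_C_mul, inv_mul_cancel₀ hm0]
  · have := (isHomogeneous_C (Fin 3) (coeff m0 A)⁻¹).mul hA
    rwa [zero_add] at this
  · exact mul_ne_zero (by rw [Ne, C_eq_zero]; exact hc) hA0

/-- a normalized cubic with given conditions -/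
lemma exists_cubic {ι : Type} [Fintype ι] [DecidableEq ι] (M : ι → Frame) (k l : ι → ℕ)
    (hl : ∀ i, l i ≤ k i) (hn : ∑ p, (k p * (k p + 1) + l p * (l p + 1)) < 20) :
    ∃ A : P3, A ≠ 0 ∧ A.IsHomogeneous 3 ∧ (∀ p, Van (k p) (l p) ((M p).φ A)) ∧
      ∃ m0, coeff m0 A = 1 := by
  obtain ⟨A, hA0, hA, hV⟩ := exists_form M k l hl (n := 3) (by norm_num; exact hn)
  obtain ⟨c, m0, hc, h1, h2, h3⟩ := normalize hA0 hA
  refine ⟨C c * A, h3, h2, ?_, m0, h1⟩
  intro p
  rw [map_mul]
  exact (hV p).mul_left _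

/-! ### simple points of cubics -/

lemma o1_one_of_smooth {M : Frame} {D : P3} (hD : D.IsHomogeneous 3) (hD0 : D ≠ 0)
    (h0 : eval M.o D = 0) (h : ∃ i, eval M.o (pderiv i D) ≠ 0) : o1 M D = 1 := by
  apply le_antisymm
  · by_contra hcon
    obtain ⟨i, hi⟩ := h
    apply hi
    have h1 : Van 2 0 (M.φ D) := by
      rw [van_iff hD hD0]
      have := o1_le_o2 (M := M) hD hD0
      omega
    have h2 := M.van_pderiv hD (Nat.zero_le _) h1 i
    exact (van_one_iff _ _).1 h2
  · exact (one_le_o1 hD hD0).2 h0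

lemma smooth_of_o1 {M : Frame} {D : P3} (hD : D.IsHomogeneous 3) (hD0 : D ≠ 0)
    (h : o1 M D = 1) : ∃ i, eval M.o (pderiv i D) ≠ 0 := by
  by_contra hcon
  push Not at hcon
  have h0 : eval M.o D = 0 := (one_le_o1 hD hD0).1 h.ge
  have h2 : Van 2 0 (M.φ D) := by
    intro e he
    have hc0 : coeff 0 (M.φ D) = 0 := by rw [coeff_zero_φ]; exact h0
    have hc1 : coeff (Finsupp.single 0 1) (M.φ D) = 0 := by
      have h3 : coeff 0 (pderiv 0 (M.φ D)) = 0 := by
        rw [pderiv0_φ, coeff_sum]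
        apply Finset.sum_eq_zero
        intro i _
        rw [coeff_C_mul, coeff_zero_φ, hcon i, mul_zero]
      rw [coeff_pderiv] at h3
      simpa using h3
    have hc2 : coeff (Finsupp.single 1 1) (M.φ D) = 0 := by
      have h3 : coeff 0 (pderiv 1 (M.φ D)) = 0 := by
        rw [pderiv1_φ, coeff_sum]
        apply Finset.sum_eq_zero
        intro i _
        rw [coeff_C_mul, coeff_zero_φ, hcon i, mul_zero]
      rw [coeff_pderiv] at h3
      simpa using h3
    have he' : (e 0 = 0 ∧ e 1 = 0) ∨ (e 0 = 1 ∧ e 1 = 0) ∨ (e 0 = 0 ∧ e 1 = 1) := by omega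
    rcases he' with ⟨h3, h4⟩ | ⟨h3, h4⟩ | ⟨h3, h4⟩
    · have : e = 0 := by
        ext i
        fin_cases i
        · exact h3
        · exact h4
      rw [this]; exact hc0
    · have : e = Finsupp.single 0 1 := by
        ext i
        fin_cases i
        · simpa using h3
        · simpa using h4
      rw [this]; exact hc1
    · have : e = Finsupp.single 1 1 := by
        ext i
        fin_cases i
        · simpa using h3
        · simpa using h4
      rw [this]; exact hc2
  rw [van_iff hD hD0] at h2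
  omega

/-! ### the positivity of the anticanonical class -/

section
variable {p : Fin 8 → Fin 2 → ℂ} (hG : GP p) (M : Fin 8 → Frame) (hM : ∀ j, (M j).o = pv (p j))
include hG hM

lemma sepd8 : Sepd M := by
  intro i j hij
  rw [hM i, hM j]
  exact pv_far hG hij

lemma cubic_o1 {D : P3} (hD : D.IsHomogeneous 3) (hD0 : D ≠ 0)
    (h : ∀ j, eval (pv (p j)) D = 0) (j : Fin 8) : o1 (M j) D = 1 := by
  apply o1_one_of_smooth hD hD0
  · rw [hM j]; exact h j
  · rw [hM j]; exact cubic_smooth hG hD hD0 h j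

lemma s1_aux {F : P3} {d : ℕ} (hF : F.IsHomogeneous d) (hirr : Irreducible F) :
    ∑ j : Fin 8, o1 (M j) F + 1 ≤ 3 * d := by
  have hd := deg_pos hF hirr
  obtain ⟨Q, hQ, hQF⟩ := exists_frames M (sepd8 hG M hM) hF hd 1
  obtain ⟨A, hA0, hA, hAV, -⟩ := exists_cubic (Sum.elim M Q) (fun _ => 1) (fun _ => 0)
    (fun _ => Nat.zero_le _) (by simp)
  have hAp : ∀ j, eval (pv (p j)) A = 0 := by
    intro j
    rw [← hM j, ← van_one_iff]
    exact hAV (Sum.inl j)
  have hAirr := cubic_irreducible hG hA hA0 hAp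
  by_cases hass : Associated A F
  · obtain ⟨u, hu⟩ := hass
    obtain ⟨c, hc, hc'⟩ := eq_C_of_isUnit u.isUnit
    rw [hc', mul_comm] at hu
    have h1 : ∀ j, o1 (M j) F = 1 := by
      intro j
      rw [← hu, (o1_unit hc hA hA0).1]
      exact cubic_o1 hG M hM hA hA0 hAp j
    have h2 : d = 3 := by
      have h3 := (isHomogeneous_C (Fin 3) c).mul hA
      rw [hu, zero_add] at h3
      exact hF.inj_right h3 hirr.ne_zero
    rw [h2, Finset.sum_congr rfl fun j _ => h1 j]
    simp
  · have hrel : IsRelPrime A F := by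
      rw [hAirr.isRelPrime_iff_not_dvd]
      intro hdvd
      exact hass ((hAirr.dvd_irreducible_iff_associated hirr).1 hdvd)
    have hb := bezout (Sum.elim M Q) hQ hA hF hirr.ne_zero hrel (fun _ => 1) (fun _ => 0)
      (Sum.elim (fun j => o1 (M j) F) (fun _ => 1)) (fun _ => 0) (fun _ => Nat.zero_le _)
      (fun _ => Nat.zero_le _) hAV (by
        rintro (j | j)
        · show Van (o1 (M j) F) 0 ((M j).φ F)
          rw [van_iff hF hirr.ne_zero]
          have := o1_le_o2 (M := M j) hF hirr.ne_zero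
          omega
        · exact hQF j)
    rw [Fintype.sum_sum_type] at hb
    simp at hb
    exact hb

end

end Pool.Agent.Helper52.NP
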