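import Mathlib
import Pool.Agent.Helper52.NP.Cases

set_option autoImplicit false

/-!
# The case of a point of the plane different from the eight points
-/

namespace Pool.Agent.Helper52.NP

open MvPolynomial Pool.Agent.Chud Pool.Agent.Helper52.NP.Frame

section
variable {p : Fin 8 → Fin 2 → ℂ} (hG : GP p) (M : Ix → Frame) (hM : Sepd M)
  (hMp : ∀ j, (M (some j)).o = pv (p j))
set_option linter.unusedSectionVars false
include hG hM hMp

lemma existsD_P : ∃ D : P3, D ≠ 0 ∧ D.IsHomogeneous 3 ∧ (∀ o, 1 ≤ o1 (M o) D) ∧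
    ∃ m0, coeff m0 D = 1 := by
  obtain ⟨A, hA0, hA, hAV, hm⟩ := exists_cubic M (fun _ => 1) (fun _ => 0)
    (fun _ => Nat.zero_le _) (by rw [Fintype.sum_option]; simp)
  refine ⟨A, hA0, hA, fun o => ?_, hm⟩
  exact ((van_iff hA hA0 1 0).1 (hAV o)).1

lemma van_o1 {F : P3} {d : ℕ} (hF : F.IsHomogeneous d) (hF0 : F ≠ 0) (o : Ix) :
    Van (o1 (M o) F) 0 ((M o).φ F) := by
  rw [van_iff hF hF0]
  exact ⟨le_rfl, by rw [add_zero]; exact o1_le_o2 hF hF0⟩

/-- the multiplicities at the nine points -/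
noncomputable def packP (D : P3) (hD0 : D ≠ 0) (hD : D.IsHomogeneous 3)
    (hDo : ∀ o, 1 ≤ o1 (M o) D) : Pack where
  m F o := o1 (M o) F
  mul hF hG' hF0 hG0 o := o1_mul hF hG' hF0 hG0
  bez := by
    intro F G a b hF hG' hF0 hG0 hrel
    have := bezout M hM hF hG' hG0 hrel (fun o => o1 (M o) F) (fun _ => 0)
      (fun o => o1 (M o) G) (fun _ => 0) (fun _ => Nat.zero_le _) (fun _ => Nat.zero_le _)
      (fun o => van_o1 hG M hM hMp hF hF0 o) (fun o => van_o1 hG M hM hMp hG' hG0 o)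
    simpa using this
  gen := by
    intro F d hF hirr
    have := genus M hM hF hirr (fun o => o1 (M o) F) (fun _ => 0) (fun _ => Nat.zero_le _)
      (fun o => van_o1 hG M hM hMp hF hirr.ne_zero o)
    simpa using this
  s1 := by
    intro F d hF hirr
    exact s1_aux hG (fun j => M (some j)) hMp hF hirr
  D := D
  hD := hD
  irrD := cubic_irreducible hG hD hD0 (fun j => by
    rw [← hMp j]; exact (one_le_o1 hD hD0).1 (hDo (some j)))
  mD := fun j => cubic_o1 hG (fun j => M (some j)) hMp hD hD0 (fun j => by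
    rw [← hMp j]; exact (one_le_o1 hD hD0).1 (hDo (some j))) j
  m1 := hDo none

end

/-- the intersection number of two curves -/
noncomputable def inter (P : Pack) (F G : P3) (a b : ℕ) : ℤ :=
  (a : ℤ) * b - ∑ o, (P.m F o : ℤ) * P.m G o

lemma inter_nonneg (P : Pack) {F G : P3} {a b : ℕ} (hF : P.Neg2 F a) (hG : P.Neg2 G b)
    (h : ¬ Associated F G) : 0 ≤ inter P F G a b := by
  have hrel : IsRelPrime F G := by
    rw [hF.2.1.isRelPrime_iff_not_dvd]
    intro hdvd
    exact h ((hF.2.1.dvd_irreducible_iff_associated hG.2.1).1 hdvd)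
  have h1 := P.bez hF.1 hG.1 hF.2.1.ne_zero hG.2.1.ne_zero hrel
  have h2 : ∑ o, (P.m F o : ℤ) * P.m G o ≤ (a : ℤ) * b := by exact_mod_cast h1
  unfold inter
  linarith

lemma inter_self (P : Pack) {F : P3} {a : ℕ} (hF : P.Neg2 F a) : inter P F F a a = -2 := by
  have h1 := hF.2.2.2
  have h2 : ∑ o, (P.m F o : ℤ) * P.m F o = (a : ℤ) * a + 2 := by exact_mod_cast h1
  unfold inter
  linarith

lemma inter_comm (P : Pack) (F G : P3) (a b : ℕ) : inter P F G a b = inter P G F b a := by
  unfold inter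
  rw [mul_comm]
  congr 1
  exact Finset.sum_congr rfl fun o _ => mul_comm _ _

/-- the last multiplicity of a `(-2)`-curve is positive -/
lemma none_pos (P : Pack) {F : P3} {a : ℕ} (hF : P.Neg2 F a) : 1 ≤ P.m F none := by
  have h1 := P.s1 hF.1 hF.2.1
  have h2 := hF.2.2.1
  rw [Fintype.sum_option] at h2
  omega

section
variable {p : Fin 8 → Fin 2 → ℂ} (hG : GP p) (M : Ix → Frame) (hM : Sepd M)
  (hMp : ∀ j, (M (some j)).o = pv (p j)) (D : P3) (hD0 : D ≠ 0) (hD : D.IsHomogeneous 3)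
  (hDo : ∀ o, 1 ≤ o1 (M o) D) (hnorm : ∃ m0, coeff m0 D = 1)
include hnorm

/-- At most two `(-2)`-curves. -/
lemma few_P (hone : (packP hG M hM hMp D hD0 hD hDo).m D none = 1) (S : Finset P3)
    (hS : ∀ Γ ∈ S, (packP hG M hM hMp D hD0 hD hDo).Neg2 Γ Γ.totalDegree)
    (hS2 : ∀ Γ ∈ S, ∀ Γ' ∈ S, Γ ≠ Γ' → ¬ Associated Γ Γ') : S.card ≤ 2 := by
  classical
  set P := packP hG M hM hMp D hD0 hD hDo with hP
  have hPm : ∀ F o, P.m F o = o1 (M o) F := fun _ _ => rfl
  have hPD : P.D = D := rfl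
  by_contra hcon
  obtain ⟨F1, h1, F2, h2, F3, h3, h12, h13, h23⟩ := Finset.two_lt_card.1 (not_le.1 hcon)
  have n1 := hS F1 h1
  have n2 := hS F2 h2
  have n3 := hS F3 h3
  have q12 := inter_nonneg P n1 n2 (hS2 _ h1 _ h2 h12)
  have q13 := inter_nonneg P n1 n3 (hS2 _ h1 _ h3 h13)
  have q23 := inter_nonneg P n2 n3 (hS2 _ h2 _ h3 h23)
  have q11 := inter_self P n1
  have q22 := inter_self P n2
  have q33 := inter_self P n3
  have t1 := none_pos P n1
  have t2 := none_pos P n2
  have t3 := none_pos P n3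
  -- `D` is smooth at the nine points
  have hDone : ∀ o, o1 (M o) D = 1 := by
    intro o
    cases o with
    | none => exact hone
    | some j => exact P.mD j
  have hDs : ∀ o, ∃ i, eval (M o).o (pderiv i D) ≠ 0 := fun o => smooth_of_o1 hD hD0 (hDone o)
  have hDe : ∀ o, eval (M o).o D = 0 := fun o => (one_le_o1 hD hD0).1 (hDo o)
  obtain ⟨ω, hω1, hω2⟩ := relations hD hD0 M hM hDe hDs
  -- the relations
  have hrel : ∀ δ : Derivation ℚ ℂ ℂ, (∀ m, δ (coeff m D) = 0) → ∀ (F : P3) (d : ℕ),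
      P.Neg2 F d → ∑ o, (P.m F o : ℂ) * ω o δ = 0 := by
    intro δ hδ F d hF
    refine hω1 δ hδ d (fun o => o1 (M o) F) (fun _ => 0) (fun o => o1 (M o) F)
      (deg_pos hF.1 hF.2.1) F hF.1 (fun o => van_o1 hG M hM hMp hF.1 hF.2.1.ne_zero o)
      (fun o => Or.inl ⟨rfl, rfl⟩) ?_ hF.2.2.1
    intro v hv hvD hvF
    by_contra hn
    push Not at hn
    obtain ⟨Q, hQ⟩ := exists_frame hv
    have hsep : Sepd (Sum.elim M (fun _ : Unit => Q)) := by
      rintro (i | i) (j | j) hij
      · exact hM i j (fun h => hij (by rw [h]))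
      · show Far (M i).o Q.o
        rw [hQ]; exact hn i
      · show Far Q.o (M j).o
        rw [hQ]; exact (hn j).symm
      · exact absurd rfl hij
    have hna : ¬ Associated D F := by
      intro hass
      obtain ⟨e1, e2⟩ := P.m_assoc hD hD0 hass
      have e3 := hF.1.inj_right e2 hF.2.1.ne_zero
      have e4 := hF.2.2.2
      rw [e1, e3] at e4
      simp only [hPm, hDone] at e4
      simp at e4
    have hDirr : Irreducible D := P.irrD
    have hrel' : IsRelPrime D F := by
      rw [hDirr.isRelPrime_iff_not_dvd]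
      intro hdvd
      exact hna ((hDirr.dvd_irreducible_iff_associated hF.2.1).1 hdvd)
    have hb := bezout (Sum.elim M (fun _ : Unit => Q)) hsep hD hF.1 hF.2.1.ne_zero hrel'
      (Sum.elim (fun _ => 1) (fun _ => 1)) (fun _ => 0)
      (Sum.elim (fun o => o1 (M o) F) (fun _ => 1)) (fun _ => 0) (fun _ => Nat.zero_le _)
      (fun _ => Nat.zero_le _) (by
        rintro (o | o)
        · show Van 1 0 ((M o).φ D)
          rw [van_one_iff]; exact hDe o
        · show Van 1 0 (Q.φ D)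
          rw [van_one_iff, hQ]; exact hvD) (by
        rintro (o | o)
        · exact van_o1 hG M hM hMp hF.1 hF.2.1.ne_zero o
        · show Van 1 0 (Q.φ F)
          rw [van_one_iff, hQ]; exact hvF)
    rw [Fintype.sum_sum_type] at hb
    have e5 : ∑ o, o1 (M o) F = 3 * d := hF.2.2.1
    rw [Fintype.sum_option] at e5
    simp at hb
    omega
  -- elimination of the last point
  have hnot := no_two_relations p hG hD hnorm (fun j => ω (some j)) (by
      intro δ hδ j hj c
      have e1 := hω2 δ hδ (some j) hj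
      have e2 : (M (some j)).o 0 = 1 := by rw [hMp j]; rfl
      fin_cases c
      · have e3 := e1 1 0 e2
        rw [hMp j] at e3
        exact e3
      · have e3 := e1 2 0 e2
        rw [hMp j] at e3
        exact e3)
    (fun j => (P.m F1 none : ℂ) * P.m F2 (some j) - (P.m F2 none : ℂ) * P.m F1 (some j))
    (fun j => (P.m F1 none : ℂ) * P.m F3 (some j) - (P.m F3 none : ℂ) * P.m F1 (some j)) (by
      intro δ hδ
      have r1 := hrel δ hδ F1 _ n1
      have r2 := hrel δ hδ F2 _ n2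
      have r3 := hrel δ hδ F3 _ n3
      rw [Fintype.sum_option] at r1 r2 r3
      constructor
      · have : ∑ j, ((P.m F1 none : ℂ) * P.m F2 (some j) - (P.m F2 none : ℂ) * P.m F1 (some j)) *
            ω (some j) δ = (P.m F1 none : ℂ) * ∑ j, (P.m F2 (some j) : ℂ) * ω (some j) δ -
            (P.m F2 none : ℂ) * ∑ j, (P.m F1 (some j) : ℂ) * ω (some j) δ := by
          rw [Finset.mul_sum, Finset.mul_sum, ← Finset.sum_sub_distrib]
          exact Finset.sum_congr rfl fun j _ => by ring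
        rw [this]
        linear_combination (P.m F1 none : ℂ) * r2 - (P.m F2 none : ℂ) * r1
      · have : ∑ j, ((P.m F1 none : ℂ) * P.m F3 (some j) - (P.m F3 none : ℂ) * P.m F1 (some j)) *
            ω (some j) δ = (P.m F1 none : ℂ) * ∑ j, (P.m F3 (some j) : ℂ) * ω (some j) δ -
            (P.m F3 none : ℂ) * ∑ j, (P.m F1 (some j) : ℂ) * ω (some j) δ := by
          rw [Finset.mul_sum, Finset.mul_sum, ← Finset.sum_sub_distrib]
          exact Finset.sum_congr rfl fun j _ => by ring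
        rw [this]
        linear_combination (P.m F1 none : ℂ) * r3 - (P.m F3 none : ℂ) * r1)
  rw [LinearIndependent.pair_iff] at hnot
  push Not at hnot
  obtain ⟨s, t, hst, hst'⟩ := hnot
  -- the linear dependence of the three classes
  obtain ⟨x, hx⟩ : ∃ x : ℂ, x = -(s * P.m F2 none + t * P.m F3 none) := ⟨_, rfl⟩
  obtain ⟨y, hy⟩ : ∃ y : ℂ, y = s * P.m F1 none := ⟨_, rfl⟩
  obtain ⟨z, hz⟩ : ∃ z : ℂ, z = t * P.m F1 none := ⟨_, rfl⟩
  have hcomb : ∀ o, x * P.m F1 o + y * P.m F2 o + z * P.m F3 o = 0 := by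
    intro o
    cases o with
    | none => rw [hx, hy, hz]; ring
    | some j =>
      have e := congrFun hst j
      simp only [Pi.add_apply, Pi.smul_apply, smul_eq_mul, Pi.zero_apply] at e
      rw [hx, hy, hz]
      linear_combination e
  have hdeg : x * (F1.totalDegree : ℂ) + y * F2.totalDegree + z * F3.totalDegree = 0 := by
    have e1 : ((∑ o, P.m F1 o : ℕ) : ℂ) = 3 * F1.totalDegree := by
      rw [n1.2.2.1]; push_cast; rfl
    have e2 : ((∑ o, P.m F2 o : ℕ) : ℂ) = 3 * F2.totalDegree := by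
      rw [n2.2.2.1]; push_cast; rfl
    have e3 : ((∑ o, P.m F3 o : ℕ) : ℂ) = 3 * F3.totalDegree := by
      rw [n3.2.2.1]; push_cast; rfl
    push_cast at e1 e2 e3
    have e4 : x * (∑ o, (P.m F1 o : ℂ)) + y * (∑ o, (P.m F2 o : ℂ)) +
        z * (∑ o, (P.m F3 o : ℂ)) = 0 := by
      rw [Finset.mul_sum, Finset.mul_sum, Finset.mul_sum, ← Finset.sum_add_distrib,
        ← Finset.sum_add_distrib]
      exact Finset.sum_eq_zero fun o _ => hcomb o
    rw [e1, e2, e3] at e4
    linear_combination (1 / 3 : ℂ) * e4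
  have hint : ∀ (F : P3) (d : ℕ), x * (inter P F1 F F1.totalDegree d : ℂ) +
      y * (inter P F2 F F2.totalDegree d : ℂ) + z * (inter P F3 F F3.totalDegree d : ℂ) = 0 := by
    intro F d
    unfold inter
    push_cast
    have e1 : x * (∑ o, (P.m F1 o : ℂ) * P.m F o) + y * (∑ o, (P.m F2 o : ℂ) * P.m F o) +
        z * (∑ o, (P.m F3 o : ℂ) * P.m F o) = 0 := by
      rw [Finset.mul_sum, Finset.mul_sum, Finset.mul_sum, ← Finset.sum_add_distrib,
        ← Finset.sum_add_distrib]
      refine Finset.sum_eq_zero fun o _ => ?_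
      linear_combination (P.m F o : ℂ) * hcomb o
    linear_combination (d : ℂ) * hdeg - e1
  have i1 := hint F1 F1.totalDegree
  have i2 := hint F2 F2.totalDegree
  have i3 := hint F3 F3.totalDegree
  rw [q11, inter_comm P F2 F1, inter_comm P F3 F1] at i1
  rw [q22, inter_comm P F3 F2] at i2
  rw [q33] at i3
  have i0 := hcomb none
  obtain ⟨a, ha⟩ : ∃ a : ℤ, a = inter P F1 F2 F1.totalDegree F2.totalDegree := ⟨_, rfl⟩
  obtain ⟨b, hb⟩ : ∃ b : ℤ, b = inter P F1 F3 F1.totalDegree F3.totalDegree := ⟨_, rfl⟩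
  obtain ⟨c, hc⟩ : ∃ c : ℤ, c = inter P F2 F3 F2.totalDegree F3.totalDegree := ⟨_, rfl⟩
  rw [← ha] at i1 i2 q12
  rw [← hb] at i1 i3 q13
  rw [← hc] at i2 i3 q23
  obtain ⟨u1, hu1⟩ : ∃ u : ℕ, u = P.m F1 none := ⟨_, rfl⟩
  obtain ⟨u2, hu2⟩ : ∃ u : ℕ, u = P.m F2 none := ⟨_, rfl⟩
  obtain ⟨u3, hu3⟩ : ∃ u : ℕ, u = P.m F3 none := ⟨_, rfl⟩
  rw [← hu1] at t1 hy hz
  rw [← hu2] at t2
  rw [← hu3] at t3
  rw [← hu1, ← hu2, ← hu3] at i0
  have ht1 : (0 : ℝ) < u1 := by exact_mod_cast t1
  have ht2 : (0 : ℝ) < u2 := by exact_mod_cast t2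
  have ht3 : (0 : ℝ) < u3 := by exact_mod_cast t3
  have ha0 : (0 : ℝ) ≤ a := by exact_mod_cast q12
  have hb0 : (0 : ℝ) ≤ b := by exact_mod_cast q13
  have hc0 : (0 : ℝ) ≤ c := by exact_mod_cast q23
  have hre := sign3 (x := x.re) (y := y.re) (z := z.re) ht1 ht2 ht3 ha0 hb0 hc0
    (by have := congrArg Complex.re i1; simp at this; linarith)
    (by have := congrArg Complex.re i2; simp at this; linarith)
    (by have := congrArg Complex.re i3; simp at this; linarith)
    (by have := congrArg Complex.re i0; simp at this; linarith)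
  have him := sign3 (x := x.im) (y := y.im) (z := z.im) ht1 ht2 ht3 ha0 hb0 hc0
    (by have := congrArg Complex.im i1; simp at this; linarith)
    (by have := congrArg Complex.im i2; simp at this; linarith)
    (by have := congrArg Complex.im i3; simp at this; linarith)
    (by have := congrArg Complex.im i0; simp at this; linarith)
  have hy0 : y = 0 := Complex.ext hre.2.1 him.2.1
  have hz0 : z = 0 := Complex.ext hre.2.2 him.2.2
  have hu0 : (u1 : ℂ) ≠ 0 := by
    have : u1 ≠ 0 := by omega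
    exact_mod_cast this
  have hs0 : s = 0 := by
    rw [hy] at hy0
    exact (mul_eq_zero.1 hy0).resolve_right hu0
  have ht0 : t = 0 := by
    rw [hz] at hz0
    exact (mul_eq_zero.1 hz0).resolve_right hu0
  exact hst' hs0 ht0

end

/-- **Case of a point of the plane.** -/
theorem caseP {p : Fin 8 → Fin 2 → ℂ} (hG : GP p) (M : Ix → Frame) (hM : Sepd M)
    (hMp : ∀ j, (M (some j)).o = pv (p j)) {F : P3} {d : ℕ} (hF : F.IsHomogeneous d)
    (hF0 : F ≠ 0) (hsq : Squarefree F) :
    -4 ≤ (d : ℤ) * d + 3 * d - ∑ o, (o1 (M o) F : ℤ) * (o1 (M o) F + 1) := by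
  obtain ⟨D, hD0, hD, hDo, hnorm⟩ := existsD_P hG M hM hMp
  have h := (packP hG M hM hMp D hD0 hD hDo).bound 2
    (fun hone S hS hS2 => few_P hG M hM hMp D hD0 hD hDo hnorm hone S hS hS2) hF hF0 hsq
  rcases h with h | h
  · exact h.1
  · have := h.1
    norm_num at this
    exact this

end Pool.Agent.Helper52.NP
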