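import Mathlib
import Pool.Agent.Helper52.NP.CaseP

set_option autoImplicit false

/-!
# The case of a point infinitely near to one of the eight points
-/

namespace Pool.Agent.Helper52.NP

open MvPolynomial Pool.Agent.Chud Pool.Agent.Helper52.NP.Frame

/-- the multiplicity at the infinitely near point -/
noncomputable def oi (M : Frame) (F : P3) : ℕ := o2 M F - o1 M F

section
variable {p : Fin 8 → Fin 2 → ℂ} (hG : GP p) (M : Fin 8 → Frame) (i0 : Fin 8)
  (hMp : ∀ j, (M j).o = pv (p j))
set_option linter.unusedSectionVars false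
include hG hMp

/-- the second multiplicities -/
noncomputable def ll (M : Fin 8 → Frame) (i0 : Fin 8) (F : P3) (j : Fin 8) : ℕ :=
  if j = i0 then oi (M j) F else 0

omit hG hMp in
lemma sum_ll (M : Fin 8 → Frame) (i0 : Fin 8) (F : P3) (f : ℕ → ℕ) (hf : f 0 = 0) :
    ∑ j, f (ll M i0 F j) = f (oi (M i0) F) := by
  rw [Finset.sum_eq_single i0]
  · unfold ll; rw [if_pos rfl]
  · intro j _ hj
    unfold ll; rw [if_neg hj, hf]
  · intro h; exact absurd (Finset.mem_univ _) h

omit hG hMp in
lemma ll_le {F : P3} {d : ℕ} (hF : F.IsHomogeneous d) (hF0 : F ≠ 0) (j : Fin 8) :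
    ll M i0 F j ≤ o1 (M j) F := by
  unfold ll
  split_ifs
  · unfold oi
    have := o2_le (M := M j) hF hF0
    omega
  · exact Nat.zero_le _

omit hG hMp in
lemma van_ll {F : P3} {d : ℕ} (hF : F.IsHomogeneous d) (hF0 : F ≠ 0) (j : Fin 8) :
    Van (o1 (M j) F) (ll M i0 F j) ((M j).φ F) := by
  rw [van_iff hF hF0]
  refine ⟨le_rfl, ?_⟩
  have := o1_le_o2 (M := M j) hF hF0
  unfold ll oi
  split_ifs <;> omega

omit hG in
lemma existsD_I : ∃ D : P3, D ≠ 0 ∧ D.IsHomogeneous 3 ∧ (∀ j, eval (pv (p j)) D = 0) ∧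
    Van 1 1 ((M i0).φ D) ∧ ∃ m0, coeff m0 D = 1 := by
  obtain ⟨A, hA0, hA, hAV, hm⟩ := exists_cubic M (fun _ => 1) (fun j => if j = i0 then 1 else 0)
    (fun j => by split_ifs <;> norm_num) (by
      rw [Finset.sum_add_distrib]
      have : ∑ j : Fin 8, (if j = i0 then 1 else 0) * ((if j = i0 then 1 else 0) + 1) = 2 := by
        rw [Finset.sum_eq_single i0]
        · simp
        · intro j _ hj; simp [hj]
        · intro h; exact absurd (Finset.mem_univ _) h
      rw [this]
      simp)
  refine ⟨A, hA0, hA, fun j => ?_, ?_, hm⟩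
  · rw [← hMp j]
    have := hAV j
    rw [van_iff hA hA0] at this
    exact (one_le_o1 hA hA0).1 this.1
  · have := hAV i0
    rwa [if_pos rfl] at this

/-- the multiplicities at the eight points and at the infinitely near point -/
noncomputable def packI (D : P3) (hD0 : D ≠ 0) (hD : D.IsHomogeneous 3)
    (hDp : ∀ j, eval (pv (p j)) D = 0) (hDV : Van 1 1 ((M i0).φ D)) : Pack where
  m F o := match o with
    | some j => o1 (M j) F
    | none => oi (M i0) F
  mul := by
    intro F G a b hF hG' hF0 hG0 o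
    cases o with
    | some j => exact o1_mul hF hG' hF0 hG0
    | none =>
      show oi (M i0) (F * G) = oi (M i0) F + oi (M i0) G
      unfold oi
      rw [o1_mul hF hG' hF0 hG0, o2_mul hF hG' hF0 hG0]
      have h1 := o1_le_o2 (M := M i0) hF hF0
      have h2 := o1_le_o2 (M := M i0) hG' hG0
      omega
  bez := by
    intro F G a b hF hG' hF0 hG0 hrel
    have h := bezout M (sepd8 hG M hMp) hF hG' hG0 hrel (fun j => o1 (M j) F) (ll M i0 F)
      (fun j => o1 (M j) G) (ll M i0 G) (ll_le M i0 hF hF0) (ll_le M i0 hG' hG0)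
      (van_ll M i0 hF hF0) (van_ll M i0 hG' hG0)
    rw [Finset.sum_add_distrib] at h
    have h2 : ∑ j, ll M i0 F j * ll M i0 G j = oi (M i0) F * oi (M i0) G := by
      rw [Finset.sum_eq_single i0]
      · unfold ll; rw [if_pos rfl, if_pos rfl]
      · intro j _ hj
        unfold ll; rw [if_neg hj, zero_mul]
      · intro h; exact absurd (Finset.mem_univ _) h
    rw [h2] at h
    rw [Fintype.sum_option, add_comm]
    exact h
  gen := by
    intro F d hF hirr
    have h := genus M (sepd8 hG M hMp) hF hirr (fun j => o1 (M j) F) (ll M i0 F)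
      (ll_le M i0 hF hirr.ne_zero) (van_ll M i0 hF hirr.ne_zero)
    rw [Finset.sum_add_distrib, sum_ll M i0 F (fun x => x * (x - 1)) (by simp)] at h
    rw [Fintype.sum_option]
    calc oi (M i0) F * (oi (M i0) F - 1) + ∑ j, o1 (M j) F * (o1 (M j) F - 1) + 3 * d
        = ∑ j, o1 (M j) F * (o1 (M j) F - 1) + oi (M i0) F * (oi (M i0) F - 1) + 3 * d := by ring
      _ ≤ _ := h
  s1 := by
    intro F d hF hirr
    exact s1_aux hG M hMp hF hirr
  D := D
  hD := hD
  irrD := cubic_irreducible hG hD hD0 hDp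
  mD := fun j => cubic_o1 hG M hMp hD hD0 hDp j
  m1 := by
    show 1 ≤ oi (M i0) D
    have h1 := ((van_iff hD hD0 1 1).1 hDV).2
    have h2 := cubic_o1 hG M hMp hD hD0 hDp i0
    unfold oi
    omega

end

section
variable {p : Fin 8 → Fin 2 → ℂ} (hG : GP p) (M : Fin 8 → Frame) (i0 : Fin 8)
  (hMp : ∀ j, (M j).o = pv (p j)) (D : P3) (hD0 : D ≠ 0) (hD : D.IsHomogeneous 3)
  (hDp : ∀ j, eval (pv (p j)) D = 0) (hDV : Van 1 1 ((M i0).φ D)) (hnorm : ∃ m0, coeff m0 D = 1)
include hnorm

/-- At most one `(-2)`-curve. -/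
lemma few_I (S : Finset P3)
    (hS : ∀ Γ ∈ S, (packI hG M i0 hMp D hD0 hD hDp hDV).Neg2 Γ Γ.totalDegree)
    (hS2 : ∀ Γ ∈ S, ∀ Γ' ∈ S, Γ ≠ Γ' → ¬ Associated Γ Γ') : S.card ≤ 1 := by
  classical
  set P := packI hG M i0 hMp D hD0 hD hDp hDV with hP
  have hPs : ∀ F j, P.m F (some j) = o1 (M j) F := fun _ _ => rfl
  have hPn : ∀ F, P.m F none = oi (M i0) F := fun _ => rfl
  by_contra hcon
  obtain ⟨F1, h1, F2, h2, h12⟩ := Finset.one_lt_card.1 (not_le.1 hcon)
  have n1 := hS F1 h1
  have n2 := hS F2 h2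
  have q12 := inter_nonneg P n1 n2 (hS2 _ h1 _ h2 h12)
  have q11 := inter_self P n1
  have q22 := inter_self P n2
  have hDone : ∀ j, o1 (M j) D = 1 := fun j => P.mD j
  have hDirr : Irreducible D := P.irrD
  have hDs : ∀ j, ∃ i, eval (M j).o (pderiv i D) ≠ 0 := fun j => smooth_of_o1 hD hD0 (hDone j)
  have hDe : ∀ j, eval (M j).o D = 0 := fun j => by rw [hMp j]; exact hDp j
  have hDnone : oi (M i0) D = 1 := by
    have e1 := P.m1
    have e2 : 1 ≤ oi (M i0) D := e1
    have e3 := o2_le (M := M i0) hD hD0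
    rw [hDone i0] at e3
    unfold oi at e2 ⊢
    rw [hDone i0] at e2 ⊢
    omega
  obtain ⟨ω, hω1, hω2⟩ := relations hD hD0 M (sepd8 hG M hMp) hDe hDs
  -- the relations
  have hrel : ∀ δ : Derivation ℚ ℂ ℂ, (∀ m, δ (coeff m D) = 0) → ∀ (F : P3) (d : ℕ),
      P.Neg2 F d → ∑ j, ((o1 (M j) F + ll M i0 F j : ℕ) : ℂ) * ω j δ = 0 := by
    intro δ hδ F d hF
    have hF0 := hF.2.1.ne_zero
    have hsum : ∑ j, (o1 (M j) F + ll M i0 F j) = 3 * d := by
      rw [Finset.sum_add_distrib, sum_ll M i0 F (fun x => x) rfl]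
      have e1 := hF.2.2.1
      rw [Fintype.sum_option] at e1
      rw [add_comm]
      exact e1
    refine hω1 δ hδ d (fun j => o1 (M j) F) (ll M i0 F) (fun j => o1 (M j) F + ll M i0 F j)
      (deg_pos hF.1 hF.2.1) F hF.1 (van_ll M i0 hF.1 hF0) ?_ ?_ hsum
    · intro j
      by_cases hj : j = i0
      · right
        rw [hj]
        exact ⟨hDV, rfl⟩
      · left
        have : ll M i0 F j = 0 := by unfold ll; rw [if_neg hj]
        rw [this]
        exact ⟨rfl, rfl⟩
    · intro v hv hvD hvF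
      by_contra hn
      push Not at hn
      obtain ⟨Q, hQ⟩ := exists_frame hv
      have hsep : Sepd (Sum.elim M (fun _ : Unit => Q)) := by
        rintro (i | i) (j | j) hij
        · exact sepd8 hG M hMp i j (fun h => hij (by rw [h]))
        · show Far (M i).o Q.o
          rw [hQ]; exact hn i
        · show Far Q.o (M j).o
          rw [hQ]; exact (hn j).symm
        · exact absurd rfl hij
      have hna : ¬ Associated D F := by
        intro hass
        obtain ⟨e1, e2⟩ := P.m_assoc hD hD0 hass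
        have e3 := hF.1.inj_right e2 hF0
        have e4 := hF.2.2.2
        rw [e1, e3, Fintype.sum_option] at e4
        simp only [hPs, hPn, hDone, hDnone] at e4
        simp at e4
      have hrel' : IsRelPrime D F := by
        rw [hDirr.isRelPrime_iff_not_dvd]
        intro hdvd
        exact hna ((hDirr.dvd_irreducible_iff_associated hF.2.1).1 hdvd)
      have hb := bezout (Sum.elim M (fun _ : Unit => Q)) hsep hD hF.1 hF0 hrel'
        (Sum.elim (fun _ => 1) (fun _ => 1)) (Sum.elim (ll M i0 D) (fun _ => 0))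
        (Sum.elim (fun j => o1 (M j) F) (fun _ => 1)) (Sum.elim (ll M i0 F) (fun _ => 0))
        (by
          rintro (j | j)
          · have := ll_le M i0 hD hD0 j
            rw [hDone j] at this
            exact this
          · exact Nat.zero_le _) (by
          rintro (j | j)
          · exact ll_le M i0 hF.1 hF0 j
          · exact Nat.zero_le _) (by
          rintro (j | j)
          · have := van_ll M i0 hD hD0 j
            rw [hDone j] at this
            exact this
          · show Van 1 0 (Q.φ D)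
            rw [van_one_iff, hQ]; exact hvD) (by
          rintro (j | j)
          · exact van_ll M i0 hF.1 hF0 j
          · show Van 1 0 (Q.φ F)
            rw [van_one_iff, hQ]; exact hvF)
      rw [Fintype.sum_sum_type] at hb
      simp only [Sum.elim_inl, Sum.elim_inr, one_mul] at hb
      have e6 : ∀ j, ll M i0 D j * ll M i0 F j = ll M i0 F j := by
        intro j
        unfold ll
        split_ifs with hj
        · rw [hj, hDnone, one_mul]
        · rfl
      rw [Finset.sum_congr rfl fun j _ => by rw [e6 j], hsum] at hb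
      simp at hb
  have hnot := no_two_relations p hG hD hnorm ω (by
      intro δ hδ j hj c
      have e1 := hω2 δ hδ j hj
      have e2 : (M j).o 0 = 1 := by rw [hMp j]; rfl
      fin_cases c
      · have e3 := e1 1 0 e2
        rw [hMp j] at e3
        exact e3
      · have e3 := e1 2 0 e2
        rw [hMp j] at e3
        exact e3)
    (fun j => ((o1 (M j) F1 + ll M i0 F1 j : ℕ) : ℂ))
    (fun j => ((o1 (M j) F2 + ll M i0 F2 j : ℕ) : ℂ))
    (fun δ hδ => ⟨hrel δ hδ F1 _ n1, hrel δ hδ F2 _ n2⟩)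
  rw [LinearIndependent.pair_iff] at hnot
  push Not at hnot
  obtain ⟨s, t, hst, hst'⟩ := hnot
  -- the linear dependence of the two classes
  obtain ⟨ρ, hρ⟩ : ∃ ρ : ℂ, ρ = s * oi (M i0) F1 + t * oi (M i0) F2 := ⟨_, rfl⟩
  have hcomb : ∀ j, s * (o1 (M j) F1 : ℂ) + t * (o1 (M j) F2 : ℂ) = if j = i0 then -ρ else 0 := by
    intro j
    have e := congrFun hst j
    simp only [Pi.add_apply, Pi.smul_apply, smul_eq_mul, Pi.zero_apply] at e
    push_cast at e
    split_ifs with hj
    · subst hj
      have e1 : ∀ F, ll M j F j = oi (M j) F := fun F => by unfold ll; rw [if_pos rfl]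
      rw [e1, e1] at e
      rw [hρ]
      linear_combination e
    · have e1 : ∀ F, ll M i0 F j = 0 := fun F => by unfold ll; rw [if_neg hj]
      rw [e1, e1] at e
      push_cast at e
      linear_combination e
  have hdeg : s * (F1.totalDegree : ℂ) + t * F2.totalDegree = 0 := by
    have e1 := n1.2.2.1
    have e2 := n2.2.2.1
    rw [Fintype.sum_option] at e1 e2
    simp only [hPs, hPn] at e1 e2
    have e1' : (oi (M i0) F1 : ℂ) + ∑ j, (o1 (M j) F1 : ℂ) = 3 * F1.totalDegree := by
      exact_mod_cast e1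
    have e2' : (oi (M i0) F2 : ℂ) + ∑ j, (o1 (M j) F2 : ℂ) = 3 * F2.totalDegree := by
      exact_mod_cast e2
    have e3 : s * ∑ j, (o1 (M j) F1 : ℂ) + t * ∑ j, (o1 (M j) F2 : ℂ) = -ρ := by
      rw [Finset.mul_sum, Finset.mul_sum, ← Finset.sum_add_distrib,
        Finset.sum_congr rfl fun j _ => hcomb j]
      simp
    linear_combination (-1 / 3 : ℂ) * s * e1' + (-1 / 3 : ℂ) * t * e2' + (1 / 3 : ℂ) * e3 +
      (-1 / 3 : ℂ) * hρ
  have hint : ∀ (F : P3) (d : ℕ), s * (inter P F1 F F1.totalDegree d : ℂ) +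
      t * (inter P F2 F F2.totalDegree d : ℂ) = ρ * ((o1 (M i0) F : ℂ) - oi (M i0) F) := by
    intro F d
    unfold inter
    rw [Fintype.sum_option, Fintype.sum_option]
    simp only [hPs, hPn]
    push_cast
    have e1 : s * (∑ j, (o1 (M j) F1 : ℂ) * o1 (M j) F) + t * (∑ j, (o1 (M j) F2 : ℂ) *
        o1 (M j) F) = -ρ * o1 (M i0) F := by
      rw [Finset.mul_sum, Finset.mul_sum, ← Finset.sum_add_distrib]
      have : ∀ j, s * ((o1 (M j) F1 : ℂ) * o1 (M j) F) + t * ((o1 (M j) F2 : ℂ) * o1 (M j) F) =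
          (if j = i0 then -ρ else 0) * o1 (M j) F := by
        intro j
        rw [← hcomb j]
        ring
      rw [Finset.sum_congr rfl fun j _ => this j, Finset.sum_eq_single i0]
      · rw [if_pos rfl]
      · intro j _ hj; rw [if_neg hj, zero_mul]
      · intro h; exact absurd (Finset.mem_univ _) h
    linear_combination (d : ℂ) * hdeg - e1 + (oi (M i0) F : ℂ) * hρ
  have i1 := hint F1 F1.totalDegree
  have i2 := hint F2 F2.totalDegree
  rw [q11, inter_comm P F2 F1] at i1
  rw [q22] at i2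
  obtain ⟨a, ha⟩ : ∃ a : ℤ, a = inter P F1 F2 F1.totalDegree F2.totalDegree := ⟨_, rfl⟩
  rw [← ha] at i1 i2 q12
  have hd1 : (0 : ℝ) < F1.totalDegree := by
    have := deg_pos n1.1 n1.2.1
    exact_mod_cast this
  have hd2 : (0 : ℝ) < F2.totalDegree := by
    have := deg_pos n2.1 n2.2.1
    exact_mod_cast this
  have ha0 : (0 : ℝ) ≤ a := by exact_mod_cast q12
  have hle : ∀ F d, P.Neg2 F d → (0 : ℝ) ≤ (o1 (M i0) F : ℝ) - oi (M i0) F := by
    intro F d hF
    have e1 := o2_le (M := M i0) hF.1 hF.2.1.ne_zero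
    have e2 : oi (M i0) F ≤ o1 (M i0) F := by unfold oi; omega
    have e3 : (oi (M i0) F : ℝ) ≤ o1 (M i0) F := by exact_mod_cast e2
    linarith
  have hre := sign2 (α := s.re) (β := t.re) (ρ := ρ.re) hd1 hd2 ha0 (hle F1 _ n1) (hle F2 _ n2)
    (by have := congrArg Complex.re hdeg; simp at this; linarith)
    (by have := congrArg Complex.re i1; simp at this; linarith)
    (by have := congrArg Complex.re i2; simp at this; linarith)
  have him := sign2 (α := s.im) (β := t.im) (ρ := ρ.im) hd1 hd2 ha0 (hle F1 _ n1) (hle F2 _ n2)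
    (by have := congrArg Complex.im hdeg; simp at this; linarith)
    (by have := congrArg Complex.im i1; simp at this; linarith)
    (by have := congrArg Complex.im i2; simp at this; linarith)
  exact hst' (Complex.ext hre.1 him.1) (Complex.ext hre.2 him.2)

end

/-- **Case of an infinitely near point.** -/
theorem caseI {p : Fin 8 → Fin 2 → ℂ} (hG : GP p) (M : Fin 8 → Frame) (i0 : Fin 8)
    (hMp : ∀ j, (M j).o = pv (p j)) {F : P3} {d : ℕ} (hF : F.IsHomogeneous d)
    (hF0 : F ≠ 0) (hsq : Squarefree F) :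
    -2 ≤ (d : ℤ) * d + 3 * d - ∑ j, (o1 (M j) F : ℤ) * (o1 (M j) F + 1) -
      (oi (M i0) F : ℤ) * (oi (M i0) F + 1) := by
  obtain ⟨D, hD0, hD, hDp, hDV, hnorm⟩ := existsD_I M i0 hMp
  set P := packI hG M i0 hMp D hD0 hD hDp hDV with hP
  have hPs : ∀ F j, P.m F (some j) = o1 (M j) F := fun _ _ => rfl
  have hPn : ∀ F, P.m F none = oi (M i0) F := fun _ => rfl
  have hDnone : oi (M i0) D ≤ 1 := by
    have e3 := o2_le (M := M i0) hD hD0
    have e4 : o1 (M i0) D = 1 := P.mD i0
    unfold oi
    omega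
  have h := P.bound 1 (fun _ S hS hS2 => few_I hG M i0 hMp D hD0 hD hDp hDV hnorm S hS hS2)
    hF hF0 hsq
  rcases h with h | h
  · have e1 : oi (M i0) D = 2 := h.2
    omega
  · have h1 := h.1
    unfold Pack.A2 at h1
    rw [Fintype.sum_option] at h1
    simp only [hPs, hPn] at h1
    push_cast at h1
    linarith

end Pool.Agent.Helper52.NP
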