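import Mathlib
import Pool.Agent.Helper52.NP.CaseI

set_option autoImplicit false

/-!
# Reduced curves have positive Euler characteristic
-/

namespace Pool.Agent.Helper52.NP

open MvPolynomial Pool.Agent.Chud Pool.Agent.Helper52.NP.Frame

/-- twice the expected dimension for the eight points -/
noncomputable def B2 (M : Fin 8 → Frame) (F : P3) (d : ℕ) : ℤ :=
  (d : ℤ) * d + 3 * d - ∑ j, (o1 (M j) F : ℤ) * (o1 (M j) F + 1)

section
variable {p : Fin 8 → Fin 2 → ℂ} (hG : GP p) (M : Fin 8 → Frame) (hMp : ∀ j, (M j).o = pv (p j))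

lemma van_o1s {M : Frame} {F : P3} {d : ℕ} (hF : F.IsHomogeneous d) (hF0 : F ≠ 0) :
    Van (o1 M F) 0 (M.φ F) := by
  rw [van_iff hF hF0]
  have := o1_le_o2 (M := M) hF hF0
  omega

lemma o1_C {M : Frame} {c : ℂ} (hc : c ≠ 0) : o1 M (C c) = 0 := by
  have h := (o1_unit (M := M) hc (isHomogeneous_one (Fin 3) ℂ) one_ne_zero).1
  have h2 := o1_mul (M := M) (isHomogeneous_one (Fin 3) ℂ) (isHomogeneous_one (Fin 3) ℂ)
    one_ne_zero one_ne_zero
  rw [mul_one] at h h2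
  omega

include hG hMp

lemma B2_irr {F : P3} {d : ℕ} (hF : F.IsHomogeneous d) (hirr : Irreducible F) : 0 ≤ B2 M F d := by
  have h1 := s1_aux hG M hMp hF hirr
  have h2 := genus M (sepd8 hG M hMp) hF hirr (fun j => o1 (M j) F) (fun _ => 0)
    (fun _ => Nat.zero_le _) (fun j => van_o1s hF hirr.ne_zero)
  simp only [zero_mul, add_zero] at h2
  have h3 : ((∑ j, o1 (M j) F * (o1 (M j) F - 1) : ℕ) : ℤ) =
      ∑ j, (o1 (M j) F : ℤ) * (o1 (M j) F + 1) - 2 * ∑ j, (o1 (M j) F : ℤ) := by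
    rw [Nat.cast_sum, Finset.mul_sum, ← Finset.sum_sub_distrib]
    refine Finset.sum_congr rfl fun o _ => ?_
    rcases Nat.eq_zero_or_pos (o1 (M o) F) with h0 | h0
    · rw [h0]; simp
    · rw [Nat.cast_mul, Nat.cast_sub h0]
      push_cast
      ring
  have h4 : ((∑ j, o1 (M j) F * (o1 (M j) F - 1) : ℕ) : ℤ) + 3 * d ≤ d * d + 2 := by
    exact_mod_cast h2
  have h5 : ∑ j, (o1 (M j) F : ℤ) + 1 ≤ 3 * d := by exact_mod_cast h1
  unfold B2
  rw [h3] at h4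
  linarith

lemma B2_mul {F G : P3} {a b : ℕ} (hF : F.IsHomogeneous a) (hG' : G.IsHomogeneous b) (hF0 : F ≠ 0)
    (hG0 : G ≠ 0) (h : IsRelPrime F G) : B2 M F a + B2 M G b ≤ B2 M (F * G) (a + b) := by
  have hb := bezout M (sepd8 hG M hMp) hF hG' hG0 h (fun j => o1 (M j) F) (fun _ => 0)
      (fun j => o1 (M j) G) (fun _ => 0) (fun _ => Nat.zero_le _) (fun _ => Nat.zero_le _)
      (fun j => van_o1s hF hF0) (fun j => van_o1s hG' hG0)
  simp only [mul_zero, add_zero] at hb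
  have hb' : ∑ j, (o1 (M j) F : ℤ) * o1 (M j) G ≤ (a : ℤ) * b := by exact_mod_cast hb
  unfold B2
  have h1 : ∑ o, (o1 (M o) (F * G) : ℤ) * (o1 (M o) (F * G) + 1) =
      ∑ o, (o1 (M o) F : ℤ) * (o1 (M o) F + 1) + ∑ o, (o1 (M o) G : ℤ) * (o1 (M o) G + 1) +
      2 * ∑ o, (o1 (M o) F : ℤ) * o1 (M o) G := by
    rw [Finset.mul_sum, ← Finset.sum_add_distrib, ← Finset.sum_add_distrib]
    refine Finset.sum_congr rfl fun o _ => ?_
    rw [o1_mul hF hG' hF0 hG0]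
    push_cast
    ring
  rw [h1]
  push_cast
  nlinarith

lemma B2_prod (T : Finset P3) (hT : ∀ Γ ∈ T, Γ.IsHomogeneous Γ.totalDegree)
    (hT1 : ∀ Γ ∈ T, Irreducible Γ) (hT2 : ∀ Γ ∈ T, ∀ Γ' ∈ T, Γ ≠ Γ' → ¬ Associated Γ Γ') :
    0 ≤ B2 M (∏ Γ ∈ T, Γ) (∑ Γ ∈ T, Γ.totalDegree) := by
  classical
  induction T using Finset.induction_on with
  | empty =>
    rw [Finset.prod_empty, Finset.sum_empty]
    unfold B2
    have h1 : ∀ j, o1 (M j) 1 = 0 := by
      intro o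
      rw [← C_1]
      exact o1_C one_ne_zero
    simp [h1]
  | insert Γ T hΓ ih =>
    rw [Finset.prod_insert hΓ, Finset.sum_insert hΓ]
    have hT' : ∀ Γ ∈ T, Γ.IsHomogeneous Γ.totalDegree := fun x hx =>
      hT x (Finset.mem_insert_of_mem hx)
    have hT1' : ∀ Γ ∈ T, Irreducible Γ := fun x hx => hT1 x (Finset.mem_insert_of_mem hx)
    have ih' := ih hT' hT1' (fun x hx y hy => hT2 x (Finset.mem_insert_of_mem hx) y
      (Finset.mem_insert_of_mem hy))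
    have hirr := hT1 Γ (Finset.mem_insert_self _ _)
    have hrel : IsRelPrime Γ (∏ Γ ∈ T, Γ) := by
      rw [hirr.isRelPrime_iff_not_dvd]
      intro hdvd
      obtain ⟨Γ', hΓ', h⟩ := (Prime.dvd_finsetProd_iff hirr.prime _).1 hdvd
      refine hT2 Γ (Finset.mem_insert_self _ _) Γ' (Finset.mem_insert_of_mem hΓ') ?_
        ((hirr.dvd_irreducible_iff_associated (hT1' Γ' hΓ')).1 h)
      rintro rfl
      exact hΓ hΓ'
    have hprod0 : (∏ Γ ∈ T, Γ) ≠ 0 := Finset.prod_ne_zero_iff.2 fun x hx => (hT1' x hx).ne_zero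
    have h2 := B2_mul hG M hMp (hT Γ (Finset.mem_insert_self _ _)) (Pack.prod_homog hT')
      hirr.ne_zero hprod0 hrel
    have h3 := B2_irr hG M hMp (hT Γ (Finset.mem_insert_self _ _)) hirr
    linarith

/-- **Reduced curves have positive Euler characteristic.** -/
theorem caseS {F : P3} {d : ℕ} (hF : F.IsHomogeneous d) (hF0 : F ≠ 0) (hsq : Squarefree F) :
    0 ≤ (d : ℤ) * d + 3 * d - ∑ j, (o1 (M j) F : ℤ) * (o1 (M j) F + 1) := by
  classical
  obtain ⟨T, hT1, hT2, c, hc, hFT⟩ := exists_factors F.totalDegree F le_rfl hF0 hsq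
  have hC0 : (C c : P3) ≠ 0 := by
    rw [Ne, C_eq_zero]; exact hc
  have hT : ∀ Γ ∈ T, Γ.IsHomogeneous Γ.totalDegree := by
    intro Γ hΓ
    refine homog_of_dvd hF hF0 ?_
    have h1 : Γ ∣ ∏ x ∈ T, x := Finset.dvd_prod_of_mem (fun x => x) hΓ
    rw [hFT]
    exact Dvd.dvd.mul_left h1 _
  have hprod0 : (∏ Γ ∈ T, Γ) ≠ 0 := Finset.prod_ne_zero_iff.2 fun x hx => (hT1 x hx).ne_zero
  have h1 : ∀ j, o1 (M j) F = o1 (M j) (∏ Γ ∈ T, Γ) := by
    intro j
    rw [hFT, o1_mul (isHomogeneous_C _ _) (Pack.prod_homog hT) hC0 hprod0, o1_C hc, zero_add]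
  have h2 : d = ∑ Γ ∈ T, Γ.totalDegree := by
    have h3 := (isHomogeneous_C (Fin 3) c).mul (Pack.prod_homog hT)
    rw [← hFT, zero_add] at h3
    exact hF.inj_right h3 hF0
  have h4 := B2_prod hG M hMp T hT hT1 hT2
  unfold B2 at h4
  rw [← h2] at h4
  simp only [← h1] at h4
  exact h4

end

end Pool.Agent.Helper52.NP
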