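import Mathlib
import Pool.Agent.Helper52.NP.Mult

set_option autoImplicit false

/-!
# Comparison of the local conditions with the orders of the translated polynomials
-/

namespace Pool.Agent.Helper52.NP

open MvPolynomial Pool.Agent.Chud Pool.Agent.Helper52.NP.Frame

/-- the translate `F (x + X)` -/
noncomputable def tr (x : Fin 3 → ℂ) : P3 →ₐ[ℂ] P3 := aeval (fun i => X i + C (x i))

/-- `F (x + X)` has no term of degree less than `k` -/
def OrdGE (F : P3) (x : Fin 3 → ℂ) (k : ℕ) : Prop :=
  ∀ e : Fin 3 →₀ ℕ, e 0 + e 1 + e 2 < k → coeff e (tr x F) = 0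

lemma tr_X (x : Fin 3 → ℂ) (i : Fin 3) : tr x (X i) = X i + C (x i) := by simp [tr]

lemma tr_C (x : Fin 3 → ℂ) (c : ℂ) : tr x (C c) = C c := (tr x).commutes c

lemma coeff_zero_tr (x : Fin 3 → ℂ) (F : P3) : coeff 0 (tr x F) = eval x F := by
  have h : ((constantCoeff : P3 →+* ℂ).comp (tr x : P3 →+* P3)) = (eval x) := by
    apply MvPolynomial.ringHom_ext
    · intro r
      simp
    · intro i
      simp [tr_X]
  have h2 := congrArg (fun f => f F) h
  simpa [constantCoeff_eq] using h2

lemma pderiv_tr (x : Fin 3 → ℂ) (i : Fin 3) (F : P3) : pderiv i (tr x F) = tr x (pderiv i F) := by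
  induction F using MvPolynomial.induction_on with
  | C a => simp
  | add p q hp hq => simp only [map_add, hp, hq]
  | mul_X p j hp =>
    rw [map_mul, pderiv_mul, pderiv_mul, hp, map_add, map_mul, map_mul]
    congr 2
    rw [tr_X, map_add, pderiv_C, add_zero, pderiv_X]
    by_cases hij : i = j
    · subst hij; simp
    · simp [hij]

lemma van_zero_iff_comp (M : Frame) {F : P3} {k : ℕ} (h : OrdGE F M.o k) : Van k 0 (M.φ F) := by
  classical
  have h1 : M.φ F = aeval (fun i => C (M.u i) * X 0 + C (M.w i) * X 1 : Fin 3 → P2) (tr M.o F) := by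
    have : M.φ = (aeval (fun i => C (M.u i) * X 0 + C (M.w i) * X 1 : Fin 3 → P2)).comp (tr M.o) := by
      apply MvPolynomial.algHom_ext
      intro i
      rw [AlgHom.comp_apply, φ_X, tr_X, map_add, aeval_X, aeval_C, algebraMap_eq]
      ring
    rw [this]
    rfl
  intro e he
  rw [h1, aeval_def, eval₂_eq', coeff_sum]
  apply Finset.sum_eq_zero
  intro m hm
  rw [algebraMap_eq, coeff_C_mul]
  have hm' : k ≤ m 0 + m 1 + m 2 := by
    by_contra hcon
    exact (mem_support_iff.1 hm) (h m (not_le.1 hcon))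
  have hh : (∏ i, (C (M.u i) * X 0 + C (M.w i) * X 1 : P2) ^ m i).IsHomogeneous
      (∑ i, 1 * m i) := by
    apply IsHomogeneous.prod
    intro i _
    apply IsHomogeneous.pow
    apply IsHomogeneous.add
    · have := (isHomogeneous_C (Fin 2) (M.u i)).mul (isHomogeneous_X ℂ (0 : Fin 2))
      rwa [zero_add] at this
    · have := (isHomogeneous_C (Fin 2) (M.w i)).mul (isHomogeneous_X ℂ (1 : Fin 2))
      rwa [zero_add] at this
  rw [hh.coeff_eq_zero, mul_zero]
  rw [Finsupp.degree_eq_sum, Fin.sum_univ_two, Fin.sum_univ_three]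
  omega

lemma ordGE_of_van : ∀ (k : ℕ) (M : Frame) {F : P3} {d : ℕ}, F.IsHomogeneous d →
    Van k 0 (M.φ F) → OrdGE F M.o k := by
  intro k
  induction k with
  | zero => intro M F d _ _ e he; omega
  | succ k ih =>
    intro M F d hF h e he
    by_cases h0 : e = 0
    · rw [h0, coeff_zero_tr]
      rw [← van_one_iff]
      exact h.mono (by omega) (by omega)
    · obtain ⟨i, hi⟩ : ∃ i, e i ≠ 0 := by
        by_contra hcon
        push Not at hcon
        exact h0 (Finsupp.ext hcon)
      have h1 := M.van_pderiv hF (Nat.zero_le _) h i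
      rw [Nat.add_sub_cancel, Nat.zero_sub] at h1
      have h2 := ih M hF.pderiv h1 (e - Finsupp.single i 1) (by
        have h3 : ∀ j, (e - Finsupp.single i 1 : Fin 3 →₀ ℕ) j = e j - (if i = j then 1 else 0) := by
          intro j
          rw [Finsupp.tsub_apply, Finsupp.single_apply]
        rw [h3, h3, h3]
        fin_cases i
        · simp at hi ⊢; omega
        · simp at hi ⊢; omega
        · simp at hi ⊢; omega)
      rw [← pderiv_tr, coeff_pderiv] at h2
      have h3 : e - Finsupp.single i 1 + Finsupp.single i 1 = e := by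
        apply tsub_add_cancel_of_le
        rw [Finsupp.single_le_iff]
        omega
      rw [h3] at h2
      rcases mul_eq_zero.1 h2 with h4 | h4
      · exact h4
      · exfalso
        have h5 : (((e - Finsupp.single i 1 : Fin 3 →₀ ℕ) i + 1 : ℕ) : ℂ) = 0 := by
          push_cast
          exact h4
        exact Nat.cast_ne_zero.2 (Nat.succ_ne_zero _) h5

lemma ordGE_iff (M : Frame) {F : P3} {d : ℕ} (hF : F.IsHomogeneous d) (k : ℕ) :
    OrdGE F M.o k ↔ Van k 0 (M.φ F) :=
  ⟨fun h => van_zero_iff_comp M h, fun h => ordGE_of_van k M hF h⟩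

lemma ordGE_iff_o1 (M : Frame) {F : P3} {d : ℕ} (hF : F.IsHomogeneous d) (hF0 : F ≠ 0) (k : ℕ) :
    OrdGE F M.o k ↔ k ≤ o1 M F := by
  rw [ordGE_iff M hF, van_iff hF hF0]
  have := o1_le_o2 (M := M) hF hF0
  omega

/-! ### the blow-up chart -/

/-- the substitution of the blow-up chart -/
noncomputable def bl : P2 →ₐ[ℂ] P2 := aeval ![X 0, X 0 * X 1]

/-- the exponent in the blow-up chart -/
noncomputable def be (s : Fin 2 →₀ ℕ) : Fin 2 →₀ ℕ :=
  Finsupp.single 0 (s 0 + s 1) + Finsupp.single 1 (s 1)

lemma be_zero (s : Fin 2 →₀ ℕ) : be s 0 = s 0 + s 1 := by simp [be]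
lemma be_one (s : Fin 2 →₀ ℕ) : be s 1 = s 1 := by simp [be]

lemma bl_monomial (s : Fin 2 →₀ ℕ) (c : ℂ) : bl (monomial s c) = monomial (be s) c := by
  unfold bl
  rw [aeval_monomial, Finsupp.prod_fintype _ _ (fun i => pow_zero _), Fin.prod_univ_two,
    algebraMap_eq]
  simp only [Matrix.cons_val_zero, Matrix.cons_val_one]
  rw [monomial_eq, Finsupp.prod_fintype _ _ (fun i => pow_zero _), Fin.prod_univ_two, be_zero,
    be_one]
  ring

lemma coeff_be_bl (f : P2) (s : Fin 2 →₀ ℕ) : coeff (be s) (bl f) = coeff s f := by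
  classical
  induction f using MvPolynomial.induction_on' with
  | monomial m c =>
    rw [bl_monomial, coeff_monomial, coeff_monomial]
    by_cases h : m = s
    · rw [if_pos h, h, if_pos rfl]
    · rw [if_neg h, if_neg]
      intro h'
      apply h
      have h0 := DFunLike.congr_fun h' 0
      have h1 := DFunLike.congr_fun h' 1
      rw [be_zero, be_zero] at h0
      rw [be_one, be_one] at h1
      ext i
      fin_cases i
      · show m 0 = s 0
        omega
      · exact h1
  | add p q hp hq => rw [map_add, coeff_add, coeff_add, hp, hq]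

lemma coeff_bl_zero (f : P2) (s : Fin 2 →₀ ℕ) (h : s 0 < s 1) : coeff s (bl f) = 0 := by
  classical
  induction f using MvPolynomial.induction_on' with
  | monomial m c =>
    rw [bl_monomial, coeff_monomial, if_neg]
    intro h'
    have h0 := DFunLike.congr_fun h' 0
    have h1 := DFunLike.congr_fun h' 1
    rw [be_zero] at h0
    rw [be_one] at h1
    omega
  | add p q hp hq => rw [map_add, coeff_add, hp, hq, add_zero]

lemma coeff_X_pow_mul (m : ℕ) (g : P2) (s : Fin 2 →₀ ℕ) :
    coeff (Finsupp.single 0 m + s) (X 0 ^ m * g) = coeff s g := by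
  have : (X 0 ^ m : P2) = monomial (Finsupp.single 0 m) 1 := by
    rw [monomial_eq, Finsupp.prod_single_index (by simp)]; simp
  rw [this, coeff_monomial_mul, one_mul]

lemma coeff_X_pow_mul_zero (m : ℕ) (g : P2) (s : Fin 2 →₀ ℕ) (h : s 0 < m) :
    coeff s (X 0 ^ m * g) = 0 := by
  classical
  have : (X 0 ^ m : P2) = monomial (Finsupp.single 0 m) 1 := by
    rw [monomial_eq, Finsupp.prod_single_index (by simp)]; simp
  rw [this, coeff_monomial_mul', if_neg]
  intro h'
  have := h' 0
  simp at this
  omega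

/-- the multiplicity of the total transform minus `m` times the exceptional curve -/
lemma o2_of_chart (M : Frame) {F : P3} {d : ℕ} (hF : F.IsHomogeneous d) (hF0 : F ≠ 0) {m t : ℕ}
    {g : P2} (hg : aeval (fun i => C (M.o i) + C (M.u i) * X 0 + C (M.w i) * (X 0 * X 1) :
      Fin 3 → P2) F = X 0 ^ m * g)
    (h1 : ∀ e : Fin 2 →₀ ℕ, e 0 + e 1 < t → coeff e g = 0)
    (h2 : ∃ e : Fin 2 →₀ ℕ, e 0 + e 1 = t ∧ coeff e g ≠ 0) : o2 M F = m + t := by
  have hbl : bl (M.φ F) = X 0 ^ m * g := by
    rw [← hg]
    have : (bl.comp M.φ) = aeval (fun i => C (M.o i) + C (M.u i) * X 0 + C (M.w i) * (X 0 * X 1) :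
      Fin 3 → P2) := by
      apply MvPolynomial.algHom_ext
      intro i
      rw [AlgHom.comp_apply, φ_X, aeval_X, map_add, map_add, map_mul, map_mul]
      unfold bl
      rw [aeval_X, aeval_X]
      simp only [← algebraMap_eq, AlgHom.commutes]
      simp
    rw [← this]
    rfl
  have hφ := φ_ne_zero M hF hF0
  apply le_antisymm
  · obtain ⟨e, he, hge⟩ := h2
    by_contra hcon
    push Not at hcon
    have h3 : coeff (Finsupp.single 0 m + e) (bl (M.φ F)) ≠ 0 := by
      rw [hbl, coeff_X_pow_mul]; exact hge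
    have h4 : ¬ (m + e 0 < e 1) := by
      intro h
      apply h3
      apply coeff_bl_zero
      simp
      omega
    set s : Fin 2 →₀ ℕ := Finsupp.single 0 (m + e 0 - e 1) + Finsupp.single 1 (e 1) with hs
    have hs0 : s 0 = m + e 0 - e 1 := by simp [hs]
    have hs1 : s 1 = e 1 := by simp [hs]
    have h5 : Finsupp.single 0 m + e = be s := by
      ext i
      fin_cases i
      · show (Finsupp.single 0 m + e : Fin 2 →₀ ℕ) 0 = be s 0
        rw [be_zero, hs0, hs1]
        simp
        omega
      · show (Finsupp.single 0 m + e : Fin 2 →₀ ℕ) 1 = be s 1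
        rw [be_one, hs1]
        simp
    rw [h5, coeff_be_bl] at h3
    apply h3
    have h6 := (le_wo_iff (w := ![1, 2]) hφ (o2 M F)).1 le_rfl
    apply h6
    simp only [Matrix.cons_val_zero, Matrix.cons_val_one, mul_one]
    rw [hs0, hs1]
    omega
  · unfold o2
    rw [le_wo_iff hφ]
    intro s hs
    simp only [Matrix.cons_val_zero, Matrix.cons_val_one, mul_one] at hs
    rw [← coeff_be_bl, hbl]
    by_cases hm : be s 0 < m
    · exact coeff_X_pow_mul_zero _ _ _ hm
    · rw [be_zero] at hm
      set e : Fin 2 →₀ ℕ := Finsupp.single 0 (s 0 + s 1 - m) + Finsupp.single 1 (s 1) with he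
      have he0 : e 0 = s 0 + s 1 - m := by simp [he]
      have he1 : e 1 = s 1 := by simp [he]
      have h5 : be s = Finsupp.single 0 m + e := by
        ext i
        fin_cases i
        · show be s 0 = (Finsupp.single 0 m + e : Fin 2 →₀ ℕ) 0
          rw [be_zero, Finsupp.add_apply, he0]
          simp
          omega
        · show be s 1 = (Finsupp.single 0 m + e : Fin 2 →₀ ℕ) 1
          rw [be_one, Finsupp.add_apply, he1]
          simp
      rw [h5, coeff_X_pow_mul]
      apply h1
      rw [he0, he1]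
      omega

end Pool.Agent.Helper52.NP
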