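import Mathlib
import Pool.Agent.Helper52.NP.Pos

set_option autoImplicit false

/-!
# Extension of a family of very general points
-/

namespace Pool.Agent.Helper52.NP

open MvPolynomial Pool.Agent.Chud Pool.Agent.Helper52.NP.Frame

lemma exists_trans {ι : Type} [Countable ι] {x : ι → ℂ} (hx : AlgebraicIndependent ℚ x)
    (T : Set ℂ) (hT : T.Countable) :
    ∃ a, a ∉ T ∧ AlgebraicIndependent ℚ (fun o : Option ι => o.elim a x) := by
  have hcount : Countable (Algebra.adjoin ℚ (Set.range x)) := by
    rw [← Cardinal.mk_le_aleph0_iff]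
    refine (Algebra.cardinalMk_adjoin_le ℚ (Set.range x)).trans ?_
    refine max_le (max_le ?_ ?_) le_rfl
    · exact Cardinal.mk_le_aleph0_iff.2 inferInstance
    · exact Cardinal.mk_le_aleph0_iff.2 (Set.countable_range x).to_subtype
  have h1 : Set.Countable {a : ℂ | IsAlgebraic (Algebra.adjoin ℚ (Set.range x)) a} :=
    Algebraic.countable (Algebra.adjoin ℚ (Set.range x)) ℂ
  have h2 := h1.union hT
  obtain ⟨a, ha⟩ : ∃ a : ℂ, a ∉ {a : ℂ | IsAlgebraic (Algebra.adjoin ℚ (Set.range x)) a} ∪ T := by
    by_contra hcon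
    push Not at hcon
    have h3 : (Set.univ : Set ℂ).Countable := h2.mono fun a _ => hcon a
    exact not_countable_complex h3
  refine ⟨a, fun h => ha (Or.inr h), ?_⟩
  rw [hx.option_iff_transcendental]
  exact fun h => ha (Or.inl h)

/-- the values at which a polynomial function vanishes -/
lemma exists_finite_bad {F : P3} {d : ℕ} (hF : F.IsHomogeneous d) (hF0 : F ≠ 0) :
    ∃ T : Set ℂ, T.Finite ∧ ∀ a, a ∉ T → ∃ U : Set ℂ, U.Finite ∧
      ∀ b, b ∉ U → eval (pv ![a, b]) F ≠ 0 := by
  obtain ⟨v, hv⟩ : ∃ v : Fin 3 → ℂ, eval v (F * X 0) ≠ 0 := by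
    by_contra hcon
    push Not at hcon
    have h1 : F * X 0 = 0 := MvPolynomial.funext fun v => by rw [hcon v, map_zero]
    exact hF0 ((mul_eq_zero.1 h1).resolve_right (X_ne_zero 0))
  rw [map_mul, eval_X] at hv
  have hv0 : v 0 ≠ 0 := right_ne_zero_of_mul hv
  have hvF : eval v F ≠ 0 := left_ne_zero_of_mul hv
  have h1 : eval (pv ![v 1 / v 0, v 2 / v 0]) F ≠ 0 := by
    intro h
    apply hvF
    have h2 : v = v 0 • pv ![v 1 / v 0, v 2 / v 0] := by
      ext i
      fin_cases i
      · simp [pv]
      · simp [pv]; field_simp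
      · simp [pv]; field_simp
    rw [h2, eval_smul hF, h, mul_zero]
  set P : Polynomial ℂ := aeval (![1, Polynomial.X, Polynomial.C (v 2 / v 0)] :
    Fin 3 → Polynomial ℂ) F with hP
  have hPe : ∀ a, P.eval a = eval (pv ![a, v 2 / v 0]) F := by
    intro a
    have : ((Polynomial.evalRingHom a).comp (aeval (![1, Polynomial.X,
        Polynomial.C (v 2 / v 0)] : Fin 3 → Polynomial ℂ) : P3 →ₐ[ℂ] Polynomial ℂ).toRingHom) =
        eval (pv ![a, v 2 / v 0]) := by
      apply MvPolynomial.ringHom_ext
      · intro r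
        simp
      · intro i
        fin_cases i <;> simp [pv]
    exact congrArg (fun f => f F) this
  have hP0 : P ≠ 0 := by
    intro h0
    apply h1
    rw [← hPe, h0, Polynomial.eval_zero]
  refine ⟨{a | P.IsRoot a}, Polynomial.finite_setOfPred_isRoot hP0, ?_⟩
  intro a ha
  set Q : Polynomial ℂ := aeval (![1, Polynomial.C a, Polynomial.X] :
    Fin 3 → Polynomial ℂ) F with hQ
  have hQe : ∀ b, Q.eval b = eval (pv ![a, b]) F := by
    intro b
    have : ((Polynomial.evalRingHom b).comp (aeval (![1, Polynomial.C a,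
        Polynomial.X] : Fin 3 → Polynomial ℂ) : P3 →ₐ[ℂ] Polynomial ℂ).toRingHom) =
        eval (pv ![a, b]) := by
      apply MvPolynomial.ringHom_ext
      · intro r
        simp
      · intro i
        fin_cases i <;> simp [pv]
    exact congrArg (fun f => f F) this
  have hQ0 : Q ≠ 0 := by
    intro h0
    apply ha
    show P.eval a = 0
    rw [hPe, ← hQe, h0, Polynomial.eval_zero]
  refine ⟨{b | Q.IsRoot b}, Polynomial.finite_setOfPred_isRoot hQ0, ?_⟩
  intro b hb h
  apply hb
  show Q.eval b = 0
  rw [hQe, h]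

/-- one more point -/
lemma extend_one {n : ℕ} {p : Fin n → Fin 2 → ℂ} (hG : GP p) {F : P3} {d : ℕ}
    (hF : F.IsHomogeneous d) (hF0 : F ≠ 0) {x : Fin 3 → ℂ} (hx : x ≠ 0) :
    ∃ q : Fin 2 → ℂ, GP (Fin.snoc p q : Fin (n + 1) → Fin 2 → ℂ) ∧ eval (pv q) F ≠ 0 ∧
      Far x (pv q) := by
  obtain ⟨T, hT, hT'⟩ := exists_finite_bad hF hF0
  obtain ⟨a, ha, hGa⟩ := exists_trans hG (T ∪ {x 1 / x 0}) (hT.countable.union
    (Set.countable_singleton _))
  rw [Set.mem_union, not_or] at ha
  obtain ⟨U, hU, hU'⟩ := hT' a ha.1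
  obtain ⟨b, hb, hGb⟩ := exists_trans hGa (U ∪ {x 2 / x 0}) (hU.countable.union
    (Set.countable_singleton _))
  rw [Set.mem_union, not_or] at hb
  refine ⟨![a, b], ?_, hU' b hb.1, ?_⟩
  · have h1 := hGb.comp (fun i : Fin (n + 1) × Fin 2 => if h : i.1.val < n then
      (some (some (⟨i.1.val, h⟩, i.2)) : Option (Option (Fin n × Fin 2))) else
      if i.2 = 0 then some none else none) (by
        rintro ⟨i, c⟩ ⟨j, e⟩ hij
        simp only at hij
        by_cases hi : i.val < n
        · by_cases hj : j.val < n
          · rw [dif_pos hi, dif_pos hj] at hij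
            simp only [Option.some.injEq, Prod.mk.injEq, Fin.mk.injEq] at hij
            exact Prod.ext (Fin.ext hij.1) hij.2
          · rw [dif_pos hi, dif_neg hj] at hij
            split_ifs at hij
            all_goals simp at hij
        · by_cases hj : j.val < n
          · rw [dif_neg hi, dif_pos hj] at hij
            split_ifs at hij
            all_goals simp at hij
          · rw [dif_neg hi, dif_neg hj] at hij
            have hi2 := i.2
            have hj2 := j.2
            have e1 : i = j := Fin.ext (by omega)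
            subst e1
            by_cases hc : c = 0
            · by_cases he : e = 0
              · rw [hc, he]
              · rw [if_pos hc, if_neg he] at hij
                simp at hij
            · by_cases he : e = 0
              · rw [if_neg hc, if_pos he] at hij
                simp at hij
              · have : c = e := by omega
                rw [this])
    unfold GP
    convert! h1 using 1
    funext ⟨i, c⟩
    simp only [Function.comp_apply]
    by_cases hi : i.val < n
    · rw [dif_pos hi]
      simp only [Option.elim_some]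
      rw [Fin.snoc, dif_pos hi]
      rfl
    · rw [dif_neg hi]
      rw [Fin.snoc, dif_neg hi]
      fin_cases c
      · simp
      · simp
  · by_cases h0 : x 0 = 0
    · have h1 : x 1 ≠ 0 ∨ x 2 ≠ 0 := by
        by_contra hcon
        push Not at hcon
        apply hx
        ext i
        fin_cases i
        · exact h0
        · exact hcon.1
        · exact hcon.2
      rcases h1 with h1 | h1
      · refine ⟨1, 0, ?_⟩
        simp [pv, h0, h1]
      · refine ⟨2, 0, ?_⟩
        simp [pv, h0, h1]
    · refine ⟨0, 1, ?_⟩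
      simp only [pv, Matrix.cons_val_zero, Matrix.cons_val_one]
      intro h
      apply ha.2
      rw [Set.mem_singleton_iff]
      field_simp
      linear_combination h

/-- **Extension of a family of very general points.** -/
lemma extend {F : P3} {d : ℕ} (hF : F.IsHomogeneous d) (hF0 : F ≠ 0) {x : Fin 3 → ℂ} (hx : x ≠ 0)
    {r : ℕ} {p : Fin r → Fin 2 → ℂ} (hG : GP p) (n : ℕ) (hn : r ≤ n) :
    ∃ p' : Fin n → Fin 2 → ℂ, GP p' ∧ (∀ i : Fin r, p' (Fin.castLE hn i) = p i) ∧
      ∀ j : Fin n, r ≤ j.val → (eval (pv (p' j)) F ≠ 0 ∧ Far x (pv (p' j))) := by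
  induction n, hn using Nat.le_induction with
  | base => exact ⟨p, hG, fun i => rfl, fun j hj => absurd j.2 (by omega)⟩
  | succ n hn ih =>
    obtain ⟨p', hG', h1, h2⟩ := ih
    obtain ⟨q, hq, hq1, hq2⟩ := extend_one hG' hF hF0 hx
    refine ⟨Fin.snoc p' q, hq, ?_, ?_⟩
    · intro i
      have : Fin.castLE (Nat.le_succ_of_le hn) i = Fin.castSucc (Fin.castLE hn i) := rfl
      rw [this, Fin.snoc_castSucc]
      exact h1 i
    · intro j hj
      induction j using Fin.lastCases with
      | last => rw [Fin.snoc_last]; exact ⟨hq1, hq2⟩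
      | cast j => rw [Fin.snoc_castSucc]; exact h2 j hj

end Pool.Agent.Helper52.NP
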