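import Mathlib
import Pool.Agent.Helper52.NP.CaseS
import Pool.Agent.Helper52.NP.Cmp
import Pool.Agent.Helper52.NP.Ext

set_option autoImplicit false

/-!
# Reduced curves with a `t`-fold point on a blow-up at at most eight very general points
-/

namespace Pool.Agent.Helper52.NP

open MvPolynomial Pool.Agent.Chud Pool.Agent.Helper52.NP.Frame

/-- extension by zero -/
def ez {r : ℕ} (m : Fin r → ℕ) (j : Fin 8) : ℕ := if h : j.val < r then m ⟨j.val, h⟩ else 0

lemma ez_castLE {r : ℕ} (hr : r ≤ 8) (m : Fin r → ℕ) (i : Fin r) : ez m (Fin.castLE hr i) = m i := by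
  unfold ez
  rw [dif_pos (by simp)]
  rfl

lemma sum_ez {r : ℕ} (hr : r ≤ 8) (m : Fin r → ℕ) (f : ℕ → ℤ) (hf : f 0 = 0) :
    ∑ j, f (ez m j) = ∑ i, f (m i) := by
  classical
  have h1 : ∑ i, f (m i) = ∑ j ∈ Finset.univ.image (Fin.castLE hr), f (ez m j) := by
    rw [Finset.sum_image (fun a _ b _ h => Fin.castLE_injective hr h)]
    exact Finset.sum_congr rfl fun i _ => by rw [ez_castLE]
  rw [h1]
  symm
  apply Finset.sum_subset (Finset.subset_univ _)
  intro j _ hj
  unfold ez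
  rw [dif_neg, hf]
  intro h
  apply hj
  rw [Finset.mem_image]
  exact ⟨⟨j.val, h⟩, Finset.mem_univ _, Fin.ext rfl⟩

section
variable {r : ℕ} (hr : r ≤ 8) {p : Fin r → Fin 2 → ℂ} (hG : GP p) {F : P3} {d : ℕ}
  (hF : F.IsHomogeneous d) (hF0 : F ≠ 0) (hsq : Squarefree F) {m : Fin r → ℕ}
  (hm : ∀ i, OrdGE F (pv (p i)) (m i))
include hr hG hF hF0 hsq hm

/-- the case of the Euler characteristic -/
lemma final_S : 0 ≤ (d : ℤ) * d + 3 * d - ∑ i, (m i : ℤ) * (m i + 1) := by
  obtain ⟨p', hG', h1, -⟩ := extend hF hF0 (pv_ne (fun _ => 0)) hG 8 hr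
  choose M hM using fun j => exists_frame (pv_ne (p' j))
  have h2 := caseS hG' M hM hF hF0 hsq
  have h3 : ∑ j, (ez m j : ℤ) * (ez m j + 1) ≤ ∑ j, (o1 (M j) F : ℤ) * (o1 (M j) F + 1) := by
    apply Finset.sum_le_sum
    intro j _
    have h4 : ez m j ≤ o1 (M j) F := by
      unfold ez
      split_ifs with h
      · rw [← ordGE_iff_o1 (M j) hF hF0, hM j]
        have := hm ⟨j.val, h⟩
        rw [← h1] at this
        exact this
      · exact Nat.zero_le _
    have h5 : (ez m j : ℤ) ≤ o1 (M j) F := by exact_mod_cast h4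
    nlinarith
  rw [sum_ez hr m (fun x => (x : ℤ) * (x + 1)) (by simp)] at h3
  linarith

/-- the case of a point of the plane -/
lemma final_P {x : Fin 3 → ℂ} (hx : x ≠ 0) (hxp : ∀ i, Far x (pv (p i))) {t : ℕ}
    (ht : OrdGE F x t) :
    (t : ℤ) * (t + 1) - 4 ≤ (d : ℤ) * d + 3 * d - ∑ i, (m i : ℤ) * (m i + 1) := by
  obtain ⟨p', hG', h1, h1'⟩ := extend hF hF0 hx hG 8 hr
  choose M hM using fun j => exists_frame (pv_ne (p' j))
  obtain ⟨Q, hQ⟩ := exists_frame hx
  have hfar : ∀ j, Far x (pv (p' j)) := by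
    intro j
    by_cases h : j.val < r
    · have := hxp ⟨j.val, h⟩
      rw [← h1] at this
      exact this
    · exact (h1' j (not_lt.1 h)).2
  have hsep : Sepd (fun o : Ix => match o with
      | none => Q
      | some j => M j) := by
    rintro (_ | i) (_ | j) hij
    · exact absurd rfl hij
    · show Far Q.o (M j).o
      rw [hQ, hM]; exact hfar j
    · show Far (M i).o Q.o
      rw [hQ, hM]; exact (hfar i).symm
    · exact sepd8 hG' M hM i j (fun h => hij (by rw [h]))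
  have h2 := caseP hG' _ hsep hM hF hF0 hsq
  rw [Fintype.sum_option] at h2
  simp only at h2
  have h3 : ∑ j, (ez m j : ℤ) * (ez m j + 1) ≤ ∑ j, (o1 (M j) F : ℤ) * (o1 (M j) F + 1) := by
    apply Finset.sum_le_sum
    intro j _
    have h4 : ez m j ≤ o1 (M j) F := by
      unfold ez
      split_ifs with h
      · rw [← ordGE_iff_o1 (M j) hF hF0, hM j]
        have := hm ⟨j.val, h⟩
        rw [← h1] at this
        exact this
      · exact Nat.zero_le _
    have h5 : (ez m j : ℤ) ≤ o1 (M j) F := by exact_mod_cast h4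
    nlinarith
  rw [sum_ez hr m (fun x => (x : ℤ) * (x + 1)) (by simp)] at h3
  have h6 : t ≤ o1 Q F := by
    rw [← ordGE_iff_o1 Q hF hF0, hQ]; exact ht
  have h7 : (t : ℤ) ≤ o1 Q F := by exact_mod_cast h6
  nlinarith

/-- the case of an infinitely near point -/
lemma final_I (hm' : ∀ i, ¬ OrdGE F (pv (p i)) (m i + 2)) (i : Fin r) {M0 : Frame}
    (hM0 : M0.o = pv (p i)) {t : ℕ} (ht : o2 M0 F = m i + t) :
    (t : ℤ) * (t + 1) - 4 ≤ (d : ℤ) * d + 3 * d - ∑ i, (m i : ℤ) * (m i + 1) := by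
  classical
  obtain ⟨p', hG', h1, -⟩ := extend hF hF0 (pv_ne (fun _ => 0)) hG 8 hr
  choose M' hM' using fun j => exists_frame (pv_ne (p' j))
  set i0 : Fin 8 := Fin.castLE hr i with hi0
  set M : Fin 8 → Frame := fun j => if j = i0 then M0 else M' j with hMdef
  have hMi : M i0 = M0 := by rw [hMdef]; simp
  have hM : ∀ j, (M j).o = pv (p' j) := by
    intro j
    by_cases h : j = i0
    · rw [h, hMi, hM0, hi0, h1]
    · rw [hMdef]
      simp only [if_neg h]
      exact hM' j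
  have h2 := caseI hG' M i0 hM hF hF0 hsq
  have h4 : ∀ j, ez m j ≤ o1 (M j) F := by
    intro j
    unfold ez
    split_ifs with h
    · rw [← ordGE_iff_o1 (M j) hF hF0, hM j]
      have := hm ⟨j.val, h⟩
      rw [← h1] at this
      exact this
    · exact Nat.zero_le _
  have h5 : ∀ j, (ez m j : ℤ) * (ez m j + 1) ≤ (o1 (M j) F : ℤ) * (o1 (M j) F + 1) := by
    intro j
    have h5 : (ez m j : ℤ) ≤ o1 (M j) F := by exact_mod_cast h4 j
    nlinarith
  have hez := ez_castLE hr m i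
  rw [← hi0] at hez
  have hμ1 : m i ≤ o1 M0 F := by
    have := h4 i0
    rwa [hez, hMi] at this
  have hμ2 : o1 M0 F < m i + 2 := by
    have := hm' i
    rw [← hM0, ordGE_iff_o1 M0 hF hF0] at this
    omega
  have h12 := o1_le_o2 (M := M0) hF hF0
  have h21 := o2_le (M := M0) hF hF0
  rw [hMi] at h2
  rw [← sum_ez hr m (fun x => (x : ℤ) * (x + 1)) (by simp)]
  have hoi : (oi M0 F : ℤ) = m i + t - o1 M0 F := by
    unfold oi
    rw [ht]
    rw [ht] at h12
    push_cast [h12]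
    ring
  rcases (show o1 M0 F = m i ∨ o1 M0 F = m i + 1 by omega) with he | he
  · have h3 : ∑ j, (ez m j : ℤ) * (ez m j + 1) ≤ ∑ j, (o1 (M j) F : ℤ) * (o1 (M j) F + 1) :=
      Finset.sum_le_sum fun j _ => h5 j
    rw [he] at hoi
    have hoi' : (oi M0 F : ℤ) = t := by linarith
    rw [hoi'] at h2
    linarith
  · have h3 : ∑ j, (ez m j : ℤ) * (ez m j + 1) + 2 * (o1 M0 F : ℤ) ≤
        ∑ j, (o1 (M j) F : ℤ) * (o1 (M j) F + 1) := by
      rw [← Finset.add_sum_erase _ _ (Finset.mem_univ i0),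
        ← Finset.add_sum_erase Finset.univ (fun j => (o1 (M j) F : ℤ) * (o1 (M j) F + 1))
          (Finset.mem_univ i0)]
      have h6 : ∑ j ∈ Finset.univ.erase i0, (ez m j : ℤ) * (ez m j + 1) ≤
          ∑ j ∈ Finset.univ.erase i0, (o1 (M j) F : ℤ) * (o1 (M j) F + 1) :=
        Finset.sum_le_sum fun j _ => h5 j
      rw [hez, hMi, he]
      push_cast
      nlinarith
    rw [he] at hoi h3 h12
    push_cast at hoi h3
    have hoi' : (oi M0 F : ℤ) = t - 1 := by linarith
    rw [hoi'] at h2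
    rw [ht, he] at h21
    have h7 : (t : ℤ) ≤ m i + 2 := by
      have : t ≤ m i + 2 := by omega
      exact_mod_cast this
    nlinarith

end

/-- the binomial form -/
lemma contra {r d t : ℕ} {m : Fin r → ℕ}
    (hχ : (((d + 2).choose 2 : ℕ) : ℤ) - ∑ i, (((m i + 1).choose 2 : ℕ) : ℤ)
      ≤ max ((((t + 1).choose 2 : ℕ) : ℤ) - 2) 0)
    (h1 : 0 ≤ (d : ℤ) * d + 3 * d - ∑ i, (m i : ℤ) * (m i + 1))
    (h2 : (t : ℤ) * (t + 1) - 4 ≤ (d : ℤ) * d + 3 * d - ∑ i, (m i : ℤ) * (m i + 1)) : False := by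
  have hc : ∀ n : ℕ, 2 * (((n + 1).choose 2 : ℕ) : ℤ) = (n : ℤ) * (n + 1) := by
    intro n
    have h : 2 * (n + 1).choose 2 = n * (n + 1) := by
      rw [Nat.choose_two_right]
      have : 2 ∣ (n + 1) * (n + 1 - 1) := (Nat.even_mul_pred_self (n + 1)).two_dvd
      rw [Nat.mul_div_cancel' this, Nat.add_sub_cancel, mul_comm]
    exact_mod_cast h
  have e1 := hc (d + 1)
  have e2 := hc t
  have e3 : 2 * ∑ i, (((m i + 1).choose 2 : ℕ) : ℤ) = ∑ i, (m i : ℤ) * (m i + 1) := by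
    rw [Finset.mul_sum]
    exact Finset.sum_congr rfl fun i _ => hc (m i)
  push_cast at e1
  rcases le_total ((((t + 1).choose 2 : ℕ) : ℤ) - 2) 0 with h | h
  · rw [max_eq_right h] at hχ
    nlinarith
  · rw [max_eq_left h] at hχ
    nlinarith

end Pool.Agent.Helper52.NP
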